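import Mathlib
import Pool.Graph.R_seed8.NestConn.MSS.Main

set_option autoImplicit false

open Finset

namespace Pool.Agent.Helper27.FF

theorem exists_root {n : Type} [Fintype n] [DecidableEq n] {ι : Type}
    (I : Finset ι) (W : ι → ℝ) (u : ι → n → ℝ)
    (hq : ∀ x : n → ℝ, ∑ i ∈ I, W i * (∑ s, u i s * x s) ^ 2 ≤ ∑ s, x s ^ 2) :
    ∃ B : n → n → ℝ, ∀ s s' : n,
      (∑ i ∈ I, W i * (u i s * u i s')) + ∑ r, B r s * B r s' = if s = s' then 1 else 0 := by
  classical
  set M : Matrix n n ℝ := Matrix.of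
    (fun s s' => (if s = s' then 1 else 0) - ∑ i ∈ I, W i * (u i s * u i s')) with hM
  have hMa : ∀ s s', M s s' = (if s = s' then 1 else 0) - ∑ i ∈ I, W i * (u i s * u i s') :=
    fun s s' => rfl
  have hherm : M.IsHermitian := by
    ext s s'
    rw [Matrix.conjTranspose_apply, star_trivial, hMa, hMa]
    have h1 : (if s' = s then (1:ℝ) else 0) = if s = s' then 1 else 0 := by
      by_cases h : s = s'
      · simp [h]
      · rw [if_neg h, if_neg (fun h' => h h'.symm)]
    have h2 : ∑ i ∈ I, W i * (u i s' * u i s) = ∑ i ∈ I, W i * (u i s * u i s') :=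
      Finset.sum_congr rfl fun i _ => by ring
    rw [h1, h2]
  have hquad : ∀ x : n → ℝ, x ⬝ᵥ (M.mulVec x) =
      ∑ s, x s ^ 2 - ∑ i ∈ I, W i * (∑ s, u i s * x s) ^ 2 := by
    intro x
    have h1 : ∀ i, W i * (∑ s, u i s * x s) ^ 2 =
        ∑ s, ∑ s', W i * (x s * (u i s * u i s') * x s') := by
      intro i
      rw [sq, Finset.sum_mul_sum, Finset.mul_sum]
      refine Finset.sum_congr rfl fun s _ => ?_
      rw [Finset.mul_sum]
      refine Finset.sum_congr rfl fun s' _ => by ring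
    have h2 : ∀ s, x s * ∑ s', M s s' * x s' =
        x s ^ 2 - ∑ i ∈ I, ∑ s', W i * (x s * (u i s * u i s') * x s') := by
      intro s
      have h3 : ∀ s', M s s' * x s' = (if s = s' then x s' else 0) -
          ∑ i ∈ I, W i * ((u i s * u i s') * x s') := by
        intro s'
        rw [hMa, sub_mul, ite_mul, one_mul, zero_mul, Finset.sum_mul]
        congr 1
        exact Finset.sum_congr rfl fun i _ => by ring
      rw [Finset.sum_congr rfl fun s' _ => h3 s', Finset.sum_sub_distrib, Finset.sum_ite_eq]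
      simp only [Finset.mem_univ, if_true]
      rw [mul_sub, ← sq, Finset.sum_comm, Finset.mul_sum]
      congr 1
      refine Finset.sum_congr rfl fun i _ => ?_
      rw [Finset.mul_sum]
      exact Finset.sum_congr rfl fun s' _ => by ring
    simp only [dotProduct, Matrix.mulVec]
    rw [Finset.sum_congr rfl fun s _ => h2 s, Finset.sum_sub_distrib,
      Finset.sum_congr rfl fun i _ => h1 i]
    congr 1
    rw [Finset.sum_comm]
  have hpsd : M.PosSemidef := by
    refine Matrix.PosSemidef.of_dotProduct_mulVec_nonneg hherm fun x => ?_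
    rw [star_trivial, hquad x]
    linarith [hq x]
  open scoped MatrixOrder in
  have hroot : ∃ X : Matrix n n ℝ, M = X.transpose * X := by
    refine ⟨CFC.sqrt M, ?_⟩
    have h1 := CFC.sqrt_mul_sqrt_self M hpsd.nonneg
    have h2 : (CFC.sqrt M).IsHermitian := (Matrix.nonneg_iff_posSemidef.1 (CFC.sqrt_nonneg M)).1
    have h3 : (CFC.sqrt M).transpose = CFC.sqrt M := by
      have := h2.eq
      rwa [Matrix.conjTranspose_eq_transpose_of_trivial] at this
    rw [h3, h1]
  obtain ⟨X, hX⟩ := hroot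
  refine ⟨X, fun s s' => ?_⟩
  have h := congrFun (congrFun hX s) s'
  rw [hMa, Matrix.mul_apply] at h
  simp only [Matrix.transpose_apply] at h
  rw [← h]
  ring

/-- the halving step -/
theorem halve {n : Type} [Fintype n] [DecidableEq n] {ι : Type} [DecidableEq ι]
    (I : Finset ι) (W : ι → ℝ) (u : ι → n → ℝ) (ε : ℝ) (hε : 0 < ε)
    (hW : ∀ i ∈ I, 0 ≤ W i) (hu : ∀ i ∈ I, W i * ∑ s, u i s ^ 2 ≤ ε)
    (hq : ∀ x : n → ℝ, ∑ i ∈ I, W i * (∑ s, u i s * x s) ^ 2 ≤ ∑ s, x s ^ 2) :
    ∃ I₁ ⊆ I, ∀ x : n → ℝ,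
      |2 * ∑ i ∈ I₁, W i * (∑ s, u i s * x s) ^ 2 - ∑ i ∈ I, W i * (∑ s, u i s * x s) ^ 2|
        ≤ ((1 + √(2 * ε)) ^ 2 - 1) * ∑ s, x s ^ 2 := by
  classical
  obtain ⟨B, hB⟩ := exists_root I W u hq
  obtain ⟨K, hK⟩ := exists_nat_gt ((∑ r, ∑ s, B r s ^ 2) / ε)
  have hKpos : 0 < (K : ℝ) := by
    refine lt_of_le_of_lt ?_ hK
    positivity
  have hKε : ∀ r, ∑ s, B r s ^ 2 ≤ K * ε := by
    intro r
    have h1 : ∑ s, B r s ^ 2 ≤ ∑ r, ∑ s, B r s ^ 2 :=
      Finset.single_le_sum (f := fun r => ∑ s, B r s ^ 2)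
        (fun r _ => Finset.sum_nonneg fun s _ => sq_nonneg _) (Finset.mem_univ r)
    have h2 : ∑ r, ∑ s, B r s ^ 2 < K * ε := by
      rwa [div_lt_iff₀ hε] at hK
    linarith
  -- index type
  let J : Type := I ⊕ (n × Fin K × Bool)
  let v : J → Bool → (n × Bool) → ℝ := fun j c p =>
    Sum.elim (fun i : I => if p.2 = c then √(2 * W i) * u i p.1 else 0)
      (fun q => if p.2 = q.2.2 then B q.1 p.1 / √K else 0) j
  have hsqK : √(K:ℝ) * √(K:ℝ) = K := Real.mul_self_sqrt hKpos.le
  have hsqKpos : 0 < √(K:ℝ) := Real.sqrt_pos.2 hKpos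
  have hcard : ((Fintype.card Bool : ℕ) : ℝ)⁻¹ = 1 / 2 := by norm_num
  have hsum : ∑ j, (Fintype.card Bool : ℝ)⁻¹ • ∑ a, Matrix.vecMulVec (v j a) (v j a) = 1 := by
    ext ⟨s, b⟩ ⟨s', b'⟩
    rw [hcard, Matrix.sum_apply, Fintype.sum_sum_type]
    have e1 : ∀ i : I, ((1/2 : ℝ) • ∑ a, Matrix.vecMulVec (v (Sum.inl i) a) (v (Sum.inl i) a))
        (s, b) (s', b') = if b = b' then W i * (u i s * u i s') else 0 := by
      intro i
      have hw : √(2 * W i) * √(2 * W i) = 2 * W i :=
        Real.mul_self_sqrt (by have := hW i i.2; positivity)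
      rw [Matrix.smul_apply, Matrix.sum_apply]
      simp only [Matrix.vecMulVec_apply, v, Sum.elim_inl, smul_eq_mul, Fintype.univ_bool]
      generalize √(2 * W i) = w at hw
      cases b <;> cases b' <;> simp <;> linear_combination (1/2 * (u i s * u i s')) * hw
    have e2 : ∀ q : n × Fin K × Bool,
        ((1/2 : ℝ) • ∑ a, Matrix.vecMulVec (v (Sum.inr q) a) (v (Sum.inr q) a))
        (s, b) (s', b') = if b = q.2.2 ∧ b' = q.2.2 then B q.1 s * B q.1 s' / K else 0 := by
      intro q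
      rw [Matrix.smul_apply, Matrix.sum_apply]
      simp only [Matrix.vecMulVec_apply, v, Sum.elim_inr, smul_eq_mul, Fintype.univ_bool]
      by_cases h1 : b = q.2.2
      · by_cases h2 : b' = q.2.2
        · simp only [h1, h2, if_true, and_self]
          have : B q.1 s / √K * (B q.1 s' / √K) = B q.1 s * B q.1 s' / K := by
            rw [div_mul_div_comm, hsqK]
          simp [this]
        · simp [h2]
      · simp [h1]
    rw [Finset.sum_congr rfl fun i _ => e1 i, Finset.sum_congr rfl fun i _ => e2 i]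
    have e3 : ∑ i : I, (if b = b' then W i * (u i s * u i s') else 0) =
        if b = b' then ∑ i ∈ I, W i * (u i s * u i s') else 0 := by
      by_cases h : b = b'
      · simp only [h, if_true]
        exact Finset.sum_coe_sort I (fun i => W i * (u i s * u i s'))
      · simp [h]
    have e4 : ∑ q : n × Fin K × Bool, (if b = q.2.2 ∧ b' = q.2.2 then B q.1 s * B q.1 s' / K
        else 0) = if b = b' then ∑ r, B r s * B r s' else 0 := by
      rw [Fintype.sum_prod_type]
      simp only [Fintype.sum_prod_type, Fintype.univ_bool]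
      by_cases h : b = b'
      · subst h
        simp only [and_self, if_true]
        refine Finset.sum_congr rfl fun r _ => ?_
        have : ∀ t : Fin K, ∑ c ∈ ({true, false} : Finset Bool),
            (if b = c then B r s * B r s' / (K:ℝ) else 0) = B r s * B r s' / K := by
          intro t
          cases b <;> simp
        rw [Finset.sum_congr rfl fun t _ => this t]
        simp
        field_simp
      · rw [if_neg h]
        refine Finset.sum_eq_zero fun r _ => Finset.sum_eq_zero fun t _ =>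
          Finset.sum_eq_zero fun c _ => ?_
        rw [if_neg]
        rintro ⟨h1, h2⟩
        exact h (h1.trans h2.symm)
    rw [e3, e4]
    rw [Matrix.one_apply]
    by_cases h : b = b'
    · rw [if_pos h, if_pos h, hB s s']
      by_cases h' : s = s'
      · simp [h, h']
      · simp [h']
    · rw [if_neg h, if_neg h, if_neg]
      · simp
      · rintro h'
        exact h (congrArg Prod.snd h')
  have hsmall : ∀ j, (Fintype.card Bool : ℝ)⁻¹ * ∑ a, ∑ i, v j a i ^ 2 ≤ 2 * ε := by
    rintro (i | q)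
    · rw [hcard]
      have hw : √(2 * W i) ^ 2 = 2 * W i :=
        Real.sq_sqrt (by have := hW i i.2; positivity)
      have : ∀ a, ∑ p, v (Sum.inl i) a p ^ 2 = 2 * W i * ∑ s, u i s ^ 2 := by
        intro a
        rw [Fintype.sum_prod_type, Finset.mul_sum]
        refine Finset.sum_congr rfl fun s _ => ?_
        simp only [v, Sum.elim_inl, Fintype.univ_bool]
        generalize √(2 * W i) = w at hw
        cases a <;> simp [mul_pow, hw]
      rw [Finset.sum_congr rfl fun a _ => this a]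
      simp
      linarith [hu i i.2]
    · rw [hcard]
      have : ∀ a, ∑ p, v (Sum.inr q) a p ^ 2 ≤ ε := by
        intro a
        rw [Fintype.sum_prod_type]
        have h3 : ∀ s, ∑ c, v (Sum.inr q) a (s, c) ^ 2 = B q.1 s ^ 2 / K := by
          intro s
          simp only [v, Sum.elim_inr, Fintype.univ_bool]
          rcases q with ⟨r, t, c⟩
          cases c <;> simp [div_pow, Real.sq_sqrt hKpos.le]
        rw [Finset.sum_congr rfl fun s _ => h3 s, ← Finset.sum_div, div_le_iff₀ hKpos]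
        linarith [hKε q.1]
      have h4 := Finset.sum_le_sum fun a (_ : a ∈ (Finset.univ : Finset Bool)) => this a
      simp at h4 ⊢
      linarith
  obtain ⟨c, hc⟩ := NestConn.MSS.mss v (2 * ε) (by positivity) hsum hsmall
  -- the chosen half
  set I₁ : Finset ι := I.attach.filter (fun i => c (Sum.inl i) = true) |>.image Subtype.val with hI₁
  have hI₁sub : I₁ ⊆ I := by
    intro i hi
    simp only [hI₁, Finset.mem_image] at hi
    obtain ⟨j, _, rfl⟩ := hi
    exact j.2
  refine ⟨I₁, hI₁sub, fun x => ?_⟩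
  have hxb : ∀ b : Bool,
      2 * ∑ i : I, (if b = c (Sum.inl i) then W i * (∑ s, u i s * x s) ^ 2 else 0) -
        ∑ i ∈ I, W i * (∑ s, u i s * x s) ^ 2 ≤ ((1 + √(2 * ε)) ^ 2 - 1) * ∑ s, x s ^ 2 := by
    intro b
    have h := hc (fun p => if p.2 = b then x p.1 else 0)
    have hR : ∑ p : n × Bool, (if p.2 = b then x p.1 else 0) ^ 2 = ∑ s, x s ^ 2 := by
      rw [Fintype.sum_prod_type]
      refine Finset.sum_congr rfl fun s _ => ?_
      cases b <;> simp
    rw [hR, Fintype.sum_sum_type] at h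
    have hL1 : ∀ i : I, (∑ p, v (Sum.inl i) (c (Sum.inl i)) p * (if p.2 = b then x p.1 else 0)) ^ 2
        = 2 * (if b = c (Sum.inl i) then W i * (∑ s, u i s * x s) ^ 2 else 0) := by
      intro i
      have hw : √(2 * W i) ^ 2 = 2 * W i :=
        Real.sq_sqrt (by have := hW i i.2; positivity)
      have : ∑ p, v (Sum.inl i) (c (Sum.inl i)) p * (if p.2 = b then x p.1 else 0) =
          if b = c (Sum.inl i) then √(2 * W i) * ∑ s, u i s * x s else 0 := by
        rw [Fintype.sum_prod_type]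
        simp only [v, Sum.elim_inl, Fintype.univ_bool]
        by_cases h : b = c (Sum.inl i)
        · rw [if_pos h, Finset.mul_sum]
          refine Finset.sum_congr rfl fun s _ => ?_
          rw [← h]
          cases b <;> simp <;> ring
        · rw [if_neg h]
          refine Finset.sum_eq_zero fun s _ => ?_
          generalize c (Sum.inl i) = d at h ⊢
          cases b <;> cases d <;> simp_all
      rw [this]
      by_cases h : b = c (Sum.inl i)
      · rw [if_pos h, if_pos h, mul_pow, hw]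
        ring
      · rw [if_neg h, if_neg h]
        ring
    have hL2 : ∑ q : n × Fin K × Bool, (∑ p, v (Sum.inr q) (c (Sum.inr q)) p *
        (if p.2 = b then x p.1 else 0)) ^ 2 = ∑ r, (∑ s, B r s * x s) ^ 2 := by
      have h5 : ∀ q : n × Fin K × Bool, (∑ p, v (Sum.inr q) (c (Sum.inr q)) p *
          (if p.2 = b then x p.1 else 0)) ^ 2 =
          if b = q.2.2 then (∑ s, B q.1 s * x s) ^ 2 / K else 0 := by
        intro q
        have : ∑ p, v (Sum.inr q) (c (Sum.inr q)) p * (if p.2 = b then x p.1 else 0) =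
            if b = q.2.2 then (∑ s, B q.1 s * x s) / √K else 0 := by
          rw [Fintype.sum_prod_type]
          simp only [v, Sum.elim_inr, Fintype.univ_bool]
          by_cases h : b = q.2.2
          · rw [if_pos h, Finset.sum_div]
            refine Finset.sum_congr rfl fun s _ => ?_
            rw [← h]
            cases b <;> simp <;> ring
          · rw [if_neg h]
            refine Finset.sum_eq_zero fun s _ => ?_
            generalize q.2.2 = d at h ⊢
            cases b <;> cases d <;> simp_all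
        rw [this]
        by_cases h : b = q.2.2
        · rw [if_pos h, if_pos h, div_pow, Real.sq_sqrt hKpos.le]
        · rw [if_neg h, if_neg h]
          ring
      rw [Finset.sum_congr rfl fun q _ => h5 q, Fintype.sum_prod_type]
      refine Finset.sum_congr rfl fun r _ => ?_
      rw [Fintype.sum_prod_type]
      simp only [Fintype.univ_bool]
      have : ∀ t : Fin K, ∑ d ∈ ({true, false} : Finset Bool),
          (if b = d then (∑ s, B r s * x s) ^ 2 / (K:ℝ) else 0) = (∑ s, B r s * x s) ^ 2 / K := by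
        intro t
        cases b <;> simp
      rw [Finset.sum_congr rfl fun t _ => this t]
      simp
      field_simp
    have hBx : ∑ i ∈ I, W i * (∑ s, u i s * x s) ^ 2 + ∑ r, (∑ s, B r s * x s) ^ 2
        = ∑ s, x s ^ 2 := by
      have h6 : ∀ (y : n → ℝ), (∑ s, y s * x s) ^ 2 = ∑ s, ∑ s', (y s * y s') * (x s * x s') := by
        intro y
        rw [sq, Finset.sum_mul_sum]
        refine Finset.sum_congr rfl fun s _ => Finset.sum_congr rfl fun s' _ => by ring
      have h7 : ∑ i ∈ I, W i * (∑ s, u i s * x s) ^ 2 =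
          ∑ s, ∑ s', (∑ i ∈ I, W i * (u i s * u i s')) * (x s * x s') := by
        calc ∑ i ∈ I, W i * (∑ s, u i s * x s) ^ 2
            = ∑ i ∈ I, ∑ s, ∑ s', W i * (u i s * u i s') * (x s * x s') := by
              refine Finset.sum_congr rfl fun i _ => ?_
              rw [h6, Finset.mul_sum]
              refine Finset.sum_congr rfl fun s _ => ?_
              rw [Finset.mul_sum]
              exact Finset.sum_congr rfl fun s' _ => by ring
          _ = ∑ s, ∑ s', ∑ i ∈ I, W i * (u i s * u i s') * (x s * x s') := by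
              rw [Finset.sum_comm]
              refine Finset.sum_congr rfl fun s _ => ?_
              rw [Finset.sum_comm]
          _ = _ := by
              refine Finset.sum_congr rfl fun s _ => Finset.sum_congr rfl fun s' _ => ?_
              rw [Finset.sum_mul]
      have h8 : ∑ r, (∑ s, B r s * x s) ^ 2 =
          ∑ s, ∑ s', (∑ r, B r s * B r s') * (x s * x s') := by
        calc ∑ r, (∑ s, B r s * x s) ^ 2
            = ∑ r, ∑ s, ∑ s', (B r s * B r s') * (x s * x s') := by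
              refine Finset.sum_congr rfl fun i _ => ?_
              rw [h6]
          _ = ∑ s, ∑ s', ∑ r, (B r s * B r s') * (x s * x s') := by
              rw [Finset.sum_comm]
              refine Finset.sum_congr rfl fun s _ => ?_
              rw [Finset.sum_comm]
          _ = _ := by
              refine Finset.sum_congr rfl fun s _ => Finset.sum_congr rfl fun s' _ => ?_
              rw [Finset.sum_mul]
      rw [h7, h8, ← Finset.sum_add_distrib]
      refine Finset.sum_congr rfl fun s _ => ?_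
      rw [← Finset.sum_add_distrib]
      have : ∀ s', (∑ i ∈ I, W i * (u i s * u i s')) * (x s * x s') +
          (∑ r, B r s * B r s') * (x s * x s') = if s = s' then x s * x s' else 0 := by
        intro s'
        rw [← add_mul, hB s s']
        by_cases h : s = s' <;> simp [h]
      rw [Finset.sum_congr rfl fun s' _ => this s']
      simp [sq]
    rw [hL2, Finset.sum_congr rfl fun i _ => hL1 i, ← Finset.mul_sum] at h
    linarith
  -- rewrite in terms of I₁
  have hT : ∑ i : I, (if true = c (Sum.inl i) then W i * (∑ s, u i s * x s) ^ 2 else 0) =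
      ∑ i ∈ I₁, W i * (∑ s, u i s * x s) ^ 2 := by
    rw [hI₁, Finset.sum_image (by intro a _ b _ h; exact Subtype.ext h), Finset.sum_filter]
    refine Finset.sum_congr rfl fun i _ => ?_
    by_cases h : c (Sum.inl i) = true
    · rw [if_pos h, if_pos h.symm]
    · rw [if_neg h, if_neg (fun h' => h h'.symm)]
  have hF : ∑ i : I, (if false = c (Sum.inl i) then W i * (∑ s, u i s * x s) ^ 2 else 0) =
      ∑ i ∈ I, W i * (∑ s, u i s * x s) ^ 2 - ∑ i ∈ I₁, W i * (∑ s, u i s * x s) ^ 2 := by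
    rw [← hT, eq_sub_iff_add_eq, ← Finset.sum_add_distrib,
      ← Finset.sum_coe_sort I (fun i => W i * (∑ s, u i s * x s) ^ 2)]
    refine Finset.sum_congr rfl fun i _ => ?_
    generalize c (Sum.inl i) = d
    cases d <;> simp
  have h1 := hxb true
  have h2 := hxb false
  rw [hT] at h1
  rw [hF] at h2
  rw [abs_le]
  constructor <;> linarith

/-- induction for the thinning: stage `J` -/
theorem thin_aux {n : Type} [Fintype n] [DecidableEq n] {ι : Type} [DecidableEq ι]
    (u : ι → n → ℝ) (δ : ℝ) (hδ : 0 < δ) (hδ1 : √δ ≤ 1) (J : ℕ) :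
    ∀ (I : Finset ι) (W : ι → ℝ), (∀ i ∈ I, ∑ s, u i s ^ 2 ≤ 1) →
      (∀ i ∈ I, 0 < W i ∧ W i ≤ δ ∧ δ < 2 ^ (J + 1) * W i) →
      (∀ x : n → ℝ, ∑ i ∈ I, W i * (∑ s, u i s * x s) ^ 2 ≤
        (1 - 12 * √δ * (1 - (3 / 4) ^ J)) * ∑ s, x s ^ 2) →
      ∃ A ⊆ I, ∃ W' : ι → ℝ, (∀ i ∈ A, δ / 2 < W' i ∧ W' i ≤ δ) ∧
        ∀ x : n → ℝ, |∑ i ∈ A, W' i * (∑ s, u i s * x s) ^ 2 -
          ∑ i ∈ I, W i * (∑ s, u i s * x s) ^ 2| ≤
            12 * √δ * (1 - (3 / 4) ^ J) * ∑ s, x s ^ 2 := by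
  classical
  induction J with
  | zero =>
    intro I W _ hW _
    refine ⟨I, subset_rfl, W, fun i hi => ⟨?_, (hW i hi).2.1⟩, fun x => ?_⟩
    · have := (hW i hi).2.2
      norm_num at this
      linarith
    · simp
  | succ J ih =>
    intro I W hu hW hq
    set Is := I.filter (fun i => 2 ^ (J + 1) * W i ≤ δ) with hIs
    have hIsI : Is ⊆ I := Finset.filter_subset _ _
    set ε := δ / 2 ^ (J + 1) with hε
    have h2J : (0:ℝ) < 2 ^ (J + 1) := by positivity
    have hεpos : 0 < ε := by positivity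
    have hsmall : ∀ i ∈ Is, W i ≤ ε := by
      intro i hi
      rw [hε, le_div_iff₀ h2J]
      have := (Finset.mem_filter.1 hi).2
      linarith
    have hsq : ∀ x : n → ℝ, 0 ≤ ∑ s, x s ^ 2 := fun x => Finset.sum_nonneg fun s _ => sq_nonneg _
    have h34 : (3 / 4 : ℝ) ^ (J + 1) ≤ 1 := pow_le_one₀ (by norm_num) (by norm_num)
    have hsδ : 0 ≤ √δ := Real.sqrt_nonneg _
    obtain ⟨I₁, hI₁, hh⟩ := halve Is W u ε hεpos (fun i hi => (hW i (hIsI hi)).1.le)
      (fun i hi => by
        have h1 := hu i (hIsI hi)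
        have h2 := hsmall i hi
        have h3 := (hW i (hIsI hi)).1
        have h4 : 0 ≤ ∑ s, u i s ^ 2 := Finset.sum_nonneg fun s _ => sq_nonneg _
        nlinarith) (fun x => by
        have h1 : ∑ i ∈ Is, W i * (∑ s, u i s * x s) ^ 2 ≤
            ∑ i ∈ I, W i * (∑ s, u i s * x s) ^ 2 :=
          Finset.sum_le_sum_of_subset_of_nonneg hIsI fun i hi _ =>
            mul_nonneg (hW i hi).1.le (sq_nonneg _)
        have h2 := hq x
        have h3 : 0 ≤ 12 * √δ * (1 - (3 / 4) ^ (J + 1)) * ∑ s, x s ^ 2 :=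
          mul_nonneg (mul_nonneg (by positivity) (by linarith)) (hsq x)
        nlinarith)
    -- the error bound of this stage
    have hE : (1 + √(2 * ε)) ^ 2 - 1 ≤ 3 * √δ * (3 / 4) ^ J := by
      have h1 : 2 * ε = δ / 2 ^ J := by
        rw [hε, pow_succ]
        field_simp
      have h2 : √(2 * ε) ≤ √δ * (3 / 4) ^ J := by
        rw [h1]
        apply Real.sqrt_le_iff.2
        constructor
        · positivity
        · rw [mul_pow, Real.sq_sqrt hδ.le, div_eq_mul_inv]
          apply mul_le_mul_of_nonneg_left _ hδ.le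
          rw [← pow_mul, mul_comm J 2, pow_mul, ← inv_pow]
          apply pow_le_pow_left₀ (by positivity)
          norm_num
      have h3 : 2 * ε ≤ √δ * (3 / 4) ^ J := by
        rw [h1, div_eq_mul_inv]
        have h4 : δ ≤ √δ := by
          have := Real.mul_self_sqrt hδ.le
          nlinarith
        have h5 : ((2:ℝ) ^ J)⁻¹ ≤ (3 / 4) ^ J := by
          rw [← inv_pow]
          exact pow_le_pow_left₀ (by positivity) (by norm_num) _
        exact mul_le_mul h4 h5 (by positivity) hsδ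
      have h4 : √(2 * ε) ^ 2 = 2 * ε := Real.sq_sqrt (by positivity)
      nlinarith
    set W₁ : ι → ℝ := fun i => if i ∈ Is then 2 * W i else W i with hW₁
    set I' := (I \ Is) ∪ I₁ with hI'
    have hI'I : I' ⊆ I := Finset.union_subset Finset.sdiff_subset (hI₁.trans hIsI)
    have hW' : ∀ i ∈ I', 0 < W₁ i ∧ W₁ i ≤ δ ∧ δ < 2 ^ (J + 1) * W₁ i := by
      intro i hi
      have hiI := hI'I hi
      by_cases his : i ∈ Is
      · have h1 := (Finset.mem_filter.1 his).2
        have h2 := (hW i hiI)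
        have h3 : W₁ i = 2 * W i := by simp [hW₁, his]
        have h4 : (1:ℝ) ≤ 2 ^ J := one_le_pow₀ (by norm_num)
        rw [h3]
        refine ⟨by linarith [h2.1], ?_, ?_⟩
        · have h5 := h2.1
          rw [pow_succ] at h1
          nlinarith
        · have h5 := h2.2.2
          rw [pow_succ] at h5
          linarith
      · have h1 : ¬ (2 ^ (J + 1) * W i ≤ δ) := fun h => his (Finset.mem_filter.2 ⟨hiI, h⟩)
        have h3 : W₁ i = W i := by simp [hW₁, his]
        rw [h3]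
        exact ⟨(hW i hiI).1, (hW i hiI).2.1, not_le.1 h1⟩
    have hdisj : Disjoint (I \ Is) I₁ :=
      Finset.disjoint_left.2 fun i hi hi' => (Finset.mem_sdiff.1 hi).2 (hI₁ hi')
    have hq' : ∀ x : n → ℝ, |∑ i ∈ I', W₁ i * (∑ s, u i s * x s) ^ 2 -
        ∑ i ∈ I, W i * (∑ s, u i s * x s) ^ 2| ≤ 3 * √δ * (3 / 4) ^ J * ∑ s, x s ^ 2 := by
      intro x
      have h1 : ∑ i ∈ I', W₁ i * (∑ s, u i s * x s) ^ 2 =
          ∑ i ∈ I \ Is, W i * (∑ s, u i s * x s) ^ 2 +
            2 * ∑ i ∈ I₁, W i * (∑ s, u i s * x s) ^ 2 := by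
        rw [hI', Finset.sum_union hdisj, Finset.mul_sum]
        congr 1
        · refine Finset.sum_congr rfl fun i hi => ?_
          simp [hW₁, (Finset.mem_sdiff.1 hi).2]
        · refine Finset.sum_congr rfl fun i hi => ?_
          simp only [hW₁, hI₁ hi, if_true]
          ring
      have h2 : ∑ i ∈ I, W i * (∑ s, u i s * x s) ^ 2 =
          ∑ i ∈ I \ Is, W i * (∑ s, u i s * x s) ^ 2 +
            ∑ i ∈ Is, W i * (∑ s, u i s * x s) ^ 2 :=
        (Finset.sum_sdiff hIsI).symm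
      rw [h1, h2]
      have h3 := hh x
      have h4 : ((1 + √(2 * ε)) ^ 2 - 1) * ∑ s, x s ^ 2 ≤ 3 * √δ * (3 / 4) ^ J * ∑ s, x s ^ 2 :=
        mul_le_mul_of_nonneg_right hE (hsq x)
      rw [abs_le] at h3 ⊢
      constructor <;> linarith [h3.1, h3.2]
    obtain ⟨A, hA, W', hWA, hfin⟩ := ih I' W₁ (fun i hi => hu i (hI'I hi)) hW' (fun x => by
      have h1 := hq x
      have h2 := (abs_le.1 (hq' x)).2
      have h3 : (3 / 4 : ℝ) ^ (J + 1) = (3 / 4) ^ J * (3 / 4) := pow_succ _ _
      rw [h3] at h1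
      linarith)
    refine ⟨A, hA.trans hI'I, W', hWA, fun x => ?_⟩
    have h1 := hfin x
    have h2 := hq' x
    have h3 : (3 / 4 : ℝ) ^ (J + 1) = (3 / 4) ^ J * (3 / 4) := pow_succ _ _
    rw [h3]
    rw [abs_le] at h1 h2 ⊢
    constructor <;> linarith [h1.1, h1.2, h2.1, h2.2]

/-- thinning in finite dimension -/
theorem thin_fin {n : Type} [Fintype n] [DecidableEq n] {ι : Type} [DecidableEq ι]
    (u : ι → n → ℝ) (δ : ℝ) (hδ : 0 < δ) (hδ1 : 24 * √δ ≤ 1)
    (I : Finset ι) (W : ι → ℝ) (hu : ∀ i ∈ I, ∑ s, u i s ^ 2 ≤ 1)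
    (hW : ∀ i ∈ I, 0 < W i ∧ W i ≤ δ)
    (hq : ∀ x : n → ℝ, ∑ i ∈ I, W i * (∑ s, u i s * x s) ^ 2 ≤ 1 / 2 * ∑ s, x s ^ 2) :
    ∃ A ⊆ I, ∀ x : n → ℝ,
      (∑ i ∈ I, W i * (∑ s, u i s * x s) ^ 2 - 12 * √δ * ∑ s, x s ^ 2) ≤
        δ * ∑ i ∈ A, (∑ s, u i s * x s) ^ 2 ∧
      δ * ∑ i ∈ A, (∑ s, u i s * x s) ^ 2 ≤
        2 * (∑ i ∈ I, W i * (∑ s, u i s * x s) ^ 2 + 12 * √δ * ∑ s, x s ^ 2) := by
  classical
  have hJ : ∃ J : ℕ, ∀ i ∈ I, δ < 2 ^ (J + 1) * W i := by
    have h1 : ∀ i ∈ I, ∃ J : ℕ, ∀ J' ≥ J, δ < 2 ^ (J' + 1) * W i := by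
      intro i hi
      obtain ⟨J, hJ⟩ := pow_unbounded_of_one_lt (δ / W i) (by norm_num : (1:ℝ) < 2)
      refine ⟨J, fun J' hJ' => ?_⟩
      rw [div_lt_iff₀ (hW i hi).1] at hJ
      have h2 : (2:ℝ) ^ J ≤ 2 ^ (J' + 1) := pow_le_pow_right₀ (by norm_num) (by omega)
      have := (hW i hi).1
      nlinarith
    choose! J hJ using h1
    refine ⟨I.sup J, fun i hi => hJ i hi _ (Finset.le_sup (f := J) hi)⟩
  obtain ⟨J, hJ⟩ := hJ
  have hsδ : 0 ≤ √δ := Real.sqrt_nonneg _
  have hsq : ∀ x : n → ℝ, 0 ≤ ∑ s, x s ^ 2 := fun x => Finset.sum_nonneg fun s _ => sq_nonneg _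
  have h34 : (0 : ℝ) ≤ (3 / 4) ^ J := by positivity
  have h34' : (3 / 4 : ℝ) ^ J ≤ 1 := pow_le_one₀ (by norm_num) (by norm_num)
  obtain ⟨A, hA, W', hW', hfin⟩ := thin_aux u δ hδ (by linarith) J I W hu
    (fun i hi => ⟨(hW i hi).1, (hW i hi).2, hJ i hi⟩) (fun x => by
      have h1 := hq x
      have h2 := hsq x
      have h3 : 12 * √δ * (1 - (3 / 4) ^ J) ≤ 1 / 2 := by nlinarith
      nlinarith)
  refine ⟨A, hA, fun x => ?_⟩
  have h1 := hfin x
  have h2 : 12 * √δ * (1 - (3 / 4) ^ J) * ∑ s, x s ^ 2 ≤ 12 * √δ * ∑ s, x s ^ 2 := by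
    have := hsq x
    apply mul_le_mul_of_nonneg_right _ this
    nlinarith
  have h3 : ∑ i ∈ A, W' i * (∑ s, u i s * x s) ^ 2 ≤ δ * ∑ i ∈ A, (∑ s, u i s * x s) ^ 2 := by
    rw [Finset.mul_sum]
    exact Finset.sum_le_sum fun i hi => mul_le_mul_of_nonneg_right (hW' i hi).2 (sq_nonneg _)
  have h4 : δ / 2 * ∑ i ∈ A, (∑ s, u i s * x s) ^ 2 ≤ ∑ i ∈ A, W' i * (∑ s, u i s * x s) ^ 2 := by
    rw [Finset.mul_sum]
    exact Finset.sum_le_sum fun i hi => mul_le_mul_of_nonneg_right (hW' i hi).1.le (sq_nonneg _)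
  rw [abs_le] at h1
  constructor <;> linarith [h1.1, h1.2]

/-- thinning for a diagonal form on finitely supported functions -/
theorem thin {σ : Type} [DecidableEq σ] {ι : Type} [DecidableEq ι]
    (p : ι → σ → ℝ) (r : σ → ℝ) (hr : ∀ s, 0 < r s) (δ : ℝ) (hδ : 0 < δ) (hδ1 : 24 * √δ ≤ 1)
    (I : Finset ι) (W : ι → ℝ) (hW : ∀ i ∈ I, 0 < W i ∧ W i ≤ δ)
    (hp : ∀ i ∈ I, ∀ (T : Finset σ) (f : σ → ℝ), (∑ s ∈ T, p i s * f s) ^ 2 ≤
      ∑ s ∈ T, r s * f s ^ 2)
    (hq : ∀ (T : Finset σ) (f : σ → ℝ), ∑ i ∈ I, W i * (∑ s ∈ T, p i s * f s) ^ 2 ≤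
      1 / 2 * ∑ s ∈ T, r s * f s ^ 2) :
    ∃ A ⊆ I, ∀ (T : Finset σ) (f : σ → ℝ),
      (∑ i ∈ I, W i * (∑ s ∈ T, p i s * f s) ^ 2 - 12 * √δ * ∑ s ∈ T, r s * f s ^ 2) ≤
        δ * ∑ i ∈ A, (∑ s ∈ T, p i s * f s) ^ 2 ∧
      δ * ∑ i ∈ A, (∑ s ∈ T, p i s * f s) ^ 2 ≤
        2 * (∑ i ∈ I, W i * (∑ s ∈ T, p i s * f s) ^ 2 + 12 * √δ * ∑ s ∈ T, r s * f s ^ 2) := by
  classical
  by_contra hcon
  push Not at hcon
  have hcon' : ∀ A : Finset ι, A ⊆ I → ∃ (T : Finset σ) (f : σ → ℝ),
      ¬ ((∑ i ∈ I, W i * (∑ s ∈ T, p i s * f s) ^ 2 - 12 * √δ * ∑ s ∈ T, r s * f s ^ 2) ≤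
        δ * ∑ i ∈ A, (∑ s ∈ T, p i s * f s) ^ 2 ∧
      δ * ∑ i ∈ A, (∑ s ∈ T, p i s * f s) ^ 2 ≤
        2 * (∑ i ∈ I, W i * (∑ s ∈ T, p i s * f s) ^ 2 + 12 * √δ * ∑ s ∈ T, r s * f s ^ 2)) := by
    intro A hA
    obtain ⟨T, f, h⟩ := hcon A hA
    exact ⟨T, f, fun h' => absurd h'.2 (not_le.2 (h h'.1))⟩
  choose! T f hTf using hcon'
  set S : Finset σ := I.powerset.biUnion T with hS
  have hsqr : ∀ s, √(r s) * √(r s) = r s := fun s => Real.mul_self_sqrt (hr s).le
  have hsqpos : ∀ s, 0 < √(r s) := fun s => Real.sqrt_pos.2 (hr s)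
  -- transfer between coordinates
  have htr : ∀ (g : σ → ℝ) (i : ι), ∑ s : S, (p i s / √(r s)) * (√(r s) * g s) =
      ∑ s ∈ S, p i s * g s := by
    intro g i
    rw [← Finset.sum_coe_sort S (fun s => p i s * g s)]
    refine Finset.sum_congr rfl fun s _ => ?_
    have := hsqpos s
    field_simp
  have htr2 : ∀ (g : σ → ℝ), ∑ s : S, (√(r s) * g s) ^ 2 = ∑ s ∈ S, r s * g s ^ 2 := by
    intro g
    rw [← Finset.sum_coe_sort S (fun s => r s * g s ^ 2)]
    refine Finset.sum_congr rfl fun s _ => ?_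
    rw [mul_pow, Real.sq_sqrt (hr s).le]
  have hx : ∀ x : S → ℝ, ∃ g : σ → ℝ, x = fun s : S => √(r s) * g s := by
    intro x
    refine ⟨fun s => if h : s ∈ S then x ⟨s, h⟩ / √(r s) else 0, ?_⟩
    funext s
    have := hsqpos s
    simp only [s.2, dif_pos]
    field_simp
  obtain ⟨A, hA, hfin⟩ := thin_fin (n := S) (fun i s => p i s / √(r s)) δ hδ hδ1 I W
    (fun i hi => by
      have h1 := hp i hi S (fun s => p i s / r s)
      have h2 : ∑ s : S, (p i s / √(r s)) ^ 2 = ∑ s ∈ S, p i s * (p i s / r s) := by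
        rw [← Finset.sum_coe_sort S (fun s => p i s * (p i s / r s))]
        refine Finset.sum_congr rfl fun s _ => ?_
        rw [div_pow, Real.sq_sqrt (hr s).le]
        ring
      have h3 : ∑ s ∈ S, r s * (p i s / r s) ^ 2 = ∑ s ∈ S, p i s * (p i s / r s) := by
        refine Finset.sum_congr rfl fun s _ => ?_
        have := hr s
        field_simp
      rw [h3] at h1
      rw [h2]
      by_contra h4
      push Not at h4
      nlinarith) hW
    (fun x => by
      obtain ⟨g, rfl⟩ := hx x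
      simp only [htr, htr2]
      exact hq S g)
  apply hTf A hA
  have hTS : T A ⊆ S := Finset.subset_biUnion_of_mem T (Finset.mem_powerset.2 hA)
  have h := hfin (fun s : S => √(r s) * (if (s : σ) ∈ T A then f A s else 0))
  have e1 : ∀ i, ∑ s : S, (p i s / √(r s)) * (√(r s) * (if (s : σ) ∈ T A then f A s else 0)) =
      ∑ s ∈ T A, p i s * f A s := by
    intro i
    rw [htr (fun s => if s ∈ T A then f A s else 0) i]
    simp only [mul_ite, mul_zero]
    rw [← Finset.sum_filter, Finset.filter_mem_eq_inter, Finset.inter_eq_right.2 hTS]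
  have e2 : ∑ s : S, (√(r s) * (if (s : σ) ∈ T A then f A s else 0)) ^ 2 =
      ∑ s ∈ T A, r s * f A s ^ 2 := by
    rw [htr2 (fun s => if s ∈ T A then f A s else 0)]
    have : ∀ s, r s * (if s ∈ T A then f A s else 0) ^ 2 =
        if s ∈ T A then r s * f A s ^ 2 else 0 := by
      intro s
      split_ifs <;> simp
    simp only [this]
    rw [← Finset.sum_filter, Finset.filter_mem_eq_inter, Finset.inter_eq_right.2 hTS]
  simp only [e1, e2] at h
  exact h

end Pool.Agent.Helper27.FF
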