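import Mathlib

set_option autoImplicit false

open Finset

namespace Pool.Agent.Helper27.FF

/-- product over a subset `S` of `J`: `s` on `S`, `c` off `S` -/
def pr {R : Type} [CommMonoid R] (s c : ℕ → R) (J S : Finset ℕ) : R :=
  (∏ j ∈ S, s j) * ∏ j ∈ J \ S, c j

theorem pr_insert_left {R : Type} [CommMonoid R] (s c : ℕ → R) {J S : Finset ℕ} {k : ℕ}
    (hk : k ∉ J) (hS : S ⊆ J) : pr s c (insert k J) S = pr s c J S * c k := by
  have h1 : insert k J \ S = insert k (J \ S) :=
    Finset.insert_sdiff_of_notMem _ (fun h => hk (hS h))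
  have h2 : k ∉ J \ S := fun h => hk (Finset.mem_sdiff.1 h).1
  rw [pr, pr, h1, Finset.prod_insert h2, mul_comm (c k), mul_assoc]

theorem pr_insert_insert {R : Type} [CommMonoid R] (s c : ℕ → R) {J S : Finset ℕ} {k : ℕ}
    (hk : k ∉ J) (hS : S ⊆ J) : pr s c (insert k J) (insert k S) = pr s c J S * s k := by
  have h1 : insert k J \ insert k S = J \ S := by
    ext x
    simp only [Finset.mem_sdiff, Finset.mem_insert, not_or]
    constructor
    · rintro ⟨h | h, h', h''⟩
      · exact absurd h h'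
      · exact ⟨h, h''⟩
    · rintro ⟨h, h'⟩
      exact ⟨Or.inr h, fun h'' => hk (h'' ▸ h), h'⟩
  rw [pr, pr, h1, Finset.prod_insert (fun h => hk (hS h)), mul_comm (s k), mul_right_comm]

theorem pr_union {R : Type} [CommMonoid R] (s c : ℕ → R) {J₁ J₂ S T : Finset ℕ}
    (hd : Disjoint J₁ J₂) (hS : S ⊆ J₁) (hT : T ⊆ J₂) :
    pr s c (J₁ ∪ J₂) (S ∪ T) = pr s c J₁ S * pr s c J₂ T := by
  have hST : Disjoint S T := Finset.disjoint_of_subset_left hS (Finset.disjoint_of_subset_right hT hd)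
  have h1 : (J₁ ∪ J₂) \ (S ∪ T) = (J₁ \ S) ∪ (J₂ \ T) := by
    ext x
    simp only [Finset.mem_sdiff, Finset.mem_union, not_or]
    constructor
    · rintro ⟨h | h, h', h''⟩
      · exact Or.inl ⟨h, h'⟩
      · exact Or.inr ⟨h, h''⟩
    · rintro (⟨h, h'⟩ | ⟨h, h'⟩)
      · exact ⟨Or.inl h, h', fun h'' => (Finset.disjoint_left.1 hd) h (hT h'')⟩
      · exact ⟨Or.inr h, fun h'' => (Finset.disjoint_left.1 hd) (hS h'') h, h'⟩
  have h2 : Disjoint (J₁ \ S) (J₂ \ T) :=
    Finset.disjoint_of_subset_left Finset.sdiff_subset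
      (Finset.disjoint_of_subset_right Finset.sdiff_subset hd)
  rw [pr, pr, pr, h1, Finset.prod_union hST, Finset.prod_union h2]
  exact mul_mul_mul_comm _ _ _ _

theorem sum_powerset_union {M : Type} [AddCommMonoid M] {J₁ J₂ : Finset ℕ} (hd : Disjoint J₁ J₂)
    (F : Finset ℕ → M) : ∑ S ∈ (J₁ ∪ J₂).powerset, F S =
      ∑ T ∈ J₂.powerset, ∑ S ∈ J₁.powerset, F (S ∪ T) := by
  rw [← Finset.sum_product']
  refine Finset.sum_nbij' (fun S => (S ∩ J₂, S ∩ J₁)) (fun p => p.2 ∪ p.1) ?_ ?_ ?_ ?_ ?_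
  · intro S _
    simp
  · rintro ⟨T, S⟩ h
    simp only [Finset.mem_product, Finset.mem_powerset] at h ⊢
    exact Finset.union_subset (h.2.trans Finset.subset_union_left)
      (h.1.trans Finset.subset_union_right)
  · intro S hS
    simp only [Finset.mem_powerset] at hS
    simp only
    rw [← Finset.inter_union_distrib_left, Finset.inter_eq_left.2 hS]
  · rintro ⟨T, S⟩ h
    simp only [Finset.mem_product, Finset.mem_powerset] at h
    obtain ⟨hT, hS⟩ := h
    have e1 : S ∩ J₂ = ∅ := Finset.disjoint_iff_inter_eq_empty.1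
      (Finset.disjoint_of_subset_left hS hd)
    have e2 : T ∩ J₁ = ∅ := Finset.disjoint_iff_inter_eq_empty.1
      (Finset.disjoint_of_subset_left hT hd.symm)
    simp only [Finset.union_inter_distrib_right, e1, e2, Finset.empty_union, Finset.union_empty,
      Finset.inter_eq_left.2 hT, Finset.inter_eq_left.2 hS]
  · intro S hS
    simp only [Finset.mem_powerset] at hS
    simp only
    rw [← Finset.inter_union_distrib_left, Finset.inter_eq_left.2 hS]

/-- evaluation of Walsh coefficients -/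
def ev (s c : ℕ → ℝ) (J : Finset ℕ) (f : Finset ℕ → ℝ) : ℝ := ∑ S ∈ J.powerset, pr s c J S * f S

/-- evaluation of complex Walsh coefficients -/
noncomputable def cev (s c : ℕ → ℝ) (J : Finset ℕ) (f : Finset ℕ → ℂ) : ℂ :=
  ∑ S ∈ J.powerset, ((pr s c J S : ℝ) : ℂ) * f S

theorem sum_pr_sq {s c : ℕ → ℝ} (h : ∀ j, s j ^ 2 + c j ^ 2 = 1) (J : Finset ℕ) :
    ∑ S ∈ J.powerset, pr s c J S ^ 2 = 1 := by
  have h1 : ∀ S ∈ J.powerset, pr s c J S ^ 2 = (∏ j ∈ S, s j ^ 2) * ∏ j ∈ J \ S, c j ^ 2 := by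
    intro S _
    rw [pr, mul_pow, ← Finset.prod_pow, ← Finset.prod_pow]
  rw [Finset.sum_congr rfl h1, ← Finset.prod_add]
  exact Finset.prod_eq_one fun j _ => h j

theorem sum_pr_sq_mem {s c : ℕ → ℝ} (h : ∀ j, s j ^ 2 + c j ^ 2 = 1) (J : Finset ℕ) (i : ℕ)
    (hi : i ∈ J) : ∑ S ∈ J.powerset, (if i ∈ S then pr s c J S ^ 2 else 0) = s i ^ 2 := by
  have h1 : ∀ S ∈ J.powerset, (if i ∈ S then pr s c J S ^ 2 else 0) =
      (∏ j ∈ S, s j ^ 2) * ∏ j ∈ J \ S, (if j = i then 0 else c j ^ 2) := by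
    intro S hS
    by_cases hiS : i ∈ S
    · rw [if_pos hiS, pr, mul_pow, ← Finset.prod_pow, ← Finset.prod_pow]
      congr 1
      refine Finset.prod_congr rfl fun j hj => ?_
      rw [if_neg]
      rintro rfl
      exact (Finset.mem_sdiff.1 hj).2 hiS
    · rw [if_neg hiS]
      have : ∏ j ∈ J \ S, (if j = i then (0:ℝ) else c j ^ 2) = 0 :=
        Finset.prod_eq_zero (i := i) (Finset.mem_sdiff.2 ⟨hi, hiS⟩) (by simp)
      rw [this, mul_zero]
  rw [Finset.sum_congr rfl h1, ← Finset.prod_add,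
    Finset.prod_eq_single_of_mem i hi (fun j _ hj => by rw [if_neg hj]; exact h j)]
  simp

theorem ev_sq_le {s c : ℕ → ℝ} (h : ∀ j, s j ^ 2 + c j ^ 2 = 1) (J : Finset ℕ)
    (f : Finset ℕ → ℝ) : ev s c J f ^ 2 ≤ ∑ S ∈ J.powerset, f S ^ 2 := by
  have h1 := Finset.sum_mul_sq_le_sq_mul_sq J.powerset (fun S => pr s c J S) f
  rw [sum_pr_sq h, one_mul] at h1
  exact h1

theorem ev_union (s c : ℕ → ℝ) {J₁ J₂ : Finset ℕ} (hd : Disjoint J₁ J₂) (f : Finset ℕ → ℝ) :
    ev s c (J₁ ∪ J₂) f = ∑ T ∈ J₂.powerset, pr s c J₂ T * ev s c J₁ (fun S => f (S ∪ T)) := by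
  rw [ev, sum_powerset_union hd]
  refine Finset.sum_congr rfl fun T hT => ?_
  rw [ev, Finset.mul_sum]
  refine Finset.sum_congr rfl fun S hS => ?_
  rw [pr_union s c hd (Finset.mem_powerset.1 hS) (Finset.mem_powerset.1 hT)]
  ring

/-- extension of a function on subsets of `J₁` to subsets of `J₁ ∪ J₂` -/
def ext (J₁ J₂ T : Finset ℕ) (h : Finset ℕ → ℝ) (S : Finset ℕ) : ℝ :=
  if S ∩ J₂ = T then h (S ∩ J₁) else 0

theorem ext_apply {J₁ J₂ : Finset ℕ} (hd : Disjoint J₁ J₂) (h : Finset ℕ → ℝ)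
    {S T T' : Finset ℕ} (hS : S ⊆ J₁) (hT : T' ⊆ J₂) :
    ext J₁ J₂ T h (S ∪ T') = if T' = T then h S else 0 := by
  have e1 : S ∩ J₂ = ∅ := Finset.disjoint_iff_inter_eq_empty.1
    (Finset.disjoint_of_subset_left hS hd)
  have e2 : T' ∩ J₁ = ∅ := Finset.disjoint_iff_inter_eq_empty.1
    (Finset.disjoint_of_subset_left hT hd.symm)
  rw [ext, Finset.union_inter_distrib_right, Finset.union_inter_distrib_right, e1, e2,
    Finset.empty_union, Finset.union_empty, Finset.inter_eq_left.2 hT, Finset.inter_eq_left.2 hS]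

theorem ev_ext (s c : ℕ → ℝ) {J₁ J₂ : Finset ℕ} (hd : Disjoint J₁ J₂) (h : Finset ℕ → ℝ)
    {T : Finset ℕ} (hT : T ⊆ J₂) :
    ev s c (J₁ ∪ J₂) (ext J₁ J₂ T h) = pr s c J₂ T * ev s c J₁ h := by
  rw [ev_union s c hd]
  have h1 : ∀ T' ∈ J₂.powerset, pr s c J₂ T' * ev s c J₁ (fun S => ext J₁ J₂ T h (S ∪ T')) =
      if T' = T then pr s c J₂ T * ev s c J₁ h else 0 := by
    intro T' hT'
    have h2 : ev s c J₁ (fun S => ext J₁ J₂ T h (S ∪ T')) =
        if T' = T then ev s c J₁ h else 0 := by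
      rw [ev]
      have h3 : ∀ S ∈ J₁.powerset, pr s c J₁ S * ext J₁ J₂ T h (S ∪ T') =
          if T' = T then pr s c J₁ S * h S else 0 := by
        intro S hS
        rw [ext_apply hd h (Finset.mem_powerset.1 hS) (Finset.mem_powerset.1 hT')]
        split_ifs <;> simp
      rw [Finset.sum_congr rfl h3]
      split_ifs with h4
      · rfl
      · simp
    rw [h2]
    split_ifs with h4
    · rw [h4]
    · simp
  rw [Finset.sum_congr rfl h1, Finset.sum_ite_eq' _ T, if_pos (Finset.mem_powerset.2 hT)]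

theorem ev_sq_eq_sum_ext {s c : ℕ → ℝ} (hsc : ∀ j, s j ^ 2 + c j ^ 2 = 1) {J₁ J₂ : Finset ℕ}
    (hd : Disjoint J₁ J₂) (h : Finset ℕ → ℝ) :
    ev s c J₁ h ^ 2 = ∑ T ∈ J₂.powerset, ev s c (J₁ ∪ J₂) (ext J₁ J₂ T h) ^ 2 := by
  have h1 : ∀ T ∈ J₂.powerset, ev s c (J₁ ∪ J₂) (ext J₁ J₂ T h) ^ 2 =
      pr s c J₂ T ^ 2 * ev s c J₁ h ^ 2 := by
    intro T hT
    rw [ev_ext s c hd h (Finset.mem_powerset.1 hT), mul_pow]
  rw [Finset.sum_congr rfl h1, ← Finset.sum_mul, sum_pr_sq hsc, one_mul]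

theorem sum_ext_sq {J₁ J₂ : Finset ℕ} (hd : Disjoint J₁ J₂) (h : Finset ℕ → ℝ)
    {T : Finset ℕ} (hT : T ⊆ J₂) :
    ∑ S ∈ (J₁ ∪ J₂).powerset, ext J₁ J₂ T h S ^ 2 = ∑ S ∈ J₁.powerset, h S ^ 2 := by
  rw [sum_powerset_union hd]
  have h1 : ∀ T' ∈ J₂.powerset, ∑ S ∈ J₁.powerset, ext J₁ J₂ T h (S ∪ T') ^ 2 =
      if T' = T then ∑ S ∈ J₁.powerset, h S ^ 2 else 0 := by
    intro T' hT'
    have h3 : ∀ S ∈ J₁.powerset, ext J₁ J₂ T h (S ∪ T') ^ 2 = if T' = T then h S ^ 2 else 0 := by
      intro S hS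
      rw [ext_apply hd h (Finset.mem_powerset.1 hS) (Finset.mem_powerset.1 hT')]
      split_ifs <;> simp
    rw [Finset.sum_congr rfl h3]
    split_ifs with h4
    · rfl
    · simp
  rw [Finset.sum_congr rfl h1, Finset.sum_ite_eq' _ T, if_pos (Finset.mem_powerset.2 hT)]

/-! ### unitarity of the Walsh transform -/

/-- the character -/
noncomputable def chr (θ : ℕ → ℝ) (J a : Finset ℕ) : ℂ :=
  pr (fun j => Complex.exp (-(θ j * Complex.I))) (fun j => Complex.exp (θ j * Complex.I)) J a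

theorem cev_insert (s c : ℕ → ℝ) {J : Finset ℕ} {k : ℕ} (hk : k ∉ J) (f : Finset ℕ → ℂ) :
    cev s c (insert k J) f = c k * cev s c J f + s k * cev s c J (fun S => f (insert k S)) := by
  rw [cev, Finset.sum_powerset_insert hk, cev, cev, Finset.mul_sum, Finset.mul_sum]
  congr 1
  · refine Finset.sum_congr rfl fun S hS => ?_
    rw [pr_insert_left s c hk (Finset.mem_powerset.1 hS)]
    push_cast
    ring
  · refine Finset.sum_congr rfl fun S hS => ?_
    rw [pr_insert_insert s c hk (Finset.mem_powerset.1 hS)]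
    push_cast
    ring

theorem walsh_to_digit (N : ℕ) : ∀ f : Finset ℕ → ℂ, ∃ g : Finset ℕ → ℂ,
    ∑ a ∈ (range N).powerset, ‖g a‖ ^ 2 = ∑ S ∈ (range N).powerset, ‖f S‖ ^ 2 ∧
    ∀ θ : ℕ → ℝ, ∑ a ∈ (range N).powerset, g a * chr θ (range N) a =
      (√2 : ℂ) ^ N * cev (fun j => Real.sin (θ j)) (fun j => Real.cos (θ j)) (range N) f := by
  induction N with
  | zero =>
    intro f
    refine ⟨f, rfl, fun θ => ?_⟩
    simp [cev, chr, pr]
  | succ N ih =>
    intro f
    obtain ⟨g₀, hg₀, hg₀'⟩ := ih f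
    obtain ⟨g₁, hg₁, hg₁'⟩ := ih (fun S => f (insert N S))
    have hN : N ∉ range N := Finset.notMem_range_self
    have h2 : ((√2 : ℝ) : ℂ) * ((√2 : ℝ) : ℂ) = 2 := by
      rw [← Complex.ofReal_mul, Real.mul_self_sqrt (by norm_num)]
      norm_num
    have h2' : ((√2 : ℝ) : ℂ) ≠ 0 := by
      intro h
      rw [h] at h2
      norm_num at h2
    refine ⟨fun a => if N ∈ a then (g₀ (a.erase N) + Complex.I * g₁ (a.erase N)) / √2
      else (g₀ a - Complex.I * g₁ a) / √2, ?_, fun θ => ?_⟩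
    · rw [Finset.range_add_one, Finset.sum_powerset_insert hN, Finset.sum_powerset_insert hN,
        ← hg₀, ← hg₁, ← Finset.sum_add_distrib, ← Finset.sum_add_distrib]
      refine Finset.sum_congr rfl fun a ha => ?_
      have hNa : N ∉ a := fun h => hN (Finset.mem_powerset.1 ha h)
      beta_reduce
      rw [if_neg hNa, if_pos (Finset.mem_insert_self N a), Finset.erase_insert hNa]
      have e1 : ‖((√2 : ℝ) : ℂ)‖ ^ 2 = 2 := by
        rw [Complex.norm_real, Real.norm_eq_abs, sq_abs, Real.sq_sqrt (by norm_num)]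
      rw [norm_div, norm_div, div_pow, div_pow, e1]
      have e2 : ∀ z w : ℂ, ‖z - Complex.I * w‖ ^ 2 + ‖z + Complex.I * w‖ ^ 2 =
          2 * (‖z‖ ^ 2 + ‖w‖ ^ 2) := by
        intro z w
        have h := parallelogram_law_with_norm ℝ z (Complex.I * w)
        rw [norm_mul, Complex.norm_I, one_mul] at h
        nlinarith [h]
      have e3 := e2 (g₀ a) (g₁ a)
      linarith
    · have hcev : cev (fun j => Real.sin (θ j)) (fun j => Real.cos (θ j)) (range (N + 1)) f =
          Real.cos (θ N) * cev (fun j => Real.sin (θ j)) (fun j => Real.cos (θ j)) (range N) f +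
          Real.sin (θ N) * cev (fun j => Real.sin (θ j)) (fun j => Real.cos (θ j)) (range N)
            (fun S => f (insert N S)) := by
        rw [Finset.range_add_one]
        exact cev_insert _ _ hN f
      rw [hcev, Finset.range_add_one, Finset.sum_powerset_insert hN]
      have e1 : ∑ a ∈ (range N).powerset, (if N ∈ a then
          (g₀ (a.erase N) + Complex.I * g₁ (a.erase N)) / √2 else (g₀ a - Complex.I * g₁ a) / √2) *
          chr θ (insert N (range N)) a = (∑ a ∈ (range N).powerset, g₀ a * chr θ (range N) a -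
            Complex.I * ∑ a ∈ (range N).powerset, g₁ a * chr θ (range N) a) / √2 *
              Complex.exp (θ N * Complex.I) := by
        rw [Finset.mul_sum, ← Finset.sum_sub_distrib, Finset.sum_div, Finset.sum_mul]
        refine Finset.sum_congr rfl fun a ha => ?_
        have hNa : N ∉ a := fun h => hN (Finset.mem_powerset.1 ha h)
        rw [if_neg hNa, chr, pr_insert_left _ _ hN (Finset.mem_powerset.1 ha), ← chr]
        ring
      have e2 : ∑ a ∈ (range N).powerset, (if N ∈ insert N a then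
          (g₀ ((insert N a).erase N) + Complex.I * g₁ ((insert N a).erase N)) / √2 else
            (g₀ (insert N a) - Complex.I * g₁ (insert N a)) / √2) *
          chr θ (insert N (range N)) (insert N a) =
          (∑ a ∈ (range N).powerset, g₀ a * chr θ (range N) a +
            Complex.I * ∑ a ∈ (range N).powerset, g₁ a * chr θ (range N) a) / √2 *
              Complex.exp (-(θ N * Complex.I)) := by
        rw [Finset.mul_sum, ← Finset.sum_add_distrib, Finset.sum_div, Finset.sum_mul]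
        refine Finset.sum_congr rfl fun a ha => ?_
        have hNa : N ∉ a := fun h => hN (Finset.mem_powerset.1 ha h)
        rw [if_pos (Finset.mem_insert_self N a), Finset.erase_insert hNa, chr,
          pr_insert_insert _ _ hN (Finset.mem_powerset.1 ha), ← chr]
        ring
      rw [e1, e2, hg₀' θ, hg₁' θ]
      have e3 : Complex.exp (θ N * Complex.I) = Real.cos (θ N) + Real.sin (θ N) * Complex.I := by
        rw [Complex.exp_mul_I, Complex.ofReal_cos, Complex.ofReal_sin]
      have e4 : Complex.exp (-(θ N * Complex.I)) = Real.cos (θ N) - Real.sin (θ N) * Complex.I := by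
        rw [← neg_mul, Complex.exp_mul_I, Complex.cos_neg, Complex.sin_neg, Complex.ofReal_cos,
          Complex.ofReal_sin]
        ring
      rw [e3, e4]
      set X := cev (fun j => Real.sin (θ j)) (fun j => Real.cos (θ j)) (range N) f
      set Y := cev (fun j => Real.sin (θ j)) (fun j => Real.cos (θ j)) (range N)
        (fun S => f (insert N S))
      have hI : Complex.I * Complex.I = -1 := Complex.I_mul_I
      field_simp
      linear_combination (-(2:ℂ) * (Real.sin (θ N)) * (√2:ℂ)^N * Y) * hI -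
        ((√2:ℂ)^N * (Real.cos (θ N) * X + Real.sin (θ N) * Y)) * h2

theorem digit_to_walsh (N : ℕ) : ∀ g : Finset ℕ → ℂ, ∃ f : Finset ℕ → ℂ,
    ∑ a ∈ (range N).powerset, ‖g a‖ ^ 2 = ∑ S ∈ (range N).powerset, ‖f S‖ ^ 2 ∧
    ∀ θ : ℕ → ℝ, ∑ a ∈ (range N).powerset, g a * chr θ (range N) a =
      (√2 : ℂ) ^ N * cev (fun j => Real.sin (θ j)) (fun j => Real.cos (θ j)) (range N) f := by
  induction N with
  | zero =>
    intro g
    refine ⟨g, rfl, fun θ => ?_⟩
    simp [cev, chr, pr]
  | succ N ih =>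
    intro g
    obtain ⟨f₀, hf₀, hf₀'⟩ := ih (fun a => (g (insert N a) + g a) / √2)
    obtain ⟨f₁, hf₁, hf₁'⟩ := ih (fun a => (g (insert N a) - g a) / (√2 * Complex.I))
    have hN : N ∉ range N := Finset.notMem_range_self
    have h2 : ((√2 : ℝ) : ℂ) * ((√2 : ℝ) : ℂ) = 2 := by
      rw [← Complex.ofReal_mul, Real.mul_self_sqrt (by norm_num)]
      norm_num
    have h2' : ((√2 : ℝ) : ℂ) ≠ 0 := by
      intro h
      rw [h] at h2
      norm_num at h2
    refine ⟨fun S => if N ∈ S then f₁ (S.erase N) else f₀ S, ?_, fun θ => ?_⟩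
    · rw [Finset.range_add_one, Finset.sum_powerset_insert hN, Finset.sum_powerset_insert hN]
      have e0 : ∑ S ∈ (range N).powerset, ‖(if N ∈ S then f₁ (S.erase N) else f₀ S)‖ ^ 2 =
          ∑ S ∈ (range N).powerset, ‖f₀ S‖ ^ 2 := by
        refine Finset.sum_congr rfl fun a ha => ?_
        rw [if_neg (fun h => hN (Finset.mem_powerset.1 ha h))]
      have e1 : ∑ S ∈ (range N).powerset,
          ‖(if N ∈ insert N S then f₁ ((insert N S).erase N) else f₀ (insert N S))‖ ^ 2 =
          ∑ S ∈ (range N).powerset, ‖f₁ S‖ ^ 2 := by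
        refine Finset.sum_congr rfl fun a ha => ?_
        rw [if_pos (Finset.mem_insert_self N a),
          Finset.erase_insert (fun h => hN (Finset.mem_powerset.1 ha h))]
      rw [e0, e1, ← hf₀, ← hf₁, ← Finset.sum_add_distrib, ← Finset.sum_add_distrib]
      refine Finset.sum_congr rfl fun a ha => ?_
      have e1 : ‖((√2 : ℝ) : ℂ)‖ ^ 2 = 2 := by
        rw [Complex.norm_real, Real.norm_eq_abs, sq_abs, Real.sq_sqrt (by norm_num)]
      rw [norm_div, norm_div, norm_mul, Complex.norm_I, mul_one, div_pow, div_pow, e1]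
      have h := parallelogram_law_with_norm ℝ (g (insert N a)) (g a)
      nlinarith [h]
    · have hcev : cev (fun j => Real.sin (θ j)) (fun j => Real.cos (θ j)) (range (N + 1))
          (fun S => if N ∈ S then f₁ (S.erase N) else f₀ S) =
          Real.cos (θ N) * cev (fun j => Real.sin (θ j)) (fun j => Real.cos (θ j)) (range N) f₀ +
          Real.sin (θ N) * cev (fun j => Real.sin (θ j)) (fun j => Real.cos (θ j)) (range N)
            f₁ := by
        rw [Finset.range_add_one, cev_insert _ _ hN]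
        congr 2
        · rw [cev, cev]
          refine Finset.sum_congr rfl fun a ha => ?_
          rw [if_neg (fun h => hN (Finset.mem_powerset.1 ha h))]
        · rw [cev, cev]
          refine Finset.sum_congr rfl fun a ha => ?_
          rw [if_pos (Finset.mem_insert_self N a),
            Finset.erase_insert (fun h => hN (Finset.mem_powerset.1 ha h))]
      rw [hcev, Finset.range_add_one, Finset.sum_powerset_insert hN]
      have e1 : ∑ a ∈ (range N).powerset, g a * chr θ (insert N (range N)) a =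
          (∑ a ∈ (range N).powerset, g a * chr θ (range N) a) *
              Complex.exp (θ N * Complex.I) := by
        rw [Finset.sum_mul]
        refine Finset.sum_congr rfl fun a ha => ?_
        rw [chr, pr_insert_left _ _ hN (Finset.mem_powerset.1 ha), ← chr]
        ring
      have e2 : ∑ a ∈ (range N).powerset, g (insert N a) *
          chr θ (insert N (range N)) (insert N a) =
          (∑ a ∈ (range N).powerset, g (insert N a) * chr θ (range N) a) *
              Complex.exp (-(θ N * Complex.I)) := by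
        rw [Finset.sum_mul]
        refine Finset.sum_congr rfl fun a ha => ?_
        rw [chr, pr_insert_insert _ _ hN (Finset.mem_powerset.1 ha), ← chr]
        ring
      have e3 : Complex.exp (θ N * Complex.I) = Real.cos (θ N) + Real.sin (θ N) * Complex.I := by
        rw [Complex.exp_mul_I, Complex.ofReal_cos, Complex.ofReal_sin]
      have e4 : Complex.exp (-(θ N * Complex.I)) = Real.cos (θ N) - Real.sin (θ N) * Complex.I := by
        rw [← neg_mul, Complex.exp_mul_I, Complex.cos_neg, Complex.sin_neg, Complex.ofReal_cos,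
          Complex.ofReal_sin]
        ring
      have e5 : ∑ a ∈ (range N).powerset, (g (insert N a) + g a) / √2 * chr θ (range N) a =
          (∑ a ∈ (range N).powerset, g (insert N a) * chr θ (range N) a +
            ∑ a ∈ (range N).powerset, g a * chr θ (range N) a) / √2 := by
        rw [← Finset.sum_add_distrib, Finset.sum_div]
        refine Finset.sum_congr rfl fun a ha => ?_
        ring
      have e6 : ∑ a ∈ (range N).powerset, (g (insert N a) - g a) / (√2 * Complex.I) *
          chr θ (range N) a =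
          (∑ a ∈ (range N).powerset, g (insert N a) * chr θ (range N) a -
            ∑ a ∈ (range N).powerset, g a * chr θ (range N) a) / (√2 * Complex.I) := by
        rw [← Finset.sum_sub_distrib, Finset.sum_div]
        refine Finset.sum_congr rfl fun a ha => ?_
        ring
      have h₀ := hf₀' θ
      have h₁ := hf₁' θ
      rw [e5] at h₀
      rw [e6] at h₁
      rw [e1, e2, e3, e4]
      set X := cev (fun j => Real.sin (θ j)) (fun j => Real.cos (θ j)) (range N) f₀
      set Y := cev (fun j => Real.sin (θ j)) (fun j => Real.cos (θ j)) (range N) f₁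
      set P := ∑ a ∈ (range N).powerset, g (insert N a) * chr θ (range N) a
      set Q := ∑ a ∈ (range N).powerset, g a * chr θ (range N) a
      have hI : Complex.I * Complex.I = -1 := Complex.I_mul_I
      have k1 : P + Q = (√2:ℂ) * ((√2:ℂ) ^ N * X) := by
        rw [← h₀]; field_simp
      have k2 : P - Q = (√2:ℂ) * Complex.I * ((√2:ℂ) ^ N * Y) := by
        rw [← h₁]
        have := Complex.I_ne_zero
        field_simp
      rw [pow_succ]
      linear_combination (Real.cos (θ N) : ℂ) * k1 - (Real.sin (θ N) : ℂ) * Complex.I * k2 -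
        (Real.sin (θ N) : ℂ) * (√2:ℂ) * ((√2:ℂ) ^ N * Y) * hI

/-! ### digit sums -/

/-- the digit sum -/
noncomputable def xs (ρ : ℝ) (a : Finset ℕ) : ℝ := ∑ j ∈ a, ρ ^ j

theorem xs_insert (ρ : ℝ) {a : Finset ℕ} {k : ℕ} (hk : k ∉ a) :
    xs ρ (insert k a) = ρ ^ k + xs ρ a := Finset.sum_insert hk

theorem sep {ρ : ℝ} (h0 : 0 < ρ) (h1 : ρ ≤ 1/3) (N : ℕ) : ∀ a ∈ (range N).powerset,
    ∀ b ∈ (range N).powerset, a ≠ b → ρ ^ N ≤ 2 * ρ * |xs ρ a - xs ρ b| := by
  induction N with
  | zero =>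
    intro a ha b hb hab
    simp only [Finset.range_zero, Finset.powerset_empty, Finset.mem_singleton] at ha hb
    exact absurd (ha.trans hb.symm) hab
  | succ N ih =>
    have hN : N ∉ range N := Finset.notMem_range_self
    have hρN : 0 < ρ ^ N := pow_pos h0 N
    -- a general form: digit `κ ∈ {0,1}`
    have key : ∀ a ∈ (range N).powerset, ∀ b ∈ (range N).powerset, ∀ κ : ℝ, |κ| ≤ 1 →
        (a = b → |κ| = 1) → ρ ^ (N + 1) ≤ 2 * ρ * |xs ρ a - xs ρ b + κ * ρ ^ N| := by
      intro a ha b hb κ hκ hκ'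
      by_cases hab : a = b
      · rw [hab, sub_self, zero_add, abs_mul, hκ' hab, one_mul, abs_of_pos hρN, pow_succ]
        nlinarith [mul_pos hρN h0]
      · have h2 := ih a ha b hb hab
        have h3 : |xs ρ a - xs ρ b| - ρ ^ N ≤ |xs ρ a - xs ρ b + κ * ρ ^ N| := by
          have h4 : |κ * ρ ^ N| ≤ ρ ^ N := by
            rw [abs_mul, abs_of_pos hρN]
            nlinarith
          have h5 := abs_sub_abs_le_abs_sub (xs ρ a - xs ρ b) (-(κ * ρ ^ N))
          rw [abs_neg, sub_neg_eq_add] at h5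
          linarith
        rw [pow_succ]
        nlinarith [mul_pos hρN h0]
    intro a ha b hb hab
    rw [Finset.range_add_one] at ha hb
    have hsplit : ∀ c ∈ (insert N (range N)).powerset, ∃ c' ∈ (range N).powerset,
        (c = c' ∧ xs ρ c = xs ρ c') ∨ (c = insert N c' ∧ xs ρ c = xs ρ c' + ρ ^ N) := by
      intro c hc
      rw [Finset.powerset_insert, Finset.mem_union, Finset.mem_image] at hc
      rcases hc with hc | ⟨c', hc', rfl⟩
      · exact ⟨c, hc, Or.inl ⟨rfl, rfl⟩⟩
      · refine ⟨c', hc', Or.inr ⟨rfl, ?_⟩⟩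
        rw [xs_insert ρ (fun h => hN (Finset.mem_powerset.1 hc' h))]
        ring
    obtain ⟨a', ha', ha2⟩ := hsplit a ha
    obtain ⟨b', hb', hb2⟩ := hsplit b hb
    rcases ha2 with ⟨ha2, ha3⟩ | ⟨ha2, ha3⟩ <;> rcases hb2 with ⟨hb2, hb3⟩ | ⟨hb2, hb3⟩
    · have := key a' ha' b' hb' 0 (by simp) (fun h => absurd (by rw [ha2, hb2, h]) hab)
      rw [ha3, hb3]
      simpa using this
    · have := key a' ha' b' hb' (-1) (by simp) (fun h => by simp)
      rw [ha3, hb3]
      have e : xs ρ a' - (xs ρ b' + ρ ^ N) = xs ρ a' - xs ρ b' + -1 * ρ ^ N := by ring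
      rw [e]
      exact this
    · have := key a' ha' b' hb' 1 (by simp) (fun h => by simp)
      rw [ha3, hb3]
      have e : xs ρ a' + ρ ^ N - xs ρ b' = xs ρ a' - xs ρ b' + 1 * ρ ^ N := by ring
      rw [e]
      exact this
    · have := key a' ha' b' hb' 0 (by simp) (fun h => absurd (by rw [ha2, hb2, h]) hab)
      rw [ha3, hb3]
      have e : xs ρ a' + ρ ^ N - (xs ρ b' + ρ ^ N) = xs ρ a' - xs ρ b' + 0 * ρ ^ N := by ring
      rw [e]
      exact this

theorem rowsum {ρ : ℝ} (h0 : 0 < ρ) (h1 : ρ ≤ 1/100) (N : ℕ) : ∀ a ∈ (range N).powerset,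
    ρ ^ (2 * N) * ∑ b ∈ (range N).powerset, ((xs ρ a - xs ρ b) ^ 2)⁻¹ ≤ 11/10 * ρ ^ 2 := by
  induction N with
  | zero =>
    intro a ha
    simp only [Finset.range_zero, Finset.powerset_empty, Finset.mem_singleton] at ha
    subst ha
    simp [xs]
    positivity
  | succ N ih =>
    have hN : N ∉ range N := Finset.notMem_range_self
    have hρN : 0 < ρ ^ N := pow_pos h0 N
    have hterm : ∀ a ∈ (range N).powerset, ∀ b ∈ (range N).powerset, ∀ κ : ℝ, |κ| ≤ 1 →
        ((xs ρ a - xs ρ b + κ * ρ ^ N) ^ 2)⁻¹ ≤ 21/20 * ((xs ρ a - xs ρ b) ^ 2)⁻¹ +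
          (if a = b then ((κ * ρ ^ N) ^ 2)⁻¹ else 0) := by
      intro a ha b hb κ hκ
      by_cases hab : a = b
      · rw [hab, if_pos rfl]
        simp
      · rw [if_neg hab, add_zero]
        have h2 := sep h0 (by linarith) N a ha b hb hab
        set D := xs ρ a - xs ρ b
        have hD : 0 < |D| := by
          by_contra h
          have : |D| = 0 := le_antisymm (not_lt.1 h) (abs_nonneg _)
          rw [this] at h2
          linarith
        have h3 : 49/50 * |D| ≤ |D + κ * ρ ^ N| := by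
          have h4 : |κ * ρ ^ N| ≤ ρ ^ N := by
            rw [abs_mul, abs_of_pos hρN]
            nlinarith
          have h5 := abs_sub_abs_le_abs_sub D (-(κ * ρ ^ N))
          rw [abs_neg, sub_neg_eq_add] at h5
          nlinarith
        have h6 : (49/50 * |D|) ^ 2 ≤ (D + κ * ρ ^ N) ^ 2 := by
          rw [← sq_abs (D + κ * ρ ^ N)]
          exact pow_le_pow_left₀ (by positivity) h3 2
        rw [mul_pow, sq_abs] at h6
        have hD2 : 0 < D ^ 2 := by rw [← sq_abs]; positivity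
        have h7 : ((D + κ * ρ ^ N) ^ 2)⁻¹ ≤ ((49 / 50) ^ 2 * D ^ 2)⁻¹ :=
          inv_anti₀ (by positivity) h6
        rw [mul_inv] at h7
        have h8 : 0 < (D ^ 2)⁻¹ := by positivity
        nlinarith
    have key : ∀ a ∈ (range N).powerset, ∀ κ : ℝ, (κ = 0 ∨ κ = 1) →
        ∑ b ∈ (range N).powerset, (((xs ρ a - xs ρ b + κ * ρ ^ N) ^ 2)⁻¹ +
          ((xs ρ a - xs ρ b + (κ - 1) * ρ ^ N) ^ 2)⁻¹) ≤
        21/10 * ∑ b ∈ (range N).powerset, ((xs ρ a - xs ρ b) ^ 2)⁻¹ + ((ρ ^ N) ^ 2)⁻¹ := by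
      intro a ha κ hκ
      have h3 : ∀ b ∈ (range N).powerset, (((xs ρ a - xs ρ b + κ * ρ ^ N) ^ 2)⁻¹ +
          ((xs ρ a - xs ρ b + (κ - 1) * ρ ^ N) ^ 2)⁻¹) ≤ 21/10 * ((xs ρ a - xs ρ b) ^ 2)⁻¹ +
          (if a = b then ((ρ ^ N) ^ 2)⁻¹ else 0) := by
        intro b hb
        have e1 := hterm a ha b hb κ (by rcases hκ with h | h <;> rw [h] <;> simp)
        have e2 := hterm a ha b hb (κ - 1) (by rcases hκ with h | h <;> rw [h] <;> simp)
        have e3 : (if a = b then ((κ * ρ ^ N) ^ 2)⁻¹ else 0) +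
            (if a = b then (((κ - 1) * ρ ^ N) ^ 2)⁻¹ else 0) =
            (if a = b then ((ρ ^ N) ^ 2)⁻¹ else 0) := by
          rcases hκ with h | h <;> rw [h] <;> split_ifs <;> simp
        linarith
      refine (Finset.sum_le_sum h3).trans (le_of_eq ?_)
      rw [Finset.sum_add_distrib, ← Finset.mul_sum, Finset.sum_ite_eq _ a, if_pos ha]
    have hfinal : ∀ a ∈ (range N).powerset, ∀ κ : ℝ, (κ = 0 ∨ κ = 1) →
        ρ ^ (2 * (N + 1)) *
        ∑ b ∈ (range N).powerset, (((xs ρ a - xs ρ b + κ * ρ ^ N) ^ 2)⁻¹ +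
          ((xs ρ a - xs ρ b + (κ - 1) * ρ ^ N) ^ 2)⁻¹) ≤ 11/10 * ρ ^ 2 := by
      intro a ha κ hκ
      have h3 := key a ha κ hκ
      have h4 := ih a ha
      have h5 : ρ ^ (2 * (N + 1)) = ρ ^ 2 * ρ ^ (2 * N) := by ring
      have h6 : ρ ^ (2 * N) * ((ρ ^ N) ^ 2)⁻¹ = 1 := by
        rw [← pow_mul, mul_comm N 2]
        exact mul_inv_cancel₀ (pow_pos h0 _).ne'
      have h7 : 0 < ρ ^ 2 * ρ ^ (2 * N) := by positivity
      calc ρ ^ (2 * (N + 1)) * _ ≤ ρ ^ (2 * (N + 1)) * (21/10 *
            ∑ b ∈ (range N).powerset, ((xs ρ a - xs ρ b) ^ 2)⁻¹ + ((ρ ^ N) ^ 2)⁻¹) := by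
            rw [h5]
            exact mul_le_mul_of_nonneg_left h3 h7.le
        _ = ρ ^ 2 * (21/10 * (ρ ^ (2 * N) * ∑ b ∈ (range N).powerset, ((xs ρ a - xs ρ b) ^ 2)⁻¹)
              + ρ ^ (2 * N) * ((ρ ^ N) ^ 2)⁻¹) := by rw [h5]; ring
        _ ≤ ρ ^ 2 * (21/10 * (11/10 * ρ ^ 2) + 1) := by
            rw [h6]
            apply mul_le_mul_of_nonneg_left _ (by positivity)
            linarith
        _ ≤ _ := by
            have h8 : ρ ^ 2 ≤ 1 / 10000 := by nlinarith
            have h9 : 0 < ρ ^ 2 := by positivity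
            nlinarith
    intro a ha
    rw [Finset.range_add_one] at ha ⊢
    rw [Finset.sum_powerset_insert hN, ← Finset.sum_add_distrib]
    rw [Finset.powerset_insert, Finset.mem_union, Finset.mem_image] at ha
    rcases ha with ha | ⟨a', ha', rfl⟩
    · have h3 := hfinal a ha 0 (Or.inl rfl)
      refine le_trans (le_of_eq ?_) h3
      congr 1
      refine Finset.sum_congr rfl fun b hb => ?_
      rw [xs_insert ρ (fun h => hN (Finset.mem_powerset.1 hb h))]
      congr 2 <;> ring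
    · have h3 := hfinal a' ha' 1 (Or.inr rfl)
      refine le_trans (le_of_eq ?_) h3
      congr 1
      refine Finset.sum_congr rfl fun b hb => ?_
      rw [xs_insert ρ (fun h => hN (Finset.mem_powerset.1 hb h)),
        xs_insert ρ (fun h => hN (Finset.mem_powerset.1 ha' h))]
      congr 2 <;> ring

end Pool.Agent.Helper27.FF
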