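import Mathlib

set_option autoImplicit false

open Finset

namespace Pool.Agent.Helper27.FF

/-- the digit `-1, 0, 1` -/
noncomputable def dig (e : Fin 3) : ℝ := ((e : ℕ) : ℝ) - 1

/-- the value of a signed digit expansion -/
noncomputable def val (ρ : ℝ) (ε : ℕ → Fin 3) : ℝ := ∑' j, dig (ε j) * ρ ^ j

theorem abs_dig_le (e : Fin 3) : |dig e| ≤ 1 := by
  fin_cases e <;> simp [dig] <;> norm_num

theorem abs_dig_sub_le (e e' : Fin 3) : |dig e - dig e'| ≤ 2 := by
  have h1 := abs_le.1 (abs_dig_le e)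
  have h2 := abs_le.1 (abs_dig_le e')
  rw [abs_le]
  constructor <;> linarith [h1.1, h1.2, h2.1, h2.2]

theorem one_le_abs_dig_sub {e e' : Fin 3} (h : e ≠ e') : 1 ≤ |dig e - dig e'| := by
  fin_cases e <;> fin_cases e' <;> simp [dig] at h ⊢ <;> norm_num

theorem summable_bdd_mul_pow {ρ : ℝ} (h0 : 0 ≤ ρ) (h1 : ρ < 1) {c : ℕ → ℝ} {C : ℝ}
    (hc : ∀ j, |c j| ≤ C) : Summable (fun j => c j * ρ ^ j) := by
  refine Summable.of_norm_bounded (g := fun j => C * ρ ^ j)
    ((summable_geometric_of_lt_one h0 h1).mul_left C) fun j => ?_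
  rw [Real.norm_eq_abs, abs_mul, abs_of_nonneg (pow_nonneg h0 j)]
  exact mul_le_mul_of_nonneg_right (hc j) (pow_nonneg h0 j)

theorem abs_tsum_bdd_le {ρ : ℝ} (h0 : 0 ≤ ρ) (h1 : ρ < 1) {c : ℕ → ℝ} {C : ℝ}
    (hc : ∀ j, |c j| ≤ C) : |∑' j, c j * ρ ^ j| ≤ C / (1 - ρ) := by
  have hs : Summable (fun j => C * ρ ^ j) := (summable_geometric_of_lt_one h0 h1).mul_left C
  have h := tsum_of_norm_bounded (f := fun j => c j * ρ ^ j) (g := fun j => C * ρ ^ j) hs.hasSum
    (fun j => by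
      rw [Real.norm_eq_abs, abs_mul, abs_of_nonneg (pow_nonneg h0 j)]
      exact mul_le_mul_of_nonneg_right (hc j) (pow_nonneg h0 j))
  rw [tsum_mul_left, tsum_geometric_of_lt_one h0 h1] at h
  rw [div_eq_mul_inv]
  exact h

theorem continuousOn_val :
    ContinuousOn (fun p : ℝ × (ℕ → Fin 3) => val p.1 p.2) (Set.Icc 0 (1/2) ×ˢ Set.univ) := by
  unfold val
  refine continuousOn_tsum (u := fun j => (1/2:ℝ) ^ j) (fun j => ?_)
    (summable_geometric_of_lt_one (by norm_num) (by norm_num)) (fun j p hp => ?_)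
  · refine Continuous.continuousOn ?_
    have h1 : Continuous (fun p : ℝ × (ℕ → Fin 3) => dig (p.2 j)) :=
      (continuous_of_discreteTopology (f := dig)).comp
        ((continuous_apply j).comp continuous_snd)
    exact h1.mul (continuous_fst.pow j)
  · obtain ⟨⟨h0, h1⟩, -⟩ := hp
    rw [Real.norm_eq_abs, abs_mul, abs_of_nonneg (pow_nonneg h0 j)]
    calc |dig (p.2 j)| * p.1 ^ j ≤ 1 * (1/2) ^ j :=
          mul_le_mul (abs_dig_le _) (pow_le_pow_left₀ h0 h1 j) (pow_nonneg h0 j) zero_le_one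
      _ = _ := one_mul _

theorem val_injective {ρ : ℝ} (h0 : 0 < ρ) (h1 : ρ < 1/3) {ε ε' : ℕ → Fin 3}
    (h : val ρ ε = val ρ ε') : ε = ε' := by
  by_contra hne
  have hex : ∃ j, ε j ≠ ε' j := by
    by_contra hcon
    push Not at hcon
    exact hne (funext hcon)
  classical
  set k := Nat.find hex with hk
  have hk1 : ε k ≠ ε' k := Nat.find_spec hex
  have hk2 : ∀ j < k, ε j = ε' j := fun j hj => by
    by_contra h'
    exact Nat.find_min hex hj h'
  set d : ℕ → ℝ := fun j => dig (ε j) - dig (ε' j) with hd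
  have hd2 : ∀ j, |d j| ≤ 2 := fun j => abs_dig_sub_le _ _
  have hsum : Summable (fun j => d j * ρ ^ j) := summable_bdd_mul_pow h0.le (by linarith) hd2
  have hz : ∑' j, d j * ρ ^ j = 0 := by
    have e1 : ∑' j, d j * ρ ^ j = val ρ ε - val ρ ε' := by
      rw [val, val, ← Summable.tsum_sub
        (summable_bdd_mul_pow h0.le (by linarith) fun j => abs_dig_le _)
        (summable_bdd_mul_pow h0.le (by linarith) fun j => abs_dig_le _)]
      refine tsum_congr fun j => ?_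
      simp only [hd]
      ring
    rw [e1, h, sub_self]
  have hsplit := hsum.sum_add_tsum_nat_add (k + 1)
  rw [hz, Finset.sum_range_succ] at hsplit
  have hzero : ∑ j ∈ range k, d j * ρ ^ j = 0 := by
    refine Finset.sum_eq_zero fun j hj => ?_
    simp [hd, hk2 j (Finset.mem_range.1 hj)]
  have htail : |∑' j, d (j + (k + 1)) * ρ ^ (j + (k + 1))| ≤ 2 / (1 - ρ) * ρ ^ (k + 1) := by
    have e2 : ∀ j, d (j + (k + 1)) * ρ ^ (j + (k + 1)) =
        (d (j + (k + 1)) * ρ ^ j) * ρ ^ (k + 1) := by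
      intro j
      rw [pow_add]
      ring
    rw [tsum_congr e2, tsum_mul_right, abs_mul, abs_of_nonneg (pow_nonneg h0.le (k + 1))]
    exact mul_le_mul_of_nonneg_right
      (abs_tsum_bdd_le h0.le (by linarith) fun j => hd2 _) (pow_nonneg h0.le _)
  have hdk : 1 ≤ |d k| := one_le_abs_dig_sub hk1
  have hkey : |d k| * ρ ^ k ≤ 2 / (1 - ρ) * ρ ^ (k + 1) := by
    have e3 : d k * ρ ^ k = -∑' j, d (j + (k + 1)) * ρ ^ (j + (k + 1)) := by
      rw [hzero] at hsplit
      linarith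
    calc |d k| * ρ ^ k = |d k * ρ ^ k| := by
          rw [abs_mul, abs_of_nonneg (pow_nonneg h0.le k)]
      _ = _ := by rw [e3, abs_neg]
      _ ≤ _ := htail
  have hρk : 0 < ρ ^ k := pow_pos h0 k
  have h3 : 2 / (1 - ρ) * ρ < 1 := by
    rw [div_mul_eq_mul_div, div_lt_one (by linarith)]
    linarith
  rw [pow_succ] at hkey
  nlinarith

/-- bad parameters for a polynomial `w` -/
def Bad (w : Polynomial ℤ) (s : Set (ℕ → Fin 3)) : Set ℝ :=
  {ρ | ρ ∈ Set.Icc (0:ℝ) (1/100) ∧ ∃ ε ∈ s, 2 * Polynomial.aeval ρ w = val ρ ε}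

theorem isClosed_bad (w : Polynomial ℤ) {s : Set (ℕ → Fin 3)} (hs : IsClosed s) :
    IsClosed (Bad w s) := by
  have hK : IsCompact ({p : ℝ × (ℕ → Fin 3) | p ∈ (Set.Icc (0:ℝ) (1/100) ×ˢ s) ∧
      2 * Polynomial.aeval p.1 w = val p.1 p.2}) := by
    have h1 : IsCompact (Set.Icc (0:ℝ) (1/100) ×ˢ s) := isCompact_Icc.prod hs.isCompact
    have h2 : ContinuousOn (fun p : ℝ × (ℕ → Fin 3) =>
        2 * Polynomial.aeval p.1 w - val p.1 p.2) (Set.Icc (0:ℝ) (1/100) ×ˢ s) := by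
      refine ContinuousOn.sub ?_ (continuousOn_val.mono ?_)
      · refine Continuous.continuousOn ?_
        exact continuous_const.mul ((Polynomial.continuous_aeval w).comp continuous_fst)
      · rintro ⟨x, ε⟩ ⟨⟨hx0, hx1⟩, -⟩
        exact ⟨⟨hx0, by simp only at hx1 ⊢; linarith⟩, trivial⟩
    have h3 := h2.preimage_isClosed_of_isClosed (isClosed_Icc.prod hs) isClosed_singleton
      (t := {(0:ℝ)})
    refine h1.of_isClosed_subset ?_ (fun p hp => hp.1)
    convert h3 using 1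
    ext p
    simp only [Set.mem_ofPred_eq, Set.mem_inter_iff, Set.mem_preimage, Set.mem_singleton_iff,
      sub_eq_zero]
  have h4 := (hK.image continuous_fst).isClosed
  convert h4 using 1
  ext x
  simp only [Bad, Set.mem_ofPred_eq, Set.mem_image, Prod.exists]
  constructor
  · rintro ⟨hx, ε, hε, h⟩
    exact ⟨x, ε, ⟨⟨hx, hε⟩, h⟩, rfl⟩
  · rintro ⟨y, ε, ⟨⟨hx, hε⟩, h⟩, rfl⟩
    exact ⟨hx, ε, hε, h⟩

theorem coeff_eq_zero_of_tsum_eq_zero {a b : ℝ} (ha : 0 < a) (hab : a < b) (hb : b < 1)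
    (c : ℕ → ℝ) (C : ℝ) (hc : ∀ j, |c j| ≤ C)
    (h : ∀ x ∈ Set.Ioo a b, ∑' j, c j * x ^ j = 0) : ∀ j, c j = 0 := by
  set p := FormalMultilinearSeries.ofScalars ℝ c with hp
  have hrad : (1 : ENNReal) ≤ p.radius := by
    have := p.le_radius_of_bound C (r := 1) (fun n => by
      simp only [NNReal.coe_one, one_pow, mul_one]
      rw [hp, FormalMultilinearSeries.ofScalars]
      simp only [norm_smul, ContinuousMultilinearMap.norm_mkPiAlgebraFin, mul_one]
      exact hc n)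
    simpa using this
  have hps : HasFPowerSeriesOnBall p.sum p 0 p.radius :=
    p.hasFPowerSeriesOnBall (lt_of_lt_of_le (by norm_num) hrad)
  have hsum : ∀ x, p.sum x = ∑' j, c j * x ^ j := by
    intro x
    rw [FormalMultilinearSeries.sum]
    refine tsum_congr fun j => ?_
    rw [hp, FormalMultilinearSeries.ofScalars_apply_eq, smul_eq_mul]
  have han : AnalyticOnNhd ℝ p.sum (Metric.ball (0:ℝ) 1) := by
    refine hps.analyticOnNhd.mono ?_
    intro x hx
    rw [Metric.mem_ball, dist_zero_right] at hx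
    have hx' : x ∈ Metric.eball (0:ℝ) p.radius := by
      rw [Metric.mem_eball]
      refine lt_of_lt_of_le ?_ hrad
      rw [edist_zero_right]
      have : ‖x‖ₑ = ENNReal.ofReal ‖x‖ := (ofReal_norm x).symm
      rw [this]
      exact ENNReal.ofReal_lt_one.2 hx
    exact hx'
  have hmid : (a + b) / 2 ∈ Metric.ball (0:ℝ) 1 := by
    rw [Metric.mem_ball, dist_zero_right, Real.norm_eq_abs, abs_lt]
    constructor <;> linarith
  have hev : p.sum =ᶠ[nhds ((a + b) / 2)] 0 := by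
    filter_upwards [Ioo_mem_nhds (show a < (a+b)/2 by linarith) (show (a+b)/2 < b by linarith)]
      with x hx
    rw [hsum, h x hx]
    rfl
  have hz := han.eqOn_zero_of_preconnected_of_eventuallyEq_zero
    (convex_ball (0:ℝ) 1).isPreconnected hmid hev
  have hev0 : p.sum =ᶠ[nhds 0] 0 := by
    filter_upwards [Metric.ball_mem_nhds (0:ℝ) one_pos] with x hx
    exact hz hx
  have hp0 : p = 0 := HasFPowerSeriesAt.eq_zero_of_eventually ⟨_, hps⟩ hev0
  have hc0 : c = 0 := (FormalMultilinearSeries.ofScalars_series_eq_zero ℝ).1 hp0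
  intro j
  rw [hc0]
  rfl

theorem interior_bad_eq_empty (w : Polynomial ℤ) (hw : w ≠ 0) :
    interior (Bad w Set.univ) = ∅ := by
  by_contra hne
  obtain ⟨x, hx⟩ := Set.nonempty_iff_ne_empty.2 hne
  obtain ⟨r, hr, hball⟩ := Metric.isOpen_iff.1 isOpen_interior x hx
  have hball' : Metric.ball x r ⊆ Bad w Set.univ := hball.trans interior_subset
  rw [Real.ball_eq_Ioo] at hball'
  -- the interval
  have hx0 : 0 ≤ x ∧ x ≤ 1/100 := (hball' ⟨by linarith, by linarith⟩).1
  set a := x with ha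
  obtain ⟨b, hb1, hb2⟩ : ∃ a' b' : ℝ, 0 < a' ∧ a' < b' ∧ b' < 1/3 ∧
      Set.Ioo a' b' ⊆ Bad w Set.univ := by
    refine ⟨x + r / 3, x + r / 2, by linarith, by linarith, ?_, ?_⟩
    · have h1 := (hball' (a := x + r/2) ⟨by linarith, by linarith⟩).1.2
      linarith
    · refine (Set.Ioo_subset_Ioo ?_ ?_).trans hball' <;> linarith
  obtain ⟨hb0, hbb, hb3, hsub⟩ := hb2
  -- constancy of the digits
  have hconst : ∀ x₁ ∈ Set.Ioo b hb1, ∀ x₂ ∈ Set.Ioo b hb1, ∀ ε₁ ε₂ : ℕ → Fin 3,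
      2 * Polynomial.aeval x₁ w = val x₁ ε₁ → 2 * Polynomial.aeval x₂ w = val x₂ ε₂ →
      ε₁ = ε₂ := by
    intro x₁ hx₁ x₂ hx₂ ε₁ ε₂ h₁ h₂
    by_contra hne
    obtain ⟨j, hj⟩ := Function.ne_iff.1 hne
    have hcl : IsClosed {ε : ℕ → Fin 3 | ε j = ε₁ j} :=
      isClosed_singleton.preimage (continuous_apply j)
    have hcl' : IsClosed {ε : ℕ → Fin 3 | ε j ≠ ε₁ j} := by
      have h1 : {ε : ℕ → Fin 3 | ε j ≠ ε₁ j} = (fun ε : ℕ → Fin 3 => ε j) ⁻¹' {ε₁ j}ᶜ := rfl
      rw [h1]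
      exact (isClosed_discrete _).preimage (continuous_apply j)
    have hpre : IsPreconnected (Set.Ioo b hb1) := isPreconnected_Ioo
    have h3 := (isPreconnected_closed_iff.1 hpre) _ _ (isClosed_bad w hcl) (isClosed_bad w hcl')
      (by
        intro y hy
        obtain ⟨hy1, ε, -, hε⟩ := hsub hy
        by_cases h : ε j = ε₁ j
        · exact Or.inl ⟨hy1, ε, h, hε⟩
        · exact Or.inr ⟨hy1, ε, h, hε⟩)
      ⟨x₁, hx₁, (hsub hx₁).1, ε₁, rfl, h₁⟩
      ⟨x₂, hx₂, (hsub hx₂).1, ε₂, fun h => hj h.symm, h₂⟩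
    obtain ⟨y, hy, ⟨-, e, he, hev⟩, -, e', he', hev'⟩ := h3
    have : e = e' := val_injective (hb0.trans hy.1) (hy.2.trans hb3) (hev.symm.trans hev')
    exact he' (this ▸ he)
  obtain ⟨-, ε, -, hε⟩ := hsub (a := (b + hb1) / 2) ⟨by linarith, by linarith⟩
  have hall : ∀ y ∈ Set.Ioo b hb1, 2 * Polynomial.aeval y w = val y ε := by
    intro y hy
    obtain ⟨-, ε', -, hε'⟩ := hsub hy
    have := hconst _ ⟨by linarith, by linarith⟩ y hy ε ε' hε hε'
    rw [this]
    exact hε'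
  have hcoe : ∀ j, (2 * (w.coeff j : ℝ) - dig (ε j)) = 0 := by
    obtain ⟨C, hC⟩ : ∃ C : ℝ, ∀ j, |(w.coeff j : ℝ)| ≤ C := by
      refine ⟨∑ j ∈ range (w.natDegree + 1), |(w.coeff j : ℝ)|, fun j => ?_⟩
      by_cases hj : j < w.natDegree + 1
      · exact Finset.single_le_sum (f := fun j => |(w.coeff j : ℝ)|)
          (fun i _ => abs_nonneg _) (Finset.mem_range.2 hj)
      · rw [Polynomial.coeff_eq_zero_of_natDegree_lt (by omega)]
        simp only [Int.cast_zero, abs_zero]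
        exact Finset.sum_nonneg fun i _ => abs_nonneg _
    refine coeff_eq_zero_of_tsum_eq_zero hb0 hbb (by linarith) _ (2 * C + 1) (fun j => ?_) ?_
    · have h1 := abs_le.1 (hC j)
      have h2 := abs_le.1 (abs_dig_le (ε j))
      rw [abs_le]
      constructor <;> linarith [h1.1, h1.2, h2.1, h2.2]
    · intro y hy
      have hy0 : 0 < y := hb0.trans hy.1
      have hy1 : y < 1 := by linarith [hy.2]
      have h1 : HasSum (fun j => (w.coeff j : ℝ) * y ^ j) (Polynomial.aeval y w) := by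
        rw [Polynomial.aeval_eq_sum_range]
        have h2 : ∀ j ∉ range (w.natDegree + 1), (w.coeff j : ℝ) * y ^ j = 0 := by
          intro j hj
          rw [Polynomial.coeff_eq_zero_of_natDegree_lt (by
            rw [Finset.mem_range] at hj; omega)]
          simp
        have h3 : HasSum (fun j => (w.coeff j : ℝ) * y ^ j)
            (∑ j ∈ range (w.natDegree + 1), (w.coeff j : ℝ) * y ^ j) :=
          hasSum_sum_of_ne_finset_zero h2
        convert h3 using 1
        refine Finset.sum_congr rfl fun j _ => ?_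
        simp
      have h2 := (h1.mul_left 2).sub
        (summable_bdd_mul_pow (c := fun j => dig (ε j)) hy0.le hy1 (fun j => abs_dig_le _)).hasSum
      have h3 : (fun j => (2 * (w.coeff j : ℝ) - dig (ε j)) * y ^ j) =
          fun j => 2 * ((w.coeff j : ℝ) * y ^ j) - dig (ε j) * y ^ j := by
        funext j
        ring
      rw [h3, h2.tsum_eq, hall y hy, val, sub_self]
  apply hw
  ext j
  have h1 := hcoe j
  have h2 : (2 * (w.coeff j : ℝ)) = ((2 * w.coeff j : ℤ) : ℝ) := by push_cast; ring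
  have h3 : dig (ε j) = (((ε j : ℕ) : ℤ) - 1 : ℤ) := by
    simp [dig]
  rw [h2, h3] at h1
  have h4 : (2 * w.coeff j : ℤ) = ((ε j : ℕ) : ℤ) - 1 := by
    exact_mod_cast sub_eq_zero.1 h1
  have h5 := (ε j).isLt
  rw [Polynomial.coeff_zero]
  omega

/-- genericity: no relation `2 ∑ m_l ρ^l = ∑ ε_j ρ^j` with a nonzero integer left side -/
def Gen (ρ : ℝ) : Prop :=
  ∀ (B : Finset ℕ) (m : ℕ → ℤ), (∃ l ∈ B, m l ≠ 0) → ∀ ε : ℕ → Fin 3,
    ∑ l ∈ B, 2 * (m l : ℝ) * ρ ^ l ≠ val ρ ε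

theorem exists_gen : ∃ G : Set ℝ, IsGδ G ∧ Dense G ∧
    ∀ ρ ∈ G, ρ ∈ Set.Ioo (0:ℝ) (1/100) → Gen ρ := by
  have hcount : Countable {w : Polynomial ℤ // w ≠ 0} := by
    have h : Countable (Polynomial ℤ) :=
      Countable.of_equiv (ℕ →₀ ℤ)
        ((Polynomial.toFinsuppIso ℤ).toEquiv.trans AddMonoidAlgebra.coeffEquiv).symm
    infer_instance
  refine ⟨⋂ w : {w : Polynomial ℤ // w ≠ 0}, (Bad w.1 Set.univ)ᶜ, ?_, ?_, ?_⟩
  · exact IsGδ.iInter fun w => (isClosed_bad w.1 isClosed_univ).isOpen_compl.isGδ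
  · refine dense_iInter_of_isOpen (fun w => (isClosed_bad w.1 isClosed_univ).isOpen_compl)
      (fun w => ?_)
    rw [← interior_eq_empty_iff_dense_compl]
    exact interior_bad_eq_empty w.1 w.2
  · intro ρ hρ hρI B m hm ε heq
    classical
    set w : Polynomial ℤ := ∑ l ∈ B, Polynomial.monomial l (m l) with hw
    have hw0 : w ≠ 0 := by
      obtain ⟨l, hl, hml⟩ := hm
      intro h0
      apply hml
      have : w.coeff l = m l := by
        rw [hw, Polynomial.finsetSum_coeff]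
        simp only [Polynomial.coeff_monomial]
        rw [Finset.sum_ite_eq' B l m]
        simp [hl]
      rw [← this, h0, Polynomial.coeff_zero]
    have h1 := Set.mem_iInter.1 hρ ⟨w, hw0⟩
    apply h1
    refine ⟨⟨hρI.1.le, hρI.2.le⟩, ε, trivial, ?_⟩
    show 2 * Polynomial.aeval ρ w = val ρ ε
    rw [← heq, hw, map_sum, Finset.mul_sum]
    refine Finset.sum_congr rfl fun l _ => ?_
    rw [Polynomial.aeval_monomial]
    simp
    ring

end Pool.Agent.Helper27.FF
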