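import Mathlib
import Pool.Agent.Helper27.FF.Gen
import Pool.Agent.Helper27.FF.Cube

set_option autoImplicit false

open Finset

namespace Pool.Agent.Helper27.FF

/-- `e(x) = exp(2 π i x)` -/
noncomputable def ee (x : ℝ) : ℂ := Complex.exp ((2 * Real.pi * x : ℝ) * Complex.I)

theorem ee_add (x y : ℝ) : ee (x + y) = ee x * ee y := by
  rw [ee, ee, ee, ← Complex.exp_add]
  congr 1
  push_cast
  ring

theorem ee_zero : ee 0 = 1 := by simp [ee]

theorem norm_ee (x : ℝ) : ‖ee x‖ = 1 := Complex.norm_exp_ofReal_mul_I _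

theorem conj_ee (x : ℝ) : (starRingEnd ℂ) (ee x) = ee (-x) := by
  rw [ee, ee, ← Complex.exp_conj]
  congr 1
  rw [map_mul, Complex.conj_ofReal, Complex.conj_I]
  push_cast
  ring

theorem ee_nat_mul (x : ℝ) (n : ℕ) : ee (n * x) = ee x ^ n := by
  rw [ee, ee, ← Complex.exp_nat_mul]
  congr 1
  push_cast
  ring

theorem norm_ee_sub_one (x : ℝ) (hx : |x| ≤ 1/2) : 4 * |x| ≤ ‖ee x - 1‖ := by
  have h1 : ‖ee x - 1‖ = 2 * |Real.sin (Real.pi * x)| := by
    have h2 : ee x - 1 = 2 * Complex.I * Real.sin (Real.pi * x) *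
        Complex.exp ((Real.pi * x : ℝ) * Complex.I) := by
      rw [ee, Complex.ofReal_sin, Complex.sin]
      have h3 : Complex.exp ((2 * Real.pi * x : ℝ) * Complex.I) =
          Complex.exp ((Real.pi * x : ℝ) * Complex.I) *
            Complex.exp ((Real.pi * x : ℝ) * Complex.I) := by
        rw [← Complex.exp_add]
        congr 1
        push_cast
        ring
      have h4 : Complex.exp (-(Real.pi * x : ℝ) * Complex.I) *
          Complex.exp ((Real.pi * x : ℝ) * Complex.I) = 1 := by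
        rw [← Complex.exp_add, neg_mul, neg_add_cancel, Complex.exp_zero]
      have hI : Complex.I * Complex.I = -1 := Complex.I_mul_I
      rw [h3]
      linear_combination (Complex.exp ((Real.pi * x : ℝ) * Complex.I) *
        Complex.exp ((Real.pi * x : ℝ) * Complex.I) - Complex.exp (-(Real.pi * x : ℝ) * Complex.I) *
          Complex.exp ((Real.pi * x : ℝ) * Complex.I)) * hI + h4
    rw [h2, norm_mul, norm_mul, norm_mul, Complex.norm_exp_ofReal_mul_I, Complex.norm_real,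
      Complex.norm_I]
    simp
  rw [h1]
  have h5 : |Real.sin (Real.pi * x)| ≥ 2 / Real.pi * |Real.pi * x| := by
    have := Real.mul_abs_le_abs_sin (x := Real.pi * x) (by
      rw [abs_mul, abs_of_pos Real.pi_pos]
      nlinarith [Real.pi_pos])
    exact this
  rw [abs_mul, abs_of_pos Real.pi_pos] at h5
  have h6 : 2 / Real.pi * (Real.pi * |x|) = 2 * |x| := by
    have := Real.pi_pos.ne'
    field_simp
  linarith

/-- the double average -/
noncomputable def Av (L : ℕ) (h : ℝ) (ψ : ℝ → ℂ) : ℂ :=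
  ((L:ℂ) ^ 2)⁻¹ * ∑ i ∈ range L, ∑ j ∈ range L, ψ (h * ((i:ℝ) - j))

theorem Av_add (L : ℕ) (h : ℝ) (ψ₁ ψ₂ : ℝ → ℂ) :
    Av L h (fun y => ψ₁ y + ψ₂ y) = Av L h ψ₁ + Av L h ψ₂ := by
  simp only [Av, Finset.sum_add_distrib, mul_add]

theorem Av_const_mul (L : ℕ) (h : ℝ) (c : ℂ) (ψ : ℝ → ℂ) :
    Av L h (fun y => c * ψ y) = c * Av L h ψ := by
  simp only [Av, Finset.mul_sum]
  refine Finset.sum_congr rfl fun i _ => Finset.sum_congr rfl fun j _ => by ring

theorem Av_sum {ι : Type} (s : Finset ι) (L : ℕ) (h : ℝ) (ψ : ι → ℝ → ℂ) :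
    Av L h (fun y => ∑ i ∈ s, ψ i y) = ∑ i ∈ s, Av L h (ψ i) := by
  classical
  induction s using Finset.induction_on with
  | empty => simp [Av]
  | insert a s ha ih =>
    simp only [Finset.sum_insert ha]
    rw [Av_add, ih]

theorem norm_geom_ee (t : ℝ) (ht : t ≠ 0) (ht1 : |t| ≤ 1/2) (L : ℕ) :
    ‖∑ i ∈ range L, ee (i * t)‖ ≤ 1 / (2 * |t|) := by
  have h1 : ∑ i ∈ range L, ee (i * t) = ∑ i ∈ range L, ee t ^ i :=
    Finset.sum_congr rfl fun i _ => ee_nat_mul t i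
  have h2 := norm_ee_sub_one t ht1
  have h3 : 0 < |t| := abs_pos.2 ht
  have h4 : ee t ≠ 1 := by
    intro h
    rw [h, sub_self, norm_zero] at h2
    linarith
  rw [h1, geom_sum_eq h4, norm_div]
  have h5 : ‖ee t ^ L - 1‖ ≤ 2 := by
    refine (norm_sub_le _ _).trans ?_
    rw [norm_pow, norm_ee, one_pow, norm_one]
    norm_num
  rw [div_le_div_iff₀ (by linarith) (by linarith)]
  nlinarith

theorem norm_Av_ee_le (L : ℕ) (h : ℝ) (hh : 0 < h) (t : ℝ) (ht : t ≠ 0) (ht1 : h * |t| ≤ 1/2) :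
    ‖Av L h (fun y => ee (t * y))‖ ≤ ((2 * (L * h)) ^ 2)⁻¹ * (t ^ 2)⁻¹ := by
  have e1 : ∀ i j : ℕ, ee (t * (h * ((i:ℝ) - j))) = ee (i * (t * h)) * ee (j * (-(t * h))) := by
    intro i j
    rw [← ee_add]
    congr 1
    ring
  have e2 : Av L h (fun y => ee (t * y)) = ((L:ℂ) ^ 2)⁻¹ *
      ((∑ i ∈ range L, ee (i * (t * h))) * (∑ j ∈ range L, ee (j * (-(t * h))))) := by
    rw [Av, Finset.sum_mul_sum]
    congr 1
    exact Finset.sum_congr rfl fun i _ => Finset.sum_congr rfl fun j _ => e1 i j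
  have hth : t * h ≠ 0 := mul_ne_zero ht hh.ne'
  have hth1 : |t * h| ≤ 1/2 := by
    rw [abs_mul, abs_of_pos hh]
    linarith
  have e3 := norm_geom_ee (t * h) hth hth1 L
  have e4 := norm_geom_ee (-(t * h)) (neg_ne_zero.2 hth) (by rwa [abs_neg]) L
  rw [abs_neg] at e4
  rw [e2, norm_mul, norm_mul, norm_inv, norm_pow, Complex.norm_natCast]
  have h3 : 0 < |t * h| := abs_pos.2 hth
  calc ((L:ℝ) ^ 2)⁻¹ * (‖∑ i ∈ range L, ee (i * (t * h))‖ *
        ‖∑ j ∈ range L, ee (j * (-(t * h)))‖)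
      ≤ ((L:ℝ) ^ 2)⁻¹ * (1 / (2 * |t * h|) * (1 / (2 * |t * h|))) := by
        apply mul_le_mul_of_nonneg_left _ (by positivity)
        exact mul_le_mul e3 e4 (norm_nonneg _) (by positivity)
    _ = _ := by
        have h4 : 1 / (2 * |t * h|) * (1 / (2 * |t * h|)) = (4 * (t * h) ^ 2)⁻¹ := by
          rw [← sq_abs (t * h), one_div, ← mul_inv]
          congr 1
          ring
        rw [h4, ← mul_inv, ← mul_inv]
        congr 1
        ring

theorem norm_Av_ee_le_one (L : ℕ) (h t : ℝ) : ‖Av L h (fun y => ee (t * y))‖ ≤ 1 := by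
  rw [Av, norm_mul, norm_inv, norm_pow, Complex.norm_natCast]
  have h1 : ‖∑ i ∈ range L, ∑ j ∈ range L, ee (t * (h * ((i:ℝ) - j)))‖ ≤ (L:ℝ) ^ 2 := by
    refine (norm_sum_le _ _).trans ?_
    calc ∑ i ∈ range L, ‖∑ j ∈ range L, ee (t * (h * ((i:ℝ) - j)))‖
        ≤ ∑ i ∈ range L, (L:ℝ) := by
          refine Finset.sum_le_sum fun i _ => (norm_sum_le _ _).trans ?_
          simp [norm_ee]
      _ = _ := by simp; ring
  rcases Nat.eq_zero_or_pos L with hL | hL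
  · subst hL
    simp
  · have h2 : 0 < (L:ℝ) ^ 2 := by positivity
    calc ((L:ℝ) ^ 2)⁻¹ * _ ≤ ((L:ℝ) ^ 2)⁻¹ * (L:ℝ) ^ 2 :=
          mul_le_mul_of_nonneg_left h1 (by positivity)
      _ = 1 := inv_mul_cancel₀ h2.ne'

theorem Av_one (L : ℕ) (hL : 0 < L) (h : ℝ) : Av L h (fun y => ee (0 * y)) = 1 := by
  have h2 : (L:ℂ) ^ 2 ≠ 0 := by
    have : (L:ℂ) ≠ 0 := Nat.cast_ne_zero.2 hL.ne'
    positivity
  simp only [Av, zero_mul, ee_zero, Finset.sum_const, Finset.card_range, nsmul_eq_mul, mul_one]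
  rw [← sq, inv_mul_cancel₀ h2]

/-- trigonometric polynomials with constant term one and admissible frequencies -/
def TP (ρ : ℝ) (B : Finset ℕ) (φ : ℝ → ℂ) : Prop :=
  ∃ (ι : Type) (_ : Fintype ι) (c : ι → ℂ) (t : ι → ℝ), (∀ i, ‖c i‖ ≤ 1) ∧
    (∀ i, ∃ m : ℕ → ℤ, (∃ l ∈ B, m l ≠ 0) ∧ t i = ∑ l ∈ B, 2 * (m l : ℝ) * ρ ^ l) ∧
    ∀ y, φ y = 1 + ∑ i, c i * ee (t i * y)

theorem TP_empty (ρ : ℝ) : TP ρ ∅ (fun _ => 1) := by
  refine ⟨Empty, inferInstance, fun _ => 0, fun _ => 0, fun i => i.elim, fun i => i.elim, ?_⟩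
  intro y
  simp

theorem TP_mul {ρ : ℝ} {B : Finset ℕ} {k : ℕ} (hk : k ∉ B) {φ ψ : ℝ → ℂ} (hφ : TP ρ B φ)
    (hψ : TP ρ {k} ψ) : TP ρ (insert k B) (fun y => ψ y * φ y) := by
  classical
  obtain ⟨ι, _, c, t, hc, ht, hφ⟩ := hφ
  obtain ⟨κ, _, c', t', hc', ht', hψ⟩ := hψ
  refine ⟨ι ⊕ κ ⊕ (κ × ι), inferInstance,
    Sum.elim c (Sum.elim c' (fun p => c' p.1 * c p.2)),
    Sum.elim t (Sum.elim t' (fun p => t' p.1 + t p.2)), ?_, ?_, ?_⟩
  · rintro (i | i | ⟨i, j⟩)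
    · exact hc i
    · exact hc' i
    · simp only [Sum.elim_inr, norm_mul]
      exact mul_le_one₀ (hc' i) (norm_nonneg _) (hc j)
  · have e0 : ∀ m : ℕ → ℤ, ∀ z : ℤ, ∑ l ∈ insert k B,
        2 * (((if l = k then z else m l) : ℤ) : ℝ) * ρ ^ l =
        2 * (z:ℝ) * ρ ^ k + ∑ l ∈ B, 2 * (m l : ℝ) * ρ ^ l := by
      intro m z
      rw [Finset.sum_insert hk, if_pos rfl]
      congr 1
      refine Finset.sum_congr rfl fun l hl => ?_
      have hlk : l ≠ k := fun h => hk (by rw [← h]; exact hl)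
      rw [if_neg hlk]
    rintro (i | i | ⟨i, j⟩)
    · obtain ⟨m, ⟨l, hl, hml⟩, hm⟩ := ht i
      refine ⟨fun l => if l = k then 0 else m l, ⟨l, Finset.mem_insert_of_mem hl, ?_⟩, ?_⟩
      · have hlk : l ≠ k := fun h => hk (by rw [← h]; exact hl)
        beta_reduce
        rw [if_neg hlk]
        exact hml
      · rw [e0, Sum.elim_inl, hm]
        simp
    · obtain ⟨m, ⟨l, hl, hml⟩, hm⟩ := ht' i
      rw [Finset.mem_singleton] at hl
      subst hl
      refine ⟨fun j => if j = l then m l else 0, ⟨l, Finset.mem_insert_self _ _, ?_⟩, ?_⟩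
      · beta_reduce
        rw [if_pos rfl]
        exact hml
      · have := e0 (fun _ => 0) (m l)
        rw [this, Sum.elim_inr, Sum.elim_inl, hm]
        simp
    · obtain ⟨m, ⟨l, hl, hml⟩, hm⟩ := ht' i
      obtain ⟨m', -, hm'⟩ := ht j
      rw [Finset.mem_singleton] at hl
      subst hl
      refine ⟨fun j => if j = l then m l else m' j, ⟨l, Finset.mem_insert_self _ _, ?_⟩, ?_⟩
      · beta_reduce
        rw [if_pos rfl]
        exact hml
      · rw [e0, Sum.elim_inr, Sum.elim_inr, hm, hm']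
        simp
  · intro y
    beta_reduce
    rw [hφ, hψ, Fintype.sum_sum_type, Fintype.sum_sum_type, Fintype.sum_prod_type]
    simp only [Sum.elim_inl, Sum.elim_inr]
    have e1 : ∑ x, ∑ x_1, c' x * c x_1 * ee ((t' x + t x_1) * y) =
        (∑ i, c' i * ee (t' i * y)) * (∑ i, c i * ee (t i * y)) := by
      rw [Finset.sum_mul_sum]
      refine Finset.sum_congr rfl fun i _ => Finset.sum_congr rfl fun j _ => ?_
      rw [add_mul, ee_add]
      ring
    rw [e1]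
    ring

/-- the peak function -/
noncomputable def Hf (K : ℕ) (θ : ℝ) : ℝ :=
  4 ^ K / (Nat.centralBinom K : ℝ) * Real.cos (2 * Real.pi * θ) ^ (2 * K)

theorem centralBinom_pos' (K : ℕ) : 0 < (Nat.centralBinom K : ℝ) :=
  Nat.cast_pos.2 (Nat.centralBinom_pos K)

theorem Hf_nonneg (K : ℕ) (θ : ℝ) : 0 ≤ Hf K θ := by
  have := centralBinom_pos' K
  rw [Hf, pow_mul]
  positivity

theorem Hf_le (K : ℕ) (θ : ℝ) : Hf K θ ≤ 4 ^ K := by
  have h1 : (1:ℝ) ≤ (Nat.centralBinom K : ℝ) := by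
    exact_mod_cast Nat.centralBinom_pos K
  have h2 : Real.cos (2 * Real.pi * θ) ^ (2 * K) ≤ 1 := by
    rw [pow_mul]
    exact pow_le_one₀ (sq_nonneg _) (Real.cos_sq_le_one _)
  have h3 : 0 ≤ Real.cos (2 * Real.pi * θ) ^ (2 * K) := by
    rw [pow_mul]
    positivity
  have h4 : (4:ℝ) ^ K / (Nat.centralBinom K : ℝ) ≤ 4 ^ K :=
    div_le_self (by positivity) h1
  calc Hf K θ ≤ 4 ^ K * 1 := mul_le_mul h4 h2 h3 (by positivity)
    _ = _ := mul_one _

theorem Hf_expand (K : ℕ) (θ : ℝ) : (Hf K θ : ℂ) = ∑ j ∈ range (2 * K + 1),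
    (((2 * K).choose j / (Nat.centralBinom K) : ℝ) : ℂ) * ee (2 * ((K:ℤ) - (j:ℤ) : ℤ) * θ) := by
  have hc := centralBinom_pos' K
  have hcos : ((Real.cos (2 * Real.pi * θ) : ℝ) : ℂ) = (ee (-θ) + ee θ) / 2 := by
    rw [Complex.ofReal_cos, Complex.cos, ee, ee, add_comm]
    congr 2
    congr 1
    push_cast
    ring
  have h4 : (4:ℂ) ^ K = 2 ^ (2 * K) := by
    rw [pow_mul]
    norm_num
  rw [Hf]
  push_cast
  rw [← Complex.ofReal_natCast (Nat.centralBinom K)]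
  have hcos' : Complex.cos (2 * Real.pi * θ) = (ee (-θ) + ee θ) / 2 := by
    rw [← hcos]
    push_cast
    rfl
  rw [hcos', div_pow, add_pow, h4]
  have hcc : ((Nat.centralBinom K : ℝ) : ℂ) ≠ 0 := by
    exact_mod_cast (Nat.centralBinom_pos K).ne'
  have h2 : (2:ℂ) ^ (2 * K) ≠ 0 := pow_ne_zero _ two_ne_zero
  have h5 : ∀ z : ℂ, 2 ^ (2 * K) / ((Nat.centralBinom K : ℝ) : ℂ) * (z / 2 ^ (2 * K)) =
      z / ((Nat.centralBinom K : ℝ) : ℂ) := by
    intro z
    field_simp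
  rw [h5, Finset.sum_div]
  refine Finset.sum_congr rfl fun j hj => ?_
  have hj' : j ≤ 2 * K := by
    rw [Finset.mem_range] at hj
    omega
  have h6 : ee (-θ) ^ j * ee θ ^ (2 * K - j) = ee (2 * ((K:ℝ) - (j:ℝ)) * θ) := by
    rw [← ee_nat_mul, ← ee_nat_mul, ← ee_add]
    congr 1
    rw [Nat.cast_sub hj']
    push_cast
    ring
  rw [h6]
  push_cast
  ring

theorem TP_Hf (ρ : ℝ) (K : ℕ) (l : ℕ) : TP ρ {l} (fun y => (Hf K (y * ρ ^ l) : ℂ)) := by
  classical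
  have hK : K ∈ range (2 * K + 1) := Finset.mem_range.2 (by omega)
  refine ⟨{j // j ∈ (range (2 * K + 1)).erase K}, Finset.fintypeCoeSort _,
    fun j => (((2 * K).choose j / (Nat.centralBinom K) : ℝ) : ℂ),
    fun j => 2 * ((K:ℤ) - (j:ℤ) : ℤ) * ρ ^ l, ?_, ?_, ?_⟩
  · intro j
    rw [Complex.norm_real, Real.norm_eq_abs, abs_of_nonneg (by positivity),
      div_le_one (centralBinom_pos' K)]
    exact_mod_cast Nat.choose_le_centralBinom j K
  · rintro ⟨j, hj⟩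
    refine ⟨fun _ => (K:ℤ) - (j:ℤ), ⟨l, Finset.mem_singleton_self l, ?_⟩, ?_⟩
    · have := (Finset.mem_erase.1 hj).1
      beta_reduce
      omega
    · rw [Finset.sum_singleton]
  · intro y
    beta_reduce
    rw [Hf_expand, ← Finset.add_sum_erase _ _ hK]
    congr 1
    · have hc := centralBinom_pos' K
      rw [sub_self]
      simp only [Int.cast_zero, mul_zero, zero_mul, ee_zero, mul_one]
      rw [Nat.centralBinom_eq_two_mul_choose] at hc ⊢
      rw [div_self hc.ne']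
      simp
    · rw [← Finset.sum_coe_sort]
      refine Finset.sum_congr rfl fun j _ => ?_
      congr 2
      ring

theorem TP_prod (ρ : ℝ) (K : ℕ) (B : Finset ℕ) :
    TP ρ B (fun y => ((∏ l ∈ B, Hf K (y * ρ ^ l) : ℝ) : ℂ)) := by
  classical
  induction B using Finset.induction_on with
  | empty =>
    have := TP_empty ρ
    simpa using this
  | insert a s ha ih =>
    have h := TP_mul ha ih (TP_Hf ρ K a)
    convert h using 2 with y
    rw [Finset.prod_insert ha]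
    push_cast
    ring

/-- the peak function is small away from multiples of `1/2` -/
theorem exists_Hf_small {κ ζ : ℝ} (hκ : 0 < κ) (hκ1 : κ ≤ 1/2) (hζ : 0 < ζ) :
    ∃ K : ℕ, ∀ θ : ℝ, κ ≤ |Real.sin (Real.pi * θ)| → κ ≤ |Real.cos (Real.pi * θ)| →
      Hf K θ ≤ ζ := by
  set r : ℝ := (1 - 2 * κ ^ 2) ^ 2 with hr
  have hk2 : κ ^ 2 ≤ 1/4 := by nlinarith
  have hk2' : 0 < κ ^ 2 := by positivity
  have hr0 : 0 ≤ r := sq_nonneg _
  have hr1 : r < 1 := by rw [hr]; nlinarith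
  have hlim := tendsto_self_mul_const_pow_of_lt_one hr0 hr1
  have hev := (hlim.const_mul 2).eventually_lt_const (u := ζ) (by simpa using hζ)
  obtain ⟨K₀, hK₀⟩ := Filter.eventually_atTop.1 hev
  refine ⟨max K₀ 1, fun θ hs hc => ?_⟩
  set K := max K₀ 1 with hK
  have hK1 : 0 < K := by omega
  have h1 := hK₀ K (le_max_left _ _)
  have hcb := centralBinom_pos' K
  have h2 : (4:ℝ) ^ K / (Nat.centralBinom K : ℝ) ≤ 2 * K := by
    rw [div_le_iff₀ hcb]
    exact_mod_cast Nat.four_pow_le_two_mul_self_mul_centralBinom K hK1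
  have h3 : Real.cos (2 * Real.pi * θ) ^ 2 ≤ r := by
    have e1 : 2 * Real.pi * θ = 2 * (Real.pi * θ) := by ring
    have e2 : Real.sin (Real.pi * θ) ^ 2 + Real.cos (Real.pi * θ) ^ 2 = 1 :=
      Real.sin_sq_add_cos_sq _
    have e3 : κ ^ 2 ≤ Real.sin (Real.pi * θ) ^ 2 := by
      rw [← sq_abs (Real.sin _)]
      exact pow_le_pow_left₀ hκ.le hs 2
    have e4 : κ ^ 2 ≤ Real.cos (Real.pi * θ) ^ 2 := by
      rw [← sq_abs (Real.cos _)]
      exact pow_le_pow_left₀ hκ.le hc 2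
    rw [e1, Real.cos_two_mul, hr]
    apply sq_le_sq'
    · nlinarith
    · nlinarith
  rw [Hf, pow_mul]
  calc 4 ^ K / (Nat.centralBinom K : ℝ) * (Real.cos (2 * Real.pi * θ) ^ 2) ^ K
      ≤ (2 * K) * r ^ K := by
        apply mul_le_mul h2 (pow_le_pow_left₀ (sq_nonneg _) h3 K) (by positivity) (by positivity)
    _ = 2 * (K * r ^ K) := by ring
    _ ≤ ζ := by
        have : 2 * ((K:ℝ) * r ^ K) < ζ := h1
        exact this.le

/-- differences of digit sums are values of signed expansions -/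
theorem xs_sub_eq_val {ρ : ℝ} (a b : Finset ℕ) : ∃ ε : ℕ → Fin 3, xs ρ a - xs ρ b = val ρ ε := by
  classical
  refine ⟨fun j => if j ∈ a then (if j ∈ b then 1 else 2) else (if j ∈ b then 0 else 1), ?_⟩
  have h1 : ∀ s : Finset ℕ, HasSum (fun j => if j ∈ s then ρ ^ j else 0) (xs ρ s) := by
    intro s
    have h2 : HasSum (fun j => if j ∈ s then ρ ^ j else 0)
        (∑ j ∈ s, if j ∈ s then ρ ^ j else 0) :=
      hasSum_sum_of_ne_finset_zero (fun j hj => by simp [hj])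
    convert h2 using 1
    rw [xs]
    exact Finset.sum_congr rfl fun j hj => by simp [hj]
  have h3 := (h1 a).sub (h1 b)
  rw [val, ← h3.tsum_eq]
  refine tsum_congr fun j => ?_
  by_cases ha : j ∈ a <;> by_cases hb : j ∈ b <;> simp [ha, hb, dig] <;> ring

theorem isClosed_range_val {ρ : ℝ} (h0 : 0 < ρ) (h1 : ρ ≤ 1/2) :
    IsClosed (Set.range (val ρ)) := by
  have hc : Continuous (val ρ) := by
    have h2 := continuousOn_val.comp (f := fun ε : ℕ → Fin 3 => (ρ, ε)) (s := Set.univ)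
      (by fun_prop) (fun ε _ => ⟨⟨h0.le, h1⟩, trivial⟩)
    exact continuousOn_univ.1 h2
  exact (isCompact_range hc).isClosed

/-- uniform distance -/
theorem exists_delta {ρ : ℝ} (h0 : 0 < ρ) (h1 : ρ ≤ 1/2) (hg : Gen ρ) {B : Finset ℕ} {ι : Type}
    [Fintype ι] (t : ι → ℝ)
    (ht : ∀ i, ∃ m : ℕ → ℤ, (∃ l ∈ B, m l ≠ 0) ∧ t i = ∑ l ∈ B, 2 * (m l : ℝ) * ρ ^ l) :
    ∃ δ > 0, ∀ i, ∀ a b : Finset ℕ, δ ≤ |t i - (xs ρ a - xs ρ b)| := by
  classical
  have h2 : ∀ i, ∃ δ > 0, ∀ a b : Finset ℕ, δ ≤ |t i - (xs ρ a - xs ρ b)| := by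
    intro i
    obtain ⟨m, hm, hti⟩ := ht i
    have hnot : t i ∈ (Set.range (val ρ))ᶜ := by
      rintro ⟨ε, hε⟩
      exact hg B m hm ε (by rw [← hti, hε])
    obtain ⟨δ, hδ, hball⟩ := Metric.isOpen_iff.1 (isClosed_range_val h0 h1).isOpen_compl _ hnot
    refine ⟨δ, hδ, fun a b => ?_⟩
    by_contra hlt
    push Not at hlt
    obtain ⟨ε, hε⟩ := xs_sub_eq_val (ρ := ρ) a b
    have : xs ρ a - xs ρ b ∈ Metric.ball (t i) δ := by
      rw [Metric.mem_ball, Real.dist_eq, abs_sub_comm]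
      exact hlt
    exact hball this ⟨ε, hε.symm⟩
  choose d hd hd' using h2
  rcases isEmpty_or_nonempty ι with h | h
  · exact ⟨1, one_pos, fun i => h.elim i⟩
  · obtain ⟨i, -, hi⟩ := Finset.exists_min_image Finset.univ d Finset.univ_nonempty
    exact ⟨d i, hd i, fun j a b => (hi j (Finset.mem_univ j)).trans (hd' j a b)⟩

end Pool.Agent.Helper27.FF
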