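import Mathlib
import Pool.Agent.Helper27.FF.Kernel

set_option autoImplicit false

open Finset

namespace Pool.Agent.Helper27.FF

theorem schur {ι : Type} (s : Finset ι) (g : ι → ℂ) (k : ι → ι → ℂ) (κ : ι → ι → ℝ)
    (hk : ∀ a ∈ s, ∀ b ∈ s, ‖k a b‖ ≤ κ a b) (hsym : ∀ a b, κ a b = κ b a) (E : ℝ)
    (hE : ∀ a ∈ s, ∑ b ∈ s, κ a b ≤ E) :
    ‖∑ a ∈ s, ∑ b ∈ s, g a * (starRingEnd ℂ) (g b) * k a b‖ ≤ E * ∑ a ∈ s, ‖g a‖ ^ 2 := by
  have h1 : ∀ a ∈ s, ∀ b ∈ s, ‖g a * (starRingEnd ℂ) (g b) * k a b‖ ≤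
      (‖g a‖ ^ 2 * κ a b + ‖g b‖ ^ 2 * κ b a) / 2 := by
    intro a ha b hb
    rw [norm_mul, norm_mul, RCLike.norm_conj, hsym b a]
    have h2 := hk a ha b hb
    have h3 : 0 ≤ κ a b := (norm_nonneg _).trans h2
    have h4 : ‖g a‖ * ‖g b‖ * ‖k a b‖ ≤ ‖g a‖ * ‖g b‖ * κ a b :=
      mul_le_mul_of_nonneg_left h2 (by positivity)
    have h5 : ‖g a‖ * ‖g b‖ ≤ (‖g a‖ ^ 2 + ‖g b‖ ^ 2) / 2 := by
      nlinarith [sq_nonneg (‖g a‖ - ‖g b‖)]
    have h6 := mul_le_mul_of_nonneg_right h5 h3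
    linarith
  calc ‖∑ a ∈ s, ∑ b ∈ s, g a * (starRingEnd ℂ) (g b) * k a b‖
      ≤ ∑ a ∈ s, ∑ b ∈ s, (‖g a‖ ^ 2 * κ a b + ‖g b‖ ^ 2 * κ b a) / 2 := by
        refine (norm_sum_le _ _).trans (Finset.sum_le_sum fun a ha => ?_)
        exact (norm_sum_le _ _).trans (Finset.sum_le_sum fun b hb => h1 a ha b hb)
    _ = ∑ a ∈ s, ∑ b ∈ s, ‖g a‖ ^ 2 * κ a b := by
        have e1 : ∑ a ∈ s, ∑ b ∈ s, ‖g b‖ ^ 2 * κ b a = ∑ a ∈ s, ∑ b ∈ s, ‖g a‖ ^ 2 * κ a b :=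
          Finset.sum_comm
        simp only [add_div, Finset.sum_add_distrib, ← Finset.sum_div]
        rw [e1]
        ring
    _ ≤ ∑ a ∈ s, ‖g a‖ ^ 2 * E := by
        refine Finset.sum_le_sum fun a ha => ?_
        rw [← Finset.mul_sum]
        exact mul_le_mul_of_nonneg_left (hE a ha) (sq_nonneg _)
    _ = _ := by rw [← Finset.sum_mul, mul_comm]

theorem normSq_sum_ee (s : Finset (Finset ℕ)) (g : Finset ℕ → ℂ) (x : Finset ℕ → ℝ) (y : ℝ) :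
    ((‖∑ a ∈ s, g a * ee (-(x a) * y)‖ ^ 2 : ℝ) : ℂ) =
      ∑ a ∈ s, ∑ b ∈ s, g a * (starRingEnd ℂ) (g b) * ee (-(x a - x b) * y) := by
  have h1 : ∀ z : ℂ, ((‖z‖ ^ 2 : ℝ) : ℂ) = z * (starRingEnd ℂ) z := by
    intro z
    rw [Complex.mul_conj, Complex.normSq_eq_norm_sq]
  rw [h1, map_sum, Finset.sum_mul_sum]
  refine Finset.sum_congr rfl fun a _ => Finset.sum_congr rfl fun b _ => ?_
  have h2 : ee (-(x a - x b) * y) = ee (-(x a) * y) * ee (-(-(x b) * y)) := by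
    rw [← ee_add]
    congr 1
    ring
  rw [map_mul, conj_ee, h2]
  ring

theorem kernel {ρ : ℝ} (h0 : 0 < ρ) (h1 : ρ ≤ 1/100) (hg : Gen ρ) {B : Finset ℕ} {φ : ℝ → ℂ}
    (hφ : TP ρ B φ) {τ : ℝ} (hτ : 0 < τ) :
    ∃ N₀ : ℕ, ∀ N ≥ N₀, ∃ L₀ : ℕ, ∀ L ≥ L₀, 0 < L → ∀ g : Finset ℕ → ℂ,
      ‖Av L (1 / (20 * ρ ^ N) / L) (fun y => φ y *
          ((‖∑ a ∈ (range N).powerset, g a * ee (-(xs ρ a) * y)‖ ^ 2 : ℝ) : ℂ)) -
        ((∑ a ∈ (range N).powerset, ‖g a‖ ^ 2 : ℝ) : ℂ)‖ ≤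
          (110 * ρ ^ 2 + τ) * ∑ a ∈ (range N).powerset, ‖g a‖ ^ 2 := by
  classical
  obtain ⟨ι, _, c, t, hc, ht, hφ⟩ := hφ
  obtain ⟨δ, hδ, hδt⟩ := exists_delta h0 (by linarith) hg t ht
  set n : ℝ := (Fintype.card ι : ℝ) with hn
  have hn0 : 0 ≤ n := Nat.cast_nonneg _
  have h2ρ : 2 * ρ ^ 2 < 1 := by nlinarith
  obtain ⟨N₀, hN₀⟩ := exists_pow_lt_of_lt_one
    (show 0 < τ / (100 * n / δ ^ 2 + 1) by positivity) h2ρ
  refine ⟨N₀, fun N hN => ?_⟩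
  have hρN : 0 < ρ ^ N := pow_pos h0 N
  have htail : (2:ℝ) ^ N * (n * (100 * ρ ^ (2 * N) * (δ ^ 2)⁻¹)) ≤ τ := by
    have e1 : (2 * ρ ^ 2) ^ N ≤ (2 * ρ ^ 2) ^ N₀ :=
      pow_le_pow_of_le_one (by positivity) h2ρ.le hN
    have e2 : (2 * ρ ^ 2) ^ N * (100 * n / δ ^ 2 + 1) ≤ τ := by
      rw [← le_div_iff₀ (by positivity)]
      exact (e1.trans hN₀.le)
    have e3 : (2:ℝ) ^ N * (n * (100 * ρ ^ (2 * N) * (δ ^ 2)⁻¹)) =
        (2 * ρ ^ 2) ^ N * (100 * n / δ ^ 2) := by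
      rw [mul_pow, ← pow_mul, div_eq_mul_inv]
      ring
    rw [e3]
    have e4 : 0 ≤ (2 * ρ ^ 2) ^ N := by positivity
    nlinarith
  set X : ℝ := ∑ j ∈ range N, ρ ^ j with hX
  have hxs : ∀ a ∈ (range N).powerset, 0 ≤ xs ρ a ∧ xs ρ a ≤ X := by
    intro a ha
    refine ⟨Finset.sum_nonneg fun j _ => pow_nonneg h0.le j, ?_⟩
    exact Finset.sum_le_sum_of_subset_of_nonneg (Finset.mem_powerset.1 ha)
      fun j _ _ => pow_nonneg h0.le j
  have hxsd : ∀ a ∈ (range N).powerset, ∀ b ∈ (range N).powerset, |xs ρ a - xs ρ b| ≤ X := by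
    intro a ha b hb
    have e1 := hxs a ha
    have e2 := hxs b hb
    rw [abs_le]
    constructor <;> linarith [e1.1, e1.2, e2.1, e2.2]
  set T₀ : ℝ := ∑ i, |t i| + X with hT₀
  have hti : ∀ i, |t i| ≤ ∑ i, |t i| := fun i =>
    Finset.single_le_sum (f := fun i => |t i|) (fun i _ => abs_nonneg _) (Finset.mem_univ i)
  have hsumt : 0 ≤ ∑ i, |t i| := Finset.sum_nonneg fun i _ => abs_nonneg _
  set R : ℝ := 1 / (20 * ρ ^ N) with hR
  have hRpos : 0 < R := by positivity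
  obtain ⟨L₀, hL₀⟩ := exists_nat_ge (2 * R * T₀)
  refine ⟨L₀, fun L hL hLpos g => ?_⟩
  have hL' : (0:ℝ) < L := Nat.cast_pos.2 hLpos
  set h : ℝ := R / L with hh
  have hhpos : 0 < h := div_pos hRpos hL'
  have hhT : ∀ s : ℝ, |s| ≤ T₀ → h * |s| ≤ 1/2 := by
    intro s hs
    have e1 : 2 * R * T₀ ≤ L := hL₀.trans (Nat.cast_le.2 hL)
    rw [hh, div_mul_eq_mul_div, div_le_iff₀ hL']
    nlinarith
  have hLh : ((2 * ((L:ℝ) * h)) ^ 2)⁻¹ = 100 * ρ ^ (2 * N) := by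
    have e1 : (L:ℝ) * h = R := by rw [hh]; field_simp
    rw [e1, hR]
    have e2 : ρ ^ (2 * N) = (ρ ^ N) ^ 2 := by rw [← pow_mul, mul_comm]
    rw [e2]
    field_simp
    norm_num
  have hAv : ∀ s : ℝ, s ≠ 0 → |s| ≤ T₀ → ‖Av L h (fun y => ee (s * y))‖ ≤
      100 * ρ ^ (2 * N) * (s ^ 2)⁻¹ := by
    intro s hs hs'
    have := norm_Av_ee_le L h hhpos s hs (hhT s hs')
    rwa [hLh] at this
  set P := (range N).powerset with hP
  -- the kernel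
  set k : Finset ℕ → Finset ℕ → ℂ := fun a b =>
    Av L h (fun y => φ y * ee (-(xs ρ a - xs ρ b) * y)) with hk
  have hkexp : ∀ a b, k a b = Av L h (fun y => ee (-(xs ρ a - xs ρ b) * y)) +
      ∑ i, c i * Av L h (fun y => ee ((t i - (xs ρ a - xs ρ b)) * y)) := by
    intro a b
    have e1 : (fun y => φ y * ee (-(xs ρ a - xs ρ b) * y)) = fun y =>
        ee (-(xs ρ a - xs ρ b) * y) +
          ∑ i, c i * ee ((t i - (xs ρ a - xs ρ b)) * y) := by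
      funext y
      rw [hφ, add_mul, one_mul, Finset.sum_mul]
      congr 1
      refine Finset.sum_congr rfl fun i _ => ?_
      rw [mul_assoc, ← ee_add]
      congr 2
      ring
    simp only [hk]
    rw [e1, Av_add, Av_sum]
    congr 1
    exact Finset.sum_congr rfl fun i _ => Av_const_mul _ _ _ _
  have hkb : ∀ a ∈ P, ∀ b ∈ P, ‖k a b - (if a = b then 1 else 0)‖ ≤
      100 * ρ ^ (2 * N) * ((xs ρ a - xs ρ b) ^ 2)⁻¹ + n * (100 * ρ ^ (2 * N) * (δ ^ 2)⁻¹) := by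
    intro a ha b hb
    have hX0 := hxsd a ha b hb
    have e2 : ‖∑ i, c i * Av L h (fun y => ee ((t i - (xs ρ a - xs ρ b)) * y))‖ ≤
        n * (100 * ρ ^ (2 * N) * (δ ^ 2)⁻¹) := by
      refine (norm_sum_le _ _).trans ?_
      have e3 : ∀ i ∈ (Finset.univ : Finset ι),
          ‖c i * Av L h (fun y => ee ((t i - (xs ρ a - xs ρ b)) * y))‖ ≤
          100 * ρ ^ (2 * N) * (δ ^ 2)⁻¹ := by
        intro i _
        have e4 := hδt i a b
        have e5 : t i - (xs ρ a - xs ρ b) ≠ 0 := by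
          intro h'
          rw [h', abs_zero] at e4
          linarith
        have e6 : |t i - (xs ρ a - xs ρ b)| ≤ T₀ := by
          refine (abs_sub _ _).trans ?_
          have := hti i
          linarith
        have e7 := hAv _ e5 e6
        rw [norm_mul]
        have e8 : ((t i - (xs ρ a - xs ρ b)) ^ 2)⁻¹ ≤ (δ ^ 2)⁻¹ := by
          apply inv_anti₀ (by positivity)
          rw [← sq_abs (t i - _)]
          exact pow_le_pow_left₀ hδ.le e4 2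
        calc ‖c i‖ * _ ≤ 1 * (100 * ρ ^ (2 * N) * ((t i - (xs ρ a - xs ρ b)) ^ 2)⁻¹) :=
              mul_le_mul (hc i) e7 (norm_nonneg _) zero_le_one
          _ ≤ _ := by
              rw [one_mul]
              exact mul_le_mul_of_nonneg_left e8 (by positivity)
      refine (Finset.sum_le_sum e3).trans (le_of_eq ?_)
      rw [Finset.sum_const, nsmul_eq_mul, Finset.card_univ]
    rw [hkexp]
    by_cases hab : a = b
    · rw [if_pos hab, hab, sub_self, neg_zero, Av_one L hLpos]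
      rw [hab, sub_self] at e2
      have e9 : (1 + ∑ i, c i * Av L h (fun y => ee ((t i - 0) * y)) - 1) =
          ∑ i, c i * Av L h (fun y => ee ((t i - 0) * y)) := by ring
      rw [e9]
      simp only [ne_eq, OfNat.ofNat_ne_zero, not_false_eq_true, zero_pow, inv_zero, mul_zero,
        zero_add]
      exact e2
    · rw [if_neg hab, sub_zero]
      refine (norm_add_le _ _).trans (add_le_add ?_ e2)
      have e4 := sep h0 (by linarith) N a ha b hb hab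
      have e5 : -(xs ρ a - xs ρ b) ≠ 0 := by
        intro h'
        rw [neg_eq_zero] at h'
        rw [h', abs_zero] at e4
        linarith
      have e6 := hAv _ e5 (by rw [abs_neg]; linarith)
      rwa [neg_sq] at e6
  -- rewriting
  have hmain : Av L h (fun y => φ y * ((‖∑ a ∈ P, g a * ee (-(xs ρ a) * y)‖ ^ 2 : ℝ) : ℂ)) -
      ((∑ a ∈ P, ‖g a‖ ^ 2 : ℝ) : ℂ) =
      ∑ a ∈ P, ∑ b ∈ P, g a * (starRingEnd ℂ) (g b) * (k a b - (if a = b then 1 else 0)) := by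
    have e1 : (fun y => φ y * ((‖∑ a ∈ P, g a * ee (-(xs ρ a) * y)‖ ^ 2 : ℝ) : ℂ)) =
        fun y => ∑ a ∈ P, ∑ b ∈ P, (g a * (starRingEnd ℂ) (g b)) *
          (φ y * ee (-(xs ρ a - xs ρ b) * y)) := by
      funext y
      rw [normSq_sum_ee, Finset.mul_sum]
      refine Finset.sum_congr rfl fun a _ => ?_
      rw [Finset.mul_sum]
      exact Finset.sum_congr rfl fun b _ => by ring
    rw [e1, Av_sum]
    have e2 : ∀ a ∈ P, Av L h (fun y => ∑ b ∈ P, (g a * (starRingEnd ℂ) (g b)) *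
        (φ y * ee (-(xs ρ a - xs ρ b) * y))) =
        ∑ b ∈ P, g a * (starRingEnd ℂ) (g b) * k a b := by
      intro a _
      rw [Av_sum]
      exact Finset.sum_congr rfl fun b _ => Av_const_mul _ _ _ _
    rw [Finset.sum_congr rfl e2]
    push_cast
    rw [← Finset.sum_sub_distrib]
    refine Finset.sum_congr rfl fun a ha => ?_
    simp only [mul_sub, Finset.sum_sub_distrib]
    congr 1
    simp only [mul_ite, mul_one, mul_zero]
    rw [Finset.sum_ite_eq P a, if_pos ha, Complex.mul_conj, Complex.normSq_eq_norm_sq]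
    push_cast
    rfl
  rw [hmain]
  refine schur P g _ (fun a b => 100 * ρ ^ (2 * N) * ((xs ρ a - xs ρ b) ^ 2)⁻¹ +
    n * (100 * ρ ^ (2 * N) * (δ ^ 2)⁻¹)) hkb ?_ _ ?_
  · intro a b
    beta_reduce
    rw [← neg_sub (xs ρ a) (xs ρ b), neg_sq]
  · intro a ha
    rw [Finset.sum_add_distrib, Finset.sum_const, ← Finset.mul_sum, hP, Finset.card_powerset,
      Finset.card_range, nsmul_eq_mul]
    have e1 := rowsum h0 h1 N a ha
    push_cast
    linarith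

/-- the real double average -/
noncomputable def Ar (L : ℕ) (h : ℝ) (ψ : ℝ → ℝ) : ℝ :=
  ((L:ℝ) ^ 2)⁻¹ * ∑ i ∈ range L, ∑ j ∈ range L, ψ (h * ((i:ℝ) - j))

theorem Av_ofReal (L : ℕ) (h : ℝ) (ψ : ℝ → ℝ) : Av L h (fun y => (ψ y : ℂ)) = (Ar L h ψ : ℂ) := by
  rw [Av, Ar]
  push_cast
  rfl

/-- sine and cosine sequences -/
noncomputable def sn (ρ y : ℝ) (j : ℕ) : ℝ := Real.sin (Real.pi * y * ρ ^ j)
noncomputable def cn (ρ y : ℝ) (j : ℕ) : ℝ := Real.cos (Real.pi * y * ρ ^ j)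

theorem sn_sq_add_cn_sq (ρ y : ℝ) (j : ℕ) : sn ρ y j ^ 2 + cn ρ y j ^ 2 = 1 :=
  Real.sin_sq_add_cos_sq _

theorem chr_eq (ρ y : ℝ) (J a : Finset ℕ) (ha : a ⊆ J) :
    chr (fun j => Real.pi * y * ρ ^ j) J a =
      Complex.exp ((Real.pi * y * xs ρ J : ℝ) * Complex.I) * ee (-(xs ρ a) * y) := by
  rw [chr, pr, ← Complex.exp_sum, ← Complex.exp_sum, ee, ← Complex.exp_add, ← Complex.exp_add]
  congr 1
  have h1 : xs ρ J = ∑ j ∈ J \ a, ρ ^ j + xs ρ a := (Finset.sum_sdiff ha).symm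
  rw [h1, xs]
  push_cast
  rw [Finset.sum_neg_distrib, ← Finset.sum_mul, ← Finset.sum_mul, ← Finset.mul_sum,
    ← Finset.mul_sum]
  ring

theorem cev_ofReal (s c : ℕ → ℝ) (J : Finset ℕ) (f : Finset ℕ → ℝ) :
    cev s c J (fun S => (f S : ℂ)) = (ev s c J f : ℂ) := by
  rw [cev, ev]
  push_cast
  rfl

/-- the two sided estimate for Walsh coefficients -/
theorem walsh_kernel {ρ : ℝ} (h0 : 0 < ρ) (h1 : ρ ≤ 1/100) (hg : Gen ρ) {B : Finset ℕ}
    {φ : ℝ → ℝ} (hφ : TP ρ B (fun y => (φ y : ℂ))) {τ : ℝ} (hτ : 0 < τ) :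
    ∃ N₀ : ℕ, ∀ N ≥ N₀, ∃ L₀ : ℕ, ∀ L ≥ L₀, 0 < L → ∀ f : Finset ℕ → ℝ,
      |Ar L (1 / (20 * ρ ^ N) / L) (fun y => 2 ^ N * φ y * ev (sn ρ y) (cn ρ y) (range N) f ^ 2) -
        ∑ S ∈ (range N).powerset, f S ^ 2| ≤
          (110 * ρ ^ 2 + τ) * ∑ S ∈ (range N).powerset, f S ^ 2 := by
  obtain ⟨N₀, hN₀⟩ := kernel h0 h1 hg hφ hτ
  refine ⟨N₀, fun N hN => ?_⟩
  obtain ⟨L₀, hL₀⟩ := hN₀ N hN
  refine ⟨L₀, fun L hL hLpos f => ?_⟩
  obtain ⟨g, hgs, hge⟩ := walsh_to_digit N (fun S => (f S : ℂ))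
  have h2 := hL₀ L hL hLpos g
  have e1 : ∑ a ∈ (range N).powerset, ‖g a‖ ^ 2 = ∑ S ∈ (range N).powerset, f S ^ 2 := by
    rw [hgs]
    refine Finset.sum_congr rfl fun S _ => ?_
    rw [Complex.norm_real, Real.norm_eq_abs, sq_abs]
  have e2 : ∀ y : ℝ, ‖∑ a ∈ (range N).powerset, g a * ee (-(xs ρ a) * y)‖ ^ 2 =
      2 ^ N * ev (sn ρ y) (cn ρ y) (range N) f ^ 2 := by
    intro y
    have e3 := hge (fun j => Real.pi * y * ρ ^ j)
    rw [cev_ofReal] at e3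
    have e4 : ∑ a ∈ (range N).powerset, g a * chr (fun j => Real.pi * y * ρ ^ j) (range N) a =
        Complex.exp ((Real.pi * y * xs ρ (range N) : ℝ) * Complex.I) *
          ∑ a ∈ (range N).powerset, g a * ee (-(xs ρ a) * y) := by
      rw [Finset.mul_sum]
      refine Finset.sum_congr rfl fun a ha => ?_
      rw [chr_eq ρ y _ a (Finset.mem_powerset.1 ha)]
      ring
    rw [e4] at e3
    have e5 := congrArg (fun z : ℂ => ‖z‖ ^ 2) e3
    simp only [norm_mul, Complex.norm_exp_ofReal_mul_I, one_mul, norm_pow, Complex.norm_real,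
      Real.norm_eq_abs, mul_pow, sq_abs] at e5
    rw [e5]
    congr 1
    rw [abs_of_nonneg (Real.sqrt_nonneg 2), ← pow_mul, mul_comm N 2, pow_mul,
      Real.sq_sqrt (by norm_num)]
  rw [e1] at h2
  have e3 : (fun y => (φ y : ℂ) *
      ((‖∑ a ∈ (range N).powerset, g a * ee (-(xs ρ a) * y)‖ ^ 2 : ℝ) : ℂ)) =
      fun y => ((2 ^ N * φ y * ev (sn ρ y) (cn ρ y) (range N) f ^ 2 : ℝ) : ℂ) := by
    funext y
    rw [e2]
    push_cast
    ring
  rw [e3, Av_ofReal, ← Complex.ofReal_sub, Complex.norm_real, Real.norm_eq_abs] at h2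
  exact h2

end Pool.Agent.Helper27.FF
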