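import Mathlib
import Pool.Agent.Helper27.FF.Kernel2

set_option autoImplicit false

open Finset

namespace Pool.Agent.Helper27.FF

/-! ### the window as a weighted finite set -/

open Classical in
/-- the points of the window -/
noncomputable def Yw (L : ℕ) (h : ℝ) : Finset ℝ :=
  (range L ×ˢ range L).image (fun p : ℕ × ℕ => h * ((p.1:ℝ) - p.2))

open Classical in
/-- the weights of the window -/
noncomputable def om (L : ℕ) (h : ℝ) (y : ℝ) : ℝ :=
  ((L:ℝ) ^ 2)⁻¹ * (((range L ×ˢ range L).filter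
    (fun p : ℕ × ℕ => h * ((p.1:ℝ) - p.2) = y)).card : ℝ)

theorem sum_window (L : ℕ) (h : ℝ) (ψ : ℝ → ℝ) : ∑ y ∈ Yw L h, om L h y * ψ y = Ar L h ψ := by
  classical
  rw [Ar, ← Finset.sum_product', Finset.sum_comp ψ (fun p : ℕ × ℕ => h * ((p.1:ℝ) - p.2)),
    Finset.mul_sum, Yw]
  refine Finset.sum_congr (by congr) fun y _ => ?_
  rw [om, nsmul_eq_mul, mul_assoc]

theorem om_nonneg (L : ℕ) (h y : ℝ) : 0 ≤ om L h y := by
  rw [om]
  positivity

theorem om_le (L : ℕ) (hL : 0 < L) (h y : ℝ) (hh : 0 < h) : om L h y ≤ 1 / L := by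
  classical
  have hL' : (0:ℝ) < L := Nat.cast_pos.2 hL
  have h1 : ((range L ×ˢ range L).filter
      (fun p : ℕ × ℕ => h * ((p.1:ℝ) - p.2) = y)).card ≤ L := by
    have h2 := Finset.card_le_card_of_injOn (s := ((range L ×ˢ range L).filter
      (fun p : ℕ × ℕ => h * ((p.1:ℝ) - p.2) = y))) (t := range L) (fun p => p.2)
      (fun p hp => by
        simp only [Finset.coe_filter, Finset.mem_product] at hp
        exact hp.1.2)
      (fun p hp q hq hpq => by
        simp only [Finset.coe_filter, Finset.mem_product] at hp hq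
        have e1 : h * ((p.1:ℝ) - p.2) = h * ((q.1:ℝ) - q.2) := hp.2.trans hq.2.symm
        have e2 := mul_left_cancel₀ hh.ne' e1
        have e3 : (p.2 : ℝ) = q.2 := by
          have : p.2 = q.2 := hpq
          rw [this]
        have e4 : (p.1 : ℝ) = q.1 := by linarith
        exact Prod.ext (Nat.cast_injective e4) hpq)
    rwa [Finset.card_range] at h2
  have h1' : (((range L ×ˢ range L).filter
      (fun p : ℕ × ℕ => h * ((p.1:ℝ) - p.2) = y)).card : ℝ) ≤ L := Nat.cast_le.2 h1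
  have h3 : om L h y ≤ ((L:ℝ) ^ 2)⁻¹ * L := by
    rw [om]
    exact mul_le_mul_of_nonneg_left h1' (by positivity)
  refine h3.trans (le_of_eq ?_)
  field_simp

theorem abs_le_of_mem_Yw (L : ℕ) (hL : 0 < L) (R : ℝ) (hR : 0 < R) (y : ℝ)
    (hy : y ∈ Yw L (R / L)) : |y| ≤ R := by
  classical
  simp only [Yw, Finset.mem_image, Finset.mem_product, Finset.mem_range] at hy
  obtain ⟨p, ⟨hp1, hp2⟩, rfl⟩ := hy
  have hL' : (0:ℝ) < L := Nat.cast_pos.2 hL
  have e1 : (p.1:ℝ) < L := Nat.cast_lt.2 hp1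
  have e2 : (p.2:ℝ) < L := Nat.cast_lt.2 hp2
  have e3 : (0:ℝ) ≤ p.1 := Nat.cast_nonneg _
  have e4 : (0:ℝ) ≤ p.2 := Nat.cast_nonneg _
  have e5 : |(p.1:ℝ) - p.2| ≤ L := by
    rw [abs_le]
    constructor <;> linarith
  rw [abs_mul, abs_of_pos (div_pos hR hL')]
  calc R / L * |(p.1:ℝ) - p.2| ≤ R / L * L := mul_le_mul_of_nonneg_left e5 (by positivity)
    _ = R := by field_simp

theorem pr_sq_le_of_mem {s c : ℕ → ℝ} (h : ∀ j, s j ^ 2 + c j ^ 2 = 1) {J S : Finset ℕ} {i : ℕ}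
    (hS : S ⊆ J) (hi : i ∈ S) : pr s c J S ^ 2 ≤ s i ^ 2 := by
  classical
  rw [← sum_pr_sq_mem h J i (hS hi)]
  have h1 := Finset.single_le_sum (s := J.powerset)
    (f := fun S => if i ∈ S then pr s c J S ^ 2 else 0)
    (fun S _ => by split_ifs <;> positivity) (Finset.mem_powerset.2 hS)
  simpa [hi] using h1

theorem pr_sq_le_of_notMem {s c : ℕ → ℝ} (h : ∀ j, s j ^ 2 + c j ^ 2 = 1) {J S : Finset ℕ} {i : ℕ}
    (hS : S ⊆ J) (hi : i ∉ S) (hiJ : i ∈ J) : pr s c J S ^ 2 ≤ c i ^ 2 := by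
  classical
  have h1 := sum_pr_sq_mem h J i hiJ
  have h2 := sum_pr_sq h J
  have h3 : ∑ S ∈ J.powerset, (if i ∈ S then 0 else pr s c J S ^ 2) = c i ^ 2 := by
    have h4 : ∑ S ∈ J.powerset, (if i ∈ S then 0 else pr s c J S ^ 2) +
        ∑ S ∈ J.powerset, (if i ∈ S then pr s c J S ^ 2 else 0) = 1 := by
      rw [← Finset.sum_add_distrib, ← h2]
      refine Finset.sum_congr rfl fun S _ => ?_
      split_ifs <;> ring
    have := h i
    linarith
  rw [← h3]
  have h5 := Finset.single_le_sum (s := J.powerset)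
    (f := fun S => if i ∈ S then 0 else pr s c J S ^ 2)
    (fun S _ => by split_ifs <;> positivity) (Finset.mem_powerset.2 hS)
  simpa [hi] using h5

/-- pointwise bound -/
theorem ev_sq_le_of_small {s c : ℕ → ℝ} {J₁ J₂ : Finset ℕ} (hd : Disjoint J₁ J₂)
    (f : Finset ℕ → ℝ) {κ : ℝ}
    (hf : ∀ T ∈ J₂.powerset, pr s c J₂ T ^ 2 ≤ κ ^ 2 ∨ ∀ S ∈ J₁.powerset, f (S ∪ T) = 0) :
    ev s c (J₁ ∪ J₂) f ^ 2 ≤
      2 ^ J₂.card * κ ^ 2 * ∑ T ∈ J₂.powerset, ev s c J₁ (fun S => f (S ∪ T)) ^ 2 := by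
  rw [ev_union s c hd]
  have h1 := sq_sum_le_card_mul_sum_sq (s := J₂.powerset)
    (f := fun T => pr s c J₂ T * ev s c J₁ (fun S => f (S ∪ T)))
  refine h1.trans ?_
  rw [Finset.card_powerset, mul_assoc]
  push_cast
  apply mul_le_mul_of_nonneg_left _ (by positivity)
  rw [Finset.mul_sum]
  refine Finset.sum_le_sum fun T hT => ?_
  rw [mul_pow]
  rcases hf T hT with h | h
  · exact mul_le_mul_of_nonneg_right h (sq_nonneg _)
  · have : ev s c J₁ (fun S => f (S ∪ T)) = 0 := by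
      rw [ev]
      exact Finset.sum_eq_zero fun S hS => by rw [h S hS, mul_zero]
    rw [this]
    simp

theorem window {ρ : ℝ} (h0 : 0 < ρ) (h1 : ρ ≤ 1/100) (hg : Gen ρ) (blk : Finset ℕ) {τ : ℝ}
    (hτ : 0 < τ) (hτ1 : τ ≤ 1) :
    ∃ N₀ : ℕ, ∀ N ≥ N₀, ∀ δ > 0, ∃ (Y : Finset ℝ) (W : ℝ → ℝ),
      (∀ y ∈ Y, 0 < W y ∧ W y ≤ δ) ∧ (∀ y ∈ Y, |y| * ρ ^ N ≤ 1/20) ∧
      (∀ y ∈ Y, ∃ l ∈ blk, |cn ρ y l| ≤ 1/10) ∧
      (∀ f : Finset ℕ → ℝ, ∑ y ∈ Y, W y * ev (sn ρ y) (cn ρ y) (range N) f ^ 2 ≤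
        11/10 * ∑ S ∈ (range N).powerset, f S ^ 2) ∧
      (∀ f : Finset ℕ → ℝ, (∀ S ∈ (range N).powerset, (∃ l ∈ blk, l ∈ S) → f S = 0) →
        ∑ y ∈ Y, W y * ev (sn ρ y) (cn ρ y) (range N) f ^ 2 ≤
          τ * ∑ S ∈ (range N).powerset, f S ^ 2 ∧
        ∀ y ∈ Y, ev (sn ρ y) (cn ρ y) (range N) f ^ 2 ≤
          τ * ∑ S ∈ (range N).powerset, f S ^ 2) ∧
      (∀ f : Finset ℕ → ℝ, (∀ S ∈ (range N).powerset, (∀ l ∈ blk, l ∉ S) → f S = 0) →
        4/5 * ∑ S ∈ (range N).powerset, f S ^ 2 ≤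
          ∑ y ∈ Y, W y * ev (sn ρ y) (cn ρ y) (range N) f ^ 2) := by
  classical
  set b : ℕ := blk.card with hb
  set κ : ℝ := τ / (100 * 2 ^ b) with hκ
  have h2b : (1:ℝ) ≤ 2 ^ b := one_le_pow₀ (by norm_num)
  have hκpos : 0 < κ := by positivity
  have hκ1 : κ ≤ 1/100 := by
    rw [hκ, div_le_div_iff₀ (by positivity) (by norm_num)]
    nlinarith
  have hκ2 : (2:ℝ) ^ b * κ ^ 2 * 2 ^ b = τ ^ 2 / 10000 := by
    rw [hκ]
    field_simp
    norm_num
  have hτ2 : τ ^ 2 ≤ τ := by nlinarith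
  obtain ⟨K, hK⟩ := exists_Hf_small (κ := κ) (ζ := 1 / (100 * (b + 1))) hκpos (by linarith)
    (by positivity)
  set φ : Finset ℕ → ℝ → ℝ := fun B y => ∏ l ∈ B, Hf K (y * ρ ^ l) with hφ
  have hφ0 : ∀ B y, 0 ≤ φ B y := fun B y => Finset.prod_nonneg fun l _ => Hf_nonneg _ _
  have hker : ∀ B : Finset ℕ, ∃ N₀ : ℕ, ∀ N ≥ N₀, ∃ L₀ : ℕ, ∀ L ≥ L₀, 0 < L →
      ∀ f : Finset ℕ → ℝ,
      |Ar L (1 / (20 * ρ ^ N) / L)
        (fun y => 2 ^ N * φ B y * ev (sn ρ y) (cn ρ y) (range N) f ^ 2) -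
        ∑ S ∈ (range N).powerset, f S ^ 2| ≤
          (110 * ρ ^ 2 + 1/100) * ∑ S ∈ (range N).powerset, f S ^ 2 :=
    fun B => walsh_kernel h0 h1 hg (TP_prod ρ K B) (by norm_num)
  choose N₀ hN₀ using hker
  set BB : Finset (Finset ℕ) := insert blk (blk.image (fun l => blk.erase l)) with hBB
  refine ⟨max (BB.sup N₀) (blk.sup id + 1), fun N hN δ hδ => ?_⟩
  have hNB : ∀ B ∈ BB, N₀ B ≤ N := fun B hB =>
    (Finset.le_sup (f := N₀) hB).trans ((le_max_left _ _).trans hN)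
  have hblkN : blk ⊆ range N := by
    intro l hl
    rw [Finset.mem_range]
    have e1 : l ≤ blk.sup id := Finset.le_sup (f := id) hl
    have e2 := (le_max_right (BB.sup N₀) (blk.sup id + 1)).trans hN
    omega
  have hL : ∀ B ∈ BB, ∃ L₀ : ℕ, ∀ L ≥ L₀, 0 < L → ∀ f : Finset ℕ → ℝ,
      |Ar L (1 / (20 * ρ ^ N) / L)
        (fun y => 2 ^ N * φ B y * ev (sn ρ y) (cn ρ y) (range N) f ^ 2) -
        ∑ S ∈ (range N).powerset, f S ^ 2| ≤
          (110 * ρ ^ 2 + 1/100) * ∑ S ∈ (range N).powerset, f S ^ 2 :=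
    fun B hB => hN₀ B N (hNB B hB)
  choose! L₀ hL₀ using hL
  obtain ⟨L₁, hL₁⟩ := exists_nat_ge (2 ^ N * (4 ^ K) ^ b / δ)
  set L := max (BB.sup L₀) (max L₁ 1) with hLdef
  have hLpos : 0 < L := by omega
  have hL' : (0:ℝ) < L := Nat.cast_pos.2 hLpos
  have hLL₁ : L₁ ≤ L := by omega
  set R : ℝ := 1 / (20 * ρ ^ N) with hR
  have hρN : 0 < ρ ^ N := pow_pos h0 N
  have hRpos : 0 < R := by positivity
  set h : ℝ := R / L with hh
  have hhpos : 0 < h := div_pos hRpos hL'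
  have hρ2 : 110 * ρ ^ 2 + 1/100 ≤ 3/100 := by nlinarith
  have hest : ∀ B ∈ BB, ∀ f : Finset ℕ → ℝ,
      |Ar L h (fun y => 2 ^ N * φ B y * ev (sn ρ y) (cn ρ y) (range N) f ^ 2) -
        ∑ S ∈ (range N).powerset, f S ^ 2| ≤ 3/100 * ∑ S ∈ (range N).powerset, f S ^ 2 := by
    intro B hB f
    refine (hL₀ B hB L ((Finset.le_sup (f := L₀) hB).trans (le_max_left _ _)) hLpos f).trans ?_
    exact mul_le_mul_of_nonneg_right hρ2 (Finset.sum_nonneg fun S _ => sq_nonneg _)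
  have hblkBB : blk ∈ BB := Finset.mem_insert_self _ _
  -- weights
  set Wf : Finset ℕ → ℝ → ℝ := fun B y => 2 ^ N * φ B y * om L h y with hWf
  have hWf0 : ∀ B y, 0 ≤ Wf B y := fun B y =>
    mul_nonneg (mul_nonneg (by positivity) (hφ0 B y)) (om_nonneg _ _ _)
  have hsumW : ∀ (B : Finset ℕ) (ψ : ℝ → ℝ), ∑ y ∈ Yw L h, Wf B y * ψ y =
      Ar L h (fun y => 2 ^ N * φ B y * ψ y) := by
    intro B ψ
    rw [← sum_window]
    exact Finset.sum_congr rfl fun y _ => by simp only [hWf]; ring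
  set E : ℝ → (Finset ℕ → ℝ) → ℝ := fun y f => ev (sn ρ y) (cn ρ y) (range N) f ^ 2 with hE
  have hE0 : ∀ y f, 0 ≤ E y f := fun y f => sq_nonneg _
  set nf : (Finset ℕ → ℝ) → ℝ := fun f => ∑ S ∈ (range N).powerset, f S ^ 2 with hnf
  have hnf0 : ∀ f, 0 ≤ nf f := fun f => Finset.sum_nonneg fun S _ => sq_nonneg _
  have hup : ∀ B ∈ BB, ∀ f, ∑ y ∈ Yw L h, Wf B y * E y f ≤ 103/100 * nf f := by
    intro B hB f
    have e1 := (abs_le.1 (hest B hB f)).2
    rw [hsumW]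
    simp only [hE, hnf]
    linarith
  have hlow : ∀ B ∈ BB, ∀ f, 97/100 * nf f ≤ ∑ y ∈ Yw L h, Wf B y * E y f := by
    intro B hB f
    have e1 := (abs_le.1 (hest B hB f)).1
    rw [hsumW]
    simp only [hE, hnf]
    linarith
  -- decomposition of `range N`
  set J₁ : Finset ℕ := range N \ blk with hJ₁
  have hd : Disjoint J₁ blk := Finset.sdiff_disjoint
  have hJ : J₁ ∪ blk = range N := Finset.sdiff_union_of_subset hblkN
  have hoff : ∀ f : Finset ℕ → ℝ,
      ∑ y ∈ Yw L h, Wf blk y * ev (sn ρ y) (cn ρ y) J₁ f ^ 2 ≤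
        2 ^ b * (103/100 * ∑ S ∈ J₁.powerset, f S ^ 2) := by
    intro f
    have e1 : ∀ y, ev (sn ρ y) (cn ρ y) J₁ f ^ 2 = ∑ T ∈ blk.powerset, E y (ext J₁ blk T f) := by
      intro y
      rw [ev_sq_eq_sum_ext (sn_sq_add_cn_sq ρ y) hd f, hJ]
    calc ∑ y ∈ Yw L h, Wf blk y * ev (sn ρ y) (cn ρ y) J₁ f ^ 2
        = ∑ T ∈ blk.powerset, ∑ y ∈ Yw L h, Wf blk y * E y (ext J₁ blk T f) := by
          rw [Finset.sum_comm]
          exact Finset.sum_congr rfl fun y _ => by rw [e1, Finset.mul_sum]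
      _ ≤ ∑ T ∈ blk.powerset, 103/100 * ∑ S ∈ J₁.powerset, f S ^ 2 := by
          refine Finset.sum_le_sum fun T hT => ?_
          refine (hup blk hblkBB _).trans (le_of_eq ?_)
          simp only [hnf]
          rw [← hJ, sum_ext_sq hd f (Finset.mem_powerset.1 hT)]
      _ = _ := by
          rw [Finset.sum_const, Finset.card_powerset, nsmul_eq_mul]
          push_cast
          rfl
  have hnfsplit : ∀ f : Finset ℕ → ℝ,
      nf f = ∑ T ∈ blk.powerset, ∑ S ∈ J₁.powerset, f (S ∪ T) ^ 2 := by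
    intro f
    simp only [hnf]
    rw [← hJ, sum_powerset_union hd]
  -- the small part estimate
  have hsmall : ∀ (Z : Finset ℝ), Z ⊆ Yw L h → ∀ f : Finset ℕ → ℝ,
      (∀ y ∈ Z, ∀ T ∈ blk.powerset, pr (sn ρ y) (cn ρ y) blk T ^ 2 ≤ κ ^ 2 ∨
        ∀ S ∈ J₁.powerset, f (S ∪ T) = 0) →
      ∑ y ∈ Z, Wf blk y * E y f ≤ τ ^ 2 / 10000 * (103/100 * nf f) ∧
      ∀ y ∈ Z, E y f ≤ τ ^ 2 / 10000 * nf f := by
    intro Z hZ f hf
    have e1 : ∀ y ∈ Z, E y f ≤ 2 ^ b * κ ^ 2 *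
        ∑ T ∈ blk.powerset, ev (sn ρ y) (cn ρ y) J₁ (fun S => f (S ∪ T)) ^ 2 := by
      intro y hy
      have := ev_sq_le_of_small hd f (hf y hy)
      rwa [hJ] at this
    constructor
    · calc ∑ y ∈ Z, Wf blk y * E y f
          ≤ ∑ y ∈ Z, Wf blk y * (2 ^ b * κ ^ 2 *
            ∑ T ∈ blk.powerset, ev (sn ρ y) (cn ρ y) J₁ (fun S => f (S ∪ T)) ^ 2) :=
            Finset.sum_le_sum fun y hy => mul_le_mul_of_nonneg_left (e1 y hy) (hWf0 _ _)
        _ ≤ ∑ y ∈ Yw L h, Wf blk y * (2 ^ b * κ ^ 2 *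
            ∑ T ∈ blk.powerset, ev (sn ρ y) (cn ρ y) J₁ (fun S => f (S ∪ T)) ^ 2) := by
            refine Finset.sum_le_sum_of_subset_of_nonneg hZ fun y _ _ => ?_
            refine mul_nonneg (hWf0 _ _) (mul_nonneg (by positivity) ?_)
            exact Finset.sum_nonneg fun T _ => sq_nonneg _
        _ = 2 ^ b * κ ^ 2 * ∑ T ∈ blk.powerset, ∑ y ∈ Yw L h, Wf blk y *
              ev (sn ρ y) (cn ρ y) J₁ (fun S => f (S ∪ T)) ^ 2 := by
            rw [Finset.sum_comm, Finset.mul_sum]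
            refine Finset.sum_congr rfl fun y _ => ?_
            rw [Finset.mul_sum, Finset.mul_sum, Finset.mul_sum]
            exact Finset.sum_congr rfl fun T _ => by ring
        _ ≤ 2 ^ b * κ ^ 2 * ∑ T ∈ blk.powerset,
              2 ^ b * (103/100 * ∑ S ∈ J₁.powerset, f (S ∪ T) ^ 2) := by
            apply mul_le_mul_of_nonneg_left _ (by positivity)
            exact Finset.sum_le_sum fun T _ => hoff _
        _ = 2 ^ b * κ ^ 2 * 2 ^ b * (103/100 * nf f) := by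
            rw [hnfsplit, ← Finset.mul_sum, ← Finset.mul_sum]
            ring
        _ = _ := by rw [hκ2]
    · intro y hy
      refine (e1 y hy).trans ?_
      have e2 : ∑ T ∈ blk.powerset, ev (sn ρ y) (cn ρ y) J₁ (fun S => f (S ∪ T)) ^ 2 ≤ nf f := by
        rw [hnfsplit]
        exact Finset.sum_le_sum fun T _ => ev_sq_le (sn_sq_add_cn_sq ρ y) _ _
      have e3 : 2 ^ b * κ ^ 2 ≤ τ ^ 2 / 10000 := by
        rw [← hκ2]
        exact le_mul_of_one_le_right (by positivity) h2b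
      exact mul_le_mul e3 e2 (Finset.sum_nonneg fun T _ => sq_nonneg _) (by positivity)
  -- the sets
  set good : Finset ℝ := (Yw L h).filter (fun y => ∃ l ∈ blk, |cn ρ y l| ≤ κ) with hgood
  set bad : Finset ℝ := (Yw L h).filter (fun y => ¬ ∃ l ∈ blk, |cn ρ y l| ≤ κ) with hbad
  set near : Finset ℝ := bad.filter (fun y => ∀ l ∈ blk, |sn ρ y l| ≤ κ) with hnear
  set mid : Finset ℝ := bad.filter (fun y => ¬ ∀ l ∈ blk, |sn ρ y l| ≤ κ) with hmid
  have hgoodsub : good ⊆ Yw L h := Finset.filter_subset _ _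
  have hbadsub : bad ⊆ Yw L h := Finset.filter_subset _ _
  have hnearsub : near ⊆ Yw L h := (Finset.filter_subset _ _).trans hbadsub
  have hmidsub : mid ⊆ Yw L h := (Finset.filter_subset _ _).trans hbadsub
  set Y : Finset ℝ := good.filter (fun y => 0 < Wf blk y) with hY
  have hYgood : Y ⊆ good := Finset.filter_subset _ _
  have hsumY : ∀ ψ : ℝ → ℝ, ∑ y ∈ Y, Wf blk y * ψ y = ∑ y ∈ good, Wf blk y * ψ y := by
    intro ψ
    refine Finset.sum_subset hYgood fun y hy hy' => ?_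
    have e1 : ¬ 0 < Wf blk y := fun h' => hy' (Finset.mem_filter.2 ⟨hy, h'⟩)
    have e2 : Wf blk y = 0 := le_antisymm (not_lt.1 e1) (hWf0 _ _)
    rw [e2, zero_mul]
  refine ⟨Y, Wf blk, ?_, ?_, ?_, ?_, ?_, ?_⟩
  · intro y hy
    refine ⟨(Finset.mem_filter.1 hy).2, ?_⟩
    have e1 : φ blk y ≤ (4 ^ K) ^ b := by
      simp only [hφ]
      calc ∏ l ∈ blk, Hf K (y * ρ ^ l) ≤ ∏ l ∈ blk, (4:ℝ) ^ K :=
            Finset.prod_le_prod (fun l _ => Hf_nonneg _ _) (fun l _ => Hf_le _ _)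
        _ = _ := by rw [Finset.prod_const]
    have e2 : 2 ^ N * (4 ^ K) ^ b / δ ≤ L := hL₁.trans (Nat.cast_le.2 hLL₁)
    rw [div_le_iff₀ hδ] at e2
    calc Wf blk y = 2 ^ N * φ blk y * om L h y := rfl
      _ ≤ 2 ^ N * (4 ^ K) ^ b * (1 / L) := by
          apply mul_le_mul _ (om_le L hLpos h y hhpos) (om_nonneg _ _ _) (by positivity)
          exact mul_le_mul_of_nonneg_left e1 (by positivity)
      _ ≤ δ := by
          rw [mul_one_div, div_le_iff₀ hL']
          linarith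
  · intro y hy
    have e1 := abs_le_of_mem_Yw L hLpos R hRpos y (hgoodsub (hYgood hy))
    calc |y| * ρ ^ N ≤ R * ρ ^ N := mul_le_mul_of_nonneg_right e1 hρN.le
      _ = 1/20 := by rw [hR]; field_simp
  · intro y hy
    obtain ⟨l, hl, hl'⟩ := (Finset.mem_filter.1 (hYgood hy)).2
    exact ⟨l, hl, by linarith⟩
  · intro f
    rw [hsumY (fun y => E y f)]
    have e1 : ∑ y ∈ good, Wf blk y * E y f ≤ ∑ y ∈ Yw L h, Wf blk y * E y f :=
      Finset.sum_le_sum_of_subset_of_nonneg hgoodsub fun y _ _ =>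
        mul_nonneg (hWf0 _ _) (hE0 _ _)
    have e2 := hup blk hblkBB f
    have e3 := hnf0 f
    simp only [hnf] at e2 e3 ⊢
    linarith
  · intro f hf
    have hcond : ∀ y ∈ good, ∀ T ∈ blk.powerset, pr (sn ρ y) (cn ρ y) blk T ^ 2 ≤ κ ^ 2 ∨
        ∀ S ∈ J₁.powerset, f (S ∪ T) = 0 := by
      intro y hy T hT
      by_cases hT0 : T = ∅
      · left
        obtain ⟨l, hl, hl'⟩ := (Finset.mem_filter.1 hy).2
        rw [hT0]
        refine (pr_sq_le_of_notMem (sn_sq_add_cn_sq ρ y) (Finset.empty_subset _)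
          (Finset.notMem_empty l) hl).trans ?_
        rw [← sq_abs]
        exact pow_le_pow_left₀ (abs_nonneg _) hl' 2
      · right
        intro S hS
        obtain ⟨l, hl⟩ := Finset.nonempty_iff_ne_empty.2 hT0
        have hT' := Finset.mem_powerset.1 hT
        refine hf _ ?_ ⟨l, hT' hl, Finset.mem_union_right _ hl⟩
        rw [Finset.mem_powerset, ← hJ]
        exact Finset.union_subset_union (Finset.mem_powerset.1 hS) hT'
    have e1 := hsmall good hgoodsub f hcond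
    have e3 := hnf0 f
    constructor
    · rw [hsumY (fun y => E y f)]
      refine e1.1.trans ?_
      have e4 : τ ^ 2 / 10000 * (103/100) ≤ τ := by nlinarith
      calc τ ^ 2 / 10000 * (103/100 * nf f) = (τ ^ 2 / 10000 * (103/100)) * nf f := by ring
        _ ≤ τ * nf f := mul_le_mul_of_nonneg_right e4 e3
    · intro y hy
      refine (e1.2 y (hYgood hy)).trans ?_
      have e4 : τ ^ 2 / 10000 ≤ τ := by nlinarith
      exact mul_le_mul_of_nonneg_right e4 e3
  · intro f hf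
    rw [hsumY (fun y => E y f)]
    have e0 := hnf0 f
    have e1 := hlow blk hblkBB f
    have hsplit1 : ∑ y ∈ Yw L h, Wf blk y * E y f = ∑ y ∈ good, Wf blk y * E y f +
        ∑ y ∈ bad, Wf blk y * E y f := (Finset.sum_filter_add_sum_filter_not _ _ _).symm
    have hsplit2 : ∑ y ∈ bad, Wf blk y * E y f = ∑ y ∈ near, Wf blk y * E y f +
        ∑ y ∈ mid, Wf blk y * E y f := (Finset.sum_filter_add_sum_filter_not _ _ _).symm
    -- near
    have hcond : ∀ y ∈ near, ∀ T ∈ blk.powerset, pr (sn ρ y) (cn ρ y) blk T ^ 2 ≤ κ ^ 2 ∨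
        ∀ S ∈ J₁.powerset, f (S ∪ T) = 0 := by
      intro y hy T hT
      have hT' := Finset.mem_powerset.1 hT
      by_cases hT0 : T = ∅
      · right
        intro S hS
        have hS' := Finset.mem_powerset.1 hS
        rw [hT0, Finset.union_empty]
        refine hf S ?_ fun l hl hlS => (Finset.mem_sdiff.1 (hS' hlS)).2 hl
        rw [Finset.mem_powerset, ← hJ]
        exact hS'.trans Finset.subset_union_left
      · left
        obtain ⟨l, hl⟩ := Finset.nonempty_iff_ne_empty.2 hT0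
        refine (pr_sq_le_of_mem (sn_sq_add_cn_sq ρ y) hT' hl).trans ?_
        rw [← sq_abs]
        exact pow_le_pow_left₀ (abs_nonneg _) ((Finset.mem_filter.1 hy).2 l (hT' hl)) 2
    have e2 := (hsmall near hnearsub f hcond).1
    have e3 : ∑ y ∈ near, Wf blk y * E y f ≤ 2/100 * nf f := by
      refine e2.trans ?_
      have : τ ^ 2 / 10000 * (103/100) ≤ 2/100 := by nlinarith
      calc τ ^ 2 / 10000 * (103/100 * nf f) = (τ ^ 2 / 10000 * (103/100)) * nf f := by ring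
        _ ≤ _ := mul_le_mul_of_nonneg_right this e0
    -- mid
    have e4 : ∑ y ∈ mid, Wf blk y * E y f ≤ 2/100 * nf f := by
      have k1 : ∀ y ∈ mid, Wf blk y ≤ 1 / (100 * (b + 1)) * ∑ l ∈ blk, Wf (blk.erase l) y := by
        intro y hy
        have k2 := (Finset.mem_filter.1 hy).2
        have k3 := (Finset.mem_filter.1 (Finset.mem_filter.1 hy).1).2
        push Not at k2 k3
        obtain ⟨l, hl, hl'⟩ := k2
        have k4 := k3 l hl
        have k5 : Hf K (y * ρ ^ l) ≤ 1 / (100 * (b + 1)) := by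
          apply hK
          · have : Real.pi * (y * ρ ^ l) = Real.pi * y * ρ ^ l := by ring
            rw [this]
            exact hl'.le
          · have : Real.pi * (y * ρ ^ l) = Real.pi * y * ρ ^ l := by ring
            rw [this]
            exact k4.le
        have k6 : φ blk y = Hf K (y * ρ ^ l) * φ (blk.erase l) y := by
          simp only [hφ]
          rw [Finset.mul_prod_erase blk (fun l => Hf K (y * ρ ^ l)) hl]
        have k7 : Wf blk y ≤ 1 / (100 * (b + 1)) * Wf (blk.erase l) y := by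
          simp only [hWf]
          rw [k6]
          have k8 : 0 ≤ 2 ^ N * φ (blk.erase l) y * om L h y := hWf0 _ _
          calc 2 ^ N * (Hf K (y * ρ ^ l) * φ (blk.erase l) y) * om L h y
              = Hf K (y * ρ ^ l) * (2 ^ N * φ (blk.erase l) y * om L h y) := by ring
            _ ≤ _ := mul_le_mul_of_nonneg_right k5 k8
        refine k7.trans ?_
        apply mul_le_mul_of_nonneg_left _ (by positivity)
        exact Finset.single_le_sum (f := fun l => Wf (blk.erase l) y) (fun i _ => hWf0 _ _) hl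
      calc ∑ y ∈ mid, Wf blk y * E y f
          ≤ ∑ y ∈ mid, (1 / (100 * (b + 1)) * ∑ l ∈ blk, Wf (blk.erase l) y) * E y f :=
            Finset.sum_le_sum fun y hy => mul_le_mul_of_nonneg_right (k1 y hy) (hE0 _ _)
        _ ≤ ∑ y ∈ Yw L h, (1 / (100 * (b + 1)) * ∑ l ∈ blk, Wf (blk.erase l) y) * E y f := by
            refine Finset.sum_le_sum_of_subset_of_nonneg hmidsub fun y _ _ => ?_
            refine mul_nonneg (mul_nonneg (by positivity) ?_) (hE0 _ _)
            exact Finset.sum_nonneg fun l _ => hWf0 _ _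
        _ = 1 / (100 * (b + 1)) * ∑ l ∈ blk, ∑ y ∈ Yw L h, Wf (blk.erase l) y * E y f := by
            rw [Finset.sum_comm, Finset.mul_sum]
            refine Finset.sum_congr rfl fun y _ => ?_
            rw [mul_assoc, Finset.sum_mul]
        _ ≤ 1 / (100 * (b + 1)) * ∑ l ∈ blk, 103/100 * nf f := by
            apply mul_le_mul_of_nonneg_left _ (by positivity)
            refine Finset.sum_le_sum fun l hl => hup _ ?_ f
            exact Finset.mem_insert_of_mem (Finset.mem_image_of_mem _ hl)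
        _ = (b / (b + 1) * (103/10000)) * nf f := by
            rw [Finset.sum_const, nsmul_eq_mul, ← hb]
            have : (b:ℝ) + 1 ≠ 0 := by positivity
            field_simp
            ring
        _ ≤ 2/100 * nf f := by
            apply mul_le_mul_of_nonneg_right _ e0
            have : (b:ℝ) / (b + 1) ≤ 1 := by
              rw [div_le_one (by positivity)]
              linarith
            nlinarith
    have e5 : 4/5 * nf f ≤ ∑ y ∈ good, Wf blk y * E y f := by linarith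
    exact e5

end Pool.Agent.Helper27.FF
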