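import Mathlib
import Pool.Agent.Helper27.FF.Window
import Pool.Agent.Helper27.FF.Thin

set_option autoImplicit false

open Finset Filter Topology

namespace Pool.Agent.Helper27.FF

/-- the tail product of cosines -/
noncomputable def tl (ρ y : ℝ) (m : ℕ) : ℝ := ∏' j : ℕ, cn ρ y (j + m)

theorem multipliable_cn {ρ : ℝ} (h0 : 0 < ρ) (h1 : ρ ≤ 1/100) (y : ℝ) (m : ℕ) :
    Multipliable (fun j : ℕ => cn ρ y (j + m)) := by
  have h2 : Multipliable (fun j : ℕ => 1 + (cn ρ y (j + m) - 1)) := by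
    refine multipliable_one_add_of_summable ?_
    refine Summable.of_nonneg_of_le (fun j => norm_nonneg _)
      (f := fun j => (Real.pi * |y|) * ρ ^ j) (fun j => ?_)
      ((summable_geometric_of_lt_one h0.le (by linarith)).mul_left _)
    have h3 : |Real.cos (Real.pi * y * ρ ^ (j + m)) - Real.cos 0| ≤
        |Real.pi * y * ρ ^ (j + m) - 0| := Real.abs_cos_sub_cos_le _ _
    rw [Real.cos_zero, sub_zero, abs_mul, abs_mul, abs_of_pos Real.pi_pos,
      abs_of_pos (pow_pos h0 _)] at h3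
    refine h3.trans ?_
    apply mul_le_mul_of_nonneg_left _ (by positivity)
    exact pow_le_pow_of_le_one h0.le (by linarith) (by omega)
  simpa using h2

theorem tendsto_tl {ρ : ℝ} (h0 : 0 < ρ) (h1 : ρ ≤ 1/100) (y : ℝ) (m : ℕ) :
    Tendsto (fun M => ∏ j ∈ range M, cn ρ y (j + m)) atTop (𝓝 (tl ρ y m)) :=
  (multipliable_cn h0 h1 y m).hasProd.tendsto_prod_nat

theorem abs_cn_le (ρ y : ℝ) (j : ℕ) : |cn ρ y j| ≤ 1 := Real.abs_cos_le_one _

theorem tl_succ {ρ : ℝ} (h0 : 0 < ρ) (h1 : ρ ≤ 1/100) (y : ℝ) (m : ℕ) :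
    tl ρ y m = cn ρ y m * tl ρ y (m + 1) := by
  have h2 := (tendsto_tl h0 h1 y m).comp (tendsto_add_atTop_nat 1)
  have h3 := (tendsto_tl h0 h1 y (m + 1)).const_mul (cn ρ y m)
  refine tendsto_nhds_unique h2 (h3.congr fun M => ?_)
  simp only [Function.comp]
  rw [Finset.prod_range_succ', zero_add, mul_comm]
  congr 1
  refine Finset.prod_congr rfl fun j _ => ?_
  congr 1
  omega

theorem tl_eq_prod_mul {ρ : ℝ} (h0 : 0 < ρ) (h1 : ρ ≤ 1/100) (y : ℝ) (N : ℕ) : ∀ m ≥ N,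
    tl ρ y N = (∏ j ∈ Ico N m, cn ρ y j) * tl ρ y m := by
  intro m hm
  induction m, hm using Nat.le_induction with
  | base => simp
  | succ k hk ih =>
    rw [ih, Finset.prod_Ico_succ_top hk, tl_succ h0 h1 y k]
    ring

theorem abs_tl_le {ρ : ℝ} (h0 : 0 < ρ) (h1 : ρ ≤ 1/100) (y : ℝ) (m : ℕ) : |tl ρ y m| ≤ 1 := by
  refine le_of_tendsto (tendsto_tl h0 h1 y m).abs (Eventually.of_forall fun M => ?_)
  rw [Finset.abs_prod]
  exact Finset.prod_le_one (fun _ _ => abs_nonneg _) fun _ _ => abs_cn_le _ _ _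

theorem tl_sq_le {ρ : ℝ} (h0 : 0 < ρ) (h1 : ρ ≤ 1/100) (y : ℝ) (m : ℕ) : tl ρ y m ^ 2 ≤ 1 := by
  rw [← sq_abs]
  exact pow_le_one₀ (abs_nonneg _) (abs_tl_le h0 h1 y m)

theorem sn_sq_le {ρ : ℝ} (h0 : 0 < ρ) {y : ℝ} {N : ℕ} (hy : |y| * ρ ^ N ≤ 1/20) {i : ℕ}
    (hi : N ≤ i) : sn ρ y i ^ 2 ≤ 1/40 * ρ ^ (2 * (i - N)) := by
  have h1 : |sn ρ y i| ≤ Real.pi * (1/20) * ρ ^ (i - N) := by
    have h2 : |sn ρ y i| ≤ |Real.pi * y * ρ ^ i| := Real.abs_sin_le_abs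
    have h3 : |Real.pi * y * ρ ^ i| = Real.pi * (|y| * ρ ^ N) * ρ ^ (i - N) := by
      rw [abs_mul, abs_mul, abs_of_pos Real.pi_pos, abs_of_pos (pow_pos h0 _)]
      have h4 : ρ ^ i = ρ ^ N * ρ ^ (i - N) := by rw [← pow_add]; congr 1; omega
      rw [h4]
      ring
    rw [h3] at h2
    refine h2.trans ?_
    apply mul_le_mul_of_nonneg_right _ (pow_nonneg h0.le _)
    exact mul_le_mul_of_nonneg_left hy Real.pi_pos.le
  have h5 : sn ρ y i ^ 2 ≤ (Real.pi * (1/20) * ρ ^ (i - N)) ^ 2 := by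
    rw [← sq_abs (sn ρ y i)]
    exact pow_le_pow_left₀ (abs_nonneg _) h1 2
  refine h5.trans ?_
  have h6 : (Real.pi * (1/20) * ρ ^ (i - N)) ^ 2 = Real.pi ^ 2 / 400 * ρ ^ (2 * (i - N)) := by
    rw [mul_pow, mul_pow, ← pow_mul, mul_comm (i - N) 2]
    ring
  rw [h6]
  apply mul_le_mul_of_nonneg_right _ (pow_nonneg h0.le _)
  have := Real.pi_lt_d2
  nlinarith [Real.pi_pos]

theorem prod_cn_sq_ge {ρ : ℝ} (h0 : 0 < ρ) {y : ℝ} {m : ℕ}
    (hy : |y| * ρ ^ m ≤ 1/20) (M : ℕ) :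
    1 - ∑ j ∈ range M, (1/40) * (ρ ^ 2) ^ j ≤ (∏ j ∈ range M, cn ρ y (j + m)) ^ 2 := by
  induction M with
  | zero => simp
  | succ M ih =>
    rw [Finset.sum_range_succ, Finset.prod_range_succ, mul_pow]
    set P := (∏ j ∈ range M, cn ρ y (j + m)) ^ 2
    have h2 : P ≤ 1 := by
      simp only [P]
      rw [← sq_abs, Finset.abs_prod]
      exact pow_le_one₀ (Finset.prod_nonneg fun _ _ => abs_nonneg _)
        (Finset.prod_le_one (fun _ _ => abs_nonneg _) fun _ _ => abs_cn_le _ _ _)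
    have h3 : 0 ≤ P := sq_nonneg _
    have h4 := sn_sq_add_cn_sq ρ y (M + m)
    have h5 := sn_sq_le h0 hy (i := M + m) (by omega)
    have h6 : 2 * (M + m - m) = 2 * M := by omega
    rw [h6, pow_mul] at h5
    have h7 : 0 ≤ sn ρ y (M + m) ^ 2 := sq_nonneg _
    have h8 : cn ρ y (M + m) ^ 2 = 1 - sn ρ y (M + m) ^ 2 := by linarith
    rw [h8]
    nlinarith

theorem tl_sq_ge {ρ : ℝ} (h0 : 0 < ρ) (h1 : ρ ≤ 1/100) {y : ℝ} {m : ℕ}
    (hy : |y| * ρ ^ m ≤ 1/20) : 97/100 ≤ tl ρ y m ^ 2 := by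
  refine ge_of_tendsto ((tendsto_tl h0 h1 y m).pow 2) (Eventually.of_forall fun M => ?_)
  refine le_trans ?_ (prod_cn_sq_ge h0 hy M)
  have hr0 : 0 ≤ ρ ^ 2 := sq_nonneg _
  have hr1 : ρ ^ 2 < 1 := by nlinarith
  have h2 : ∑ j ∈ range M, (1/40:ℝ) * (ρ ^ 2) ^ j ≤ 1/40 * (1 - ρ ^ 2)⁻¹ := by
    rw [← Finset.mul_sum]
    apply mul_le_mul_of_nonneg_left _ (by norm_num)
    rw [← tsum_geometric_of_lt_one hr0 hr1]
    exact (summable_geometric_of_lt_one hr0 hr1).sum_le_tsum _ fun j _ => pow_nonneg hr0 j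
  have h3 : (1 - ρ ^ 2)⁻¹ ≤ 10/9 := by
    rw [inv_le_comm₀ (by linarith) (by norm_num)]
    nlinarith
  linarith

/-- the limiting coefficient -/
noncomputable def pw (ρ y : ℝ) (S : Finset ℕ) : ℝ :=
  tl ρ y (S.sup id + 1) * pr (sn ρ y) (cn ρ y) (range (S.sup id + 1)) S

theorem subset_range_sup (S : Finset ℕ) : S ⊆ range (S.sup id + 1) := by
  intro l hl
  rw [Finset.mem_range]
  have e1 : l ≤ S.sup id := Finset.le_sup (f := id) hl
  omega

theorem tl_mul_pr_succ {ρ : ℝ} (h0 : 0 < ρ) (h1 : ρ ≤ 1/100) (y : ℝ) {m : ℕ} {S : Finset ℕ}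
    (hS : S ⊆ range m) : tl ρ y (m + 1) * pr (sn ρ y) (cn ρ y) (range (m + 1)) S =
      tl ρ y m * pr (sn ρ y) (cn ρ y) (range m) S := by
  rw [Finset.range_add_one, pr_insert_left _ _ Finset.notMem_range_self hS, tl_succ h0 h1 y m]
  ring

theorem tl_mul_pr_eq {ρ : ℝ} (h0 : 0 < ρ) (h1 : ρ ≤ 1/100) (y : ℝ) {m : ℕ} {S : Finset ℕ}
    (hS : S ⊆ range m) : ∀ m' ≥ m, tl ρ y m' * pr (sn ρ y) (cn ρ y) (range m') S =
      tl ρ y m * pr (sn ρ y) (cn ρ y) (range m) S := by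
  intro m' hm'
  induction m', hm' using Nat.le_induction with
  | base => rfl
  | succ k hk ih =>
    rw [tl_mul_pr_succ h0 h1 y (hS.trans (Finset.range_subset_range.2 hk)), ih]

theorem pw_eq {ρ : ℝ} (h0 : 0 < ρ) (h1 : ρ ≤ 1/100) (y : ℝ) {m : ℕ} {S : Finset ℕ}
    (hS : S ⊆ range m) : pw ρ y S = tl ρ y m * pr (sn ρ y) (cn ρ y) (range m) S := by
  rw [pw]
  rcases le_total (S.sup id + 1) m with h | h
  · exact (tl_mul_pr_eq h0 h1 y (subset_range_sup S) m h).symm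
  · exact tl_mul_pr_eq h0 h1 y hS _ h

theorem sum_pw_mul {ρ : ℝ} (h0 : 0 < ρ) (h1 : ρ ≤ 1/100) (y : ℝ) (m : ℕ) (f : Finset ℕ → ℝ) :
    ∑ S ∈ (range m).powerset, pw ρ y S * f S =
      tl ρ y m * ev (sn ρ y) (cn ρ y) (range m) f := by
  rw [ev, Finset.mul_sum]
  refine Finset.sum_congr rfl fun S hS => ?_
  rw [pw_eq h0 h1 y (Finset.mem_powerset.1 hS)]
  ring

/-- the part of `f` meeting the block -/
noncomputable def fA (blk : Finset ℕ) (f : Finset ℕ → ℝ) (S : Finset ℕ) : ℝ :=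
  open Classical in if (∃ l ∈ blk, l ∈ S) then f S else 0

noncomputable def fB (blk : Finset ℕ) (f : Finset ℕ → ℝ) (S : Finset ℕ) : ℝ :=
  open Classical in if (∃ l ∈ blk, l ∈ S) then 0 else f S

theorem ev_fA_add_fB (s c : ℕ → ℝ) (J blk : Finset ℕ) (f : Finset ℕ → ℝ) :
    ev s c J f = ev s c J (fA blk f) + ev s c J (fB blk f) := by
  rw [ev, ev, ev, ← Finset.sum_add_distrib]
  refine Finset.sum_congr rfl fun S _ => ?_
  rw [fA, fB]
  split_ifs <;> ring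

/-- the weight of a top part -/
noncomputable def sw (ρ : ℝ) (N : ℕ) (U : Finset ℕ) : ℝ := ρ ^ (U.sup id - N)

/-- the coefficient functions -/
noncomputable def ca (N : ℕ) (blk S : Finset ℕ) : ℝ :=
  open Classical in if S ⊆ range N then (if (∃ l ∈ blk, l ∈ S) then 1 else 0) else 0
noncomputable def cb (N : ℕ) (blk S : Finset ℕ) : ℝ :=
  open Classical in if S ⊆ range N then (if (∃ l ∈ blk, l ∈ S) then 0 else 1) else 0
noncomputable def cd (ρ : ℝ) (N : ℕ) (S : Finset ℕ) : ℝ :=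
  open Classical in if S ⊆ range N then 0 else sw ρ N S

/-- the remainder at a point -/
noncomputable def Dy (ρ y : ℝ) (N m : ℕ) (f : Finset ℕ → ℝ) : ℝ :=
  ∑ U ∈ (Ico N m).powerset.erase ∅, pr (sn ρ y) (cn ρ y) (Ico N m) U *
    ev (sn ρ y) (cn ρ y) (range N) (fun S => f (S ∪ U))

theorem range_union_Ico {N m : ℕ} (h : N ≤ m) : range N ∪ Ico N m = range m := by
  ext x
  simp only [Finset.mem_union, Finset.mem_range, Finset.mem_Ico]
  omega

theorem disjoint_range_Ico (N m : ℕ) : Disjoint (range N) (Ico N m) := by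
  rw [Finset.disjoint_left]
  intro x hx hx'
  simp only [Finset.mem_range, Finset.mem_Ico] at hx hx'
  omega

theorem tl_ev_split {ρ : ℝ} (h0 : 0 < ρ) (h1 : ρ ≤ 1/100) (y : ℝ) {N m : ℕ} (hNm : N ≤ m)
    (f : Finset ℕ → ℝ) :
    tl ρ y m * ev (sn ρ y) (cn ρ y) (range m) f =
      tl ρ y N * ev (sn ρ y) (cn ρ y) (range N) f + tl ρ y m * Dy ρ y N m f := by
  classical
  rw [← range_union_Ico hNm, ev_union _ _ (disjoint_range_Ico N m),
    ← Finset.add_sum_erase _ _ (Finset.empty_mem_powerset (Ico N m)), mul_add]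
  congr 1
  have h2 : pr (sn ρ y) (cn ρ y) (Ico N m) ∅ = ∏ j ∈ Ico N m, cn ρ y j := by
    rw [pr, Finset.prod_empty, one_mul, Finset.sdiff_empty]
  rw [h2, tl_eq_prod_mul h0 h1 y N m hNm]
  simp only [Finset.union_empty]
  ring

theorem sum_pr_sq_div {ρ : ℝ} (h0 : 0 < ρ) (h1 : ρ ≤ 1/100) {y : ℝ} {N : ℕ} (m : ℕ)
    (hy : |y| * ρ ^ N ≤ 1/20) :
    ∑ U ∈ (Ico N m).powerset.erase ∅, pr (sn ρ y) (cn ρ y) (Ico N m) U ^ 2 / sw ρ N U ≤ 1/30 := by
  classical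
  have h2 : ∀ U ∈ (Ico N m).powerset.erase ∅,
      pr (sn ρ y) (cn ρ y) (Ico N m) U ^ 2 / sw ρ N U ≤
      ∑ i ∈ Ico N m, (if i ∈ U then pr (sn ρ y) (cn ρ y) (Ico N m) U ^ 2 else 0) *
        (ρ ^ (i - N))⁻¹ := by
    intro U hU
    obtain ⟨hU0, hU1⟩ := Finset.mem_erase.1 hU
    have hne := Finset.nonempty_iff_ne_empty.2 hU0
    obtain ⟨i, hi, hi'⟩ := Finset.exists_mem_eq_sup U hne id
    have hU2 := Finset.mem_powerset.1 hU1
    have h3 := Finset.single_le_sum (s := Ico N m)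
      (f := fun i => (if i ∈ U then pr (sn ρ y) (cn ρ y) (Ico N m) U ^ 2 else 0) *
        (ρ ^ (i - N))⁻¹) (fun j _ => by positivity) (hU2 hi)
    refine le_trans (le_of_eq ?_) h3
    simp only [hi, if_true, sw, hi', id]
    rw [div_eq_mul_inv]
  refine (Finset.sum_le_sum h2).trans ?_
  rw [Finset.sum_comm]
  have h4 : ∀ i ∈ Ico N m, ∑ U ∈ (Ico N m).powerset.erase ∅,
      (if i ∈ U then pr (sn ρ y) (cn ρ y) (Ico N m) U ^ 2 else 0) * (ρ ^ (i - N))⁻¹ ≤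
      1/40 * ρ ^ (i - N) := by
    intro i hi
    rw [← Finset.sum_mul]
    have h5 : ∑ U ∈ (Ico N m).powerset.erase ∅,
        (if i ∈ U then pr (sn ρ y) (cn ρ y) (Ico N m) U ^ 2 else 0) ≤ sn ρ y i ^ 2 := by
      rw [← sum_pr_sq_mem (sn_sq_add_cn_sq ρ y) (Ico N m) i hi]
      exact Finset.sum_le_sum_of_subset_of_nonneg (Finset.erase_subset _ _)
        fun U _ _ => by positivity
    have h6 := sn_sq_le h0 hy (Finset.mem_Ico.1 hi).1
    have h7 : 0 < ρ ^ (i - N) := pow_pos h0 _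
    calc _ ≤ (1/40 * ρ ^ (2 * (i - N))) * (ρ ^ (i - N))⁻¹ :=
          mul_le_mul_of_nonneg_right (h5.trans h6) (by positivity)
      _ = _ := by
          rw [mul_comm 2 (i - N), pow_mul, sq]
          field_simp
  refine (Finset.sum_le_sum h4).trans ?_
  rw [← Finset.mul_sum, Finset.sum_Ico_eq_sum_range]
  have h8 : ∀ k ∈ range (m - N), ρ ^ (N + k - N) = ρ ^ k := by
    intro k _
    congr 1
    omega
  rw [Finset.sum_congr rfl h8]
  have h9 : ∑ k ∈ range (m - N), ρ ^ k ≤ (1 - ρ)⁻¹ := by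
    rw [← tsum_geometric_of_lt_one h0.le (by linarith)]
    exact (summable_geometric_of_lt_one h0.le (by linarith)).sum_le_tsum _
      fun j _ => pow_nonneg h0.le j
  have h10 : (1 - ρ)⁻¹ ≤ 10/9 := by
    rw [inv_le_comm₀ (by linarith) (by norm_num)]
    linarith
  linarith

theorem Dy_sq_le {ρ : ℝ} (h0 : 0 < ρ) (h1 : ρ ≤ 1/100) {y : ℝ} {N : ℕ} (m : ℕ)
    (hy : |y| * ρ ^ N ≤ 1/20) (f : Finset ℕ → ℝ) :
    Dy ρ y N m f ^ 2 ≤ 1/30 * ∑ U ∈ (Ico N m).powerset.erase ∅,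
      sw ρ N U * ev (sn ρ y) (cn ρ y) (range N) (fun S => f (S ∪ U)) ^ 2 := by
  have hsw : ∀ U, 0 < sw ρ N U := fun U => pow_pos h0 _
  have h2 : Dy ρ y N m f = ∑ U ∈ (Ico N m).powerset.erase ∅,
      (pr (sn ρ y) (cn ρ y) (Ico N m) U / √(sw ρ N U)) *
      (√(sw ρ N U) * ev (sn ρ y) (cn ρ y) (range N) (fun S => f (S ∪ U))) := by
    rw [Dy]
    refine Finset.sum_congr rfl fun U _ => ?_
    have := Real.sqrt_pos.2 (hsw U)
    field_simp
  rw [h2]
  refine (Finset.sum_mul_sq_le_sq_mul_sq _ _ _).trans ?_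
  have h3 : ∑ U ∈ (Ico N m).powerset.erase ∅,
      (pr (sn ρ y) (cn ρ y) (Ico N m) U / √(sw ρ N U)) ^ 2 ≤ 1/30 := by
    refine le_trans (le_of_eq ?_) (sum_pr_sq_div h0 h1 m hy)
    refine Finset.sum_congr rfl fun U _ => ?_
    rw [div_pow, Real.sq_sqrt (hsw U).le]
  have h4 : ∑ U ∈ (Ico N m).powerset.erase ∅,
      (√(sw ρ N U) * ev (sn ρ y) (cn ρ y) (range N) (fun S => f (S ∪ U))) ^ 2 =
      ∑ U ∈ (Ico N m).powerset.erase ∅,
      sw ρ N U * ev (sn ρ y) (cn ρ y) (range N) (fun S => f (S ∪ U)) ^ 2 := by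
    refine Finset.sum_congr rfl fun U _ => ?_
    rw [mul_pow, Real.sq_sqrt (hsw U).le]
  rw [h4]
  exact mul_le_mul_of_nonneg_right h3
    (Finset.sum_nonneg fun U _ => mul_nonneg (hsw U).le (sq_nonneg _))

/-- the top sum in terms of `cd` -/
theorem sum_cd {ρ : ℝ} {N m : ℕ} (hNm : N ≤ m) (f : Finset ℕ → ℝ) :
    ∑ U ∈ (Ico N m).powerset.erase ∅, sw ρ N U * ∑ S ∈ (range N).powerset, f (S ∪ U) ^ 2 =
      ∑ S ∈ (range m).powerset, cd ρ N S * f S ^ 2 := by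
  classical
  rw [← range_union_Ico hNm, sum_powerset_union (disjoint_range_Ico N m),
    ← Finset.add_sum_erase _ _ (Finset.empty_mem_powerset (Ico N m))]
  have h1 : ∑ S ∈ (range N).powerset, cd ρ N (S ∪ ∅) * f (S ∪ ∅) ^ 2 = 0 := by
    refine Finset.sum_eq_zero fun S hS => ?_
    rw [Finset.union_empty, cd, if_pos (Finset.mem_powerset.1 hS), zero_mul]
  rw [h1, zero_add]
  refine Finset.sum_congr rfl fun U hU => ?_
  rw [Finset.mul_sum]
  refine Finset.sum_congr rfl fun S hS => ?_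
  congr 1
  obtain ⟨hU0, hU1⟩ := Finset.mem_erase.1 hU
  obtain ⟨i, hi⟩ := Finset.nonempty_iff_ne_empty.2 hU0
  have hiI := Finset.mem_Ico.1 (Finset.mem_powerset.1 hU1 hi)
  have h2 : ¬ (S ∪ U ⊆ range N) := by
    intro h
    have := Finset.mem_range.1 (h (Finset.mem_union_right S hi))
    omega
  rw [cd, if_neg h2, sw, sw, Finset.sup_union]
  congr 2
  symm
  rw [sup_eq_right]
  refine Finset.sup_le fun j hj => ?_
  have h3 := Finset.mem_range.1 (Finset.mem_powerset.1 hS hj)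
  have h4 : i ≤ U.sup id := Finset.le_sup (f := id) hi
  simp only [id]
  omega

theorem sum_ca {N m : ℕ} (hNm : N ≤ m) (blk : Finset ℕ) (f : Finset ℕ → ℝ) :
    ∑ S ∈ (range N).powerset, fA blk f S ^ 2 = ∑ S ∈ (range m).powerset, ca N blk S * f S ^ 2 := by
  classical
  have hsub : (range N).powerset ⊆ (range m).powerset :=
    Finset.powerset_mono.2 (Finset.range_subset_range.2 hNm)
  rw [← Finset.sum_subset hsub (f := fun S => ca N blk S * f S ^ 2) (fun S _ hS => by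
    rw [ca, if_neg (fun h => hS (Finset.mem_powerset.2 h)), zero_mul])]
  refine Finset.sum_congr rfl fun S hS => ?_
  rw [ca, fA, if_pos (Finset.mem_powerset.1 hS)]
  split_ifs <;> simp

theorem sum_cb {N m : ℕ} (hNm : N ≤ m) (blk : Finset ℕ) (f : Finset ℕ → ℝ) :
    ∑ S ∈ (range N).powerset, fB blk f S ^ 2 = ∑ S ∈ (range m).powerset, cb N blk S * f S ^ 2 := by
  classical
  have hsub : (range N).powerset ⊆ (range m).powerset :=
    Finset.powerset_mono.2 (Finset.range_subset_range.2 hNm)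
  rw [← Finset.sum_subset hsub (f := fun S => cb N blk S * f S ^ 2) (fun S _ hS => by
    rw [cb, if_neg (fun h => hS (Finset.mem_powerset.2 h)), zero_mul])]
  refine Finset.sum_congr rfl fun S hS => ?_
  rw [cb, fB, if_pos (Finset.mem_powerset.1 hS)]
  split_ifs <;> simp

end Pool.Agent.Helper27.FF
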