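import Mathlib
import Pool.Agent.Helper27.FF.Piece

set_option autoImplicit false

open Finset Filter Topology

namespace Pool.Agent.Helper27.FF

theorem ca_nonneg (N : ℕ) (blk S : Finset ℕ) : 0 ≤ ca N blk S := by
  rw [ca]
  split_ifs <;> norm_num

theorem cb_nonneg (N : ℕ) (blk S : Finset ℕ) : 0 ≤ cb N blk S := by
  rw [cb]
  split_ifs <;> norm_num

theorem cd_nonneg {ρ : ℝ} (h0 : 0 < ρ) (N : ℕ) (S : Finset ℕ) : 0 ≤ cd ρ N S := by
  rw [cd]
  split_ifs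
  · exact le_refl _
  · exact (pow_pos h0 _).le

/-- the diagonal weight -/
noncomputable def rr (ρ τ : ℝ) (N : ℕ) (blk S : Finset ℕ) : ℝ :=
  ca N blk S + τ * cb N blk S + cd ρ N S

theorem rr_pos {ρ τ : ℝ} (h0 : 0 < ρ) (hτ : 0 < τ) (N : ℕ) (blk S : Finset ℕ) :
    0 < rr ρ τ N blk S := by
  rw [rr, ca, cb, cd]
  split_ifs
  · simp
  · simpa using hτ
  · simpa [sw] using pow_pos h0 _

section
variable {ρ : ℝ} (h0 : 0 < ρ) (h1 : ρ ≤ 1/100) {τ : ℝ} (hτ : 0 < τ) {blk : Finset ℕ} {N m : ℕ}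
  (hNm : N ≤ m)
include h0 h1 hτ hNm

theorem piece_level (Y : Finset ℝ) (W : ℝ → ℝ) (hW : ∀ y ∈ Y, 0 < W y)
    (hY : ∀ y ∈ Y, |y| * ρ ^ N ≤ 1/20)
    (hup : ∀ f : Finset ℕ → ℝ, ∑ y ∈ Y, W y * ev (sn ρ y) (cn ρ y) (range N) f ^ 2 ≤
        11/10 * ∑ S ∈ (range N).powerset, f S ^ 2)
    (hB : ∀ f : Finset ℕ → ℝ, (∀ S ∈ (range N).powerset, (∃ l ∈ blk, l ∈ S) → f S = 0) →
        ∑ y ∈ Y, W y * ev (sn ρ y) (cn ρ y) (range N) f ^ 2 ≤
          τ * ∑ S ∈ (range N).powerset, f S ^ 2 ∧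
        ∀ y ∈ Y, ev (sn ρ y) (cn ρ y) (range N) f ^ 2 ≤
          τ * ∑ S ∈ (range N).powerset, f S ^ 2)
    (hA : ∀ f : Finset ℕ → ℝ, (∀ S ∈ (range N).powerset, (∀ l ∈ blk, l ∉ S) → f S = 0) →
        4/5 * ∑ S ∈ (range N).powerset, f S ^ 2 ≤
          ∑ y ∈ Y, W y * ev (sn ρ y) (cn ρ y) (range N) f ^ 2)
    (f : Finset ℕ → ℝ) :
    (∀ y ∈ Y, (∑ S ∈ (range m).powerset, pw ρ y S * f S) ^ 2 ≤
      ∑ S ∈ (range m).powerset, 7 * rr ρ τ N blk S * f S ^ 2) ∧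
    (∑ y ∈ Y, W y * (∑ S ∈ (range m).powerset, pw ρ y S * f S) ^ 2 ≤
      33/10 * ∑ S ∈ (range m).powerset, rr ρ τ N blk S * f S ^ 2) ∧
    (∑ S ∈ (range m).powerset, (38/100 * ca N blk S - 2 * (τ * cb N blk S) -
      8/100 * cd ρ N S) * f S ^ 2 ≤
      ∑ y ∈ Y, W y * (∑ S ∈ (range m).powerset, pw ρ y S * f S) ^ 2) := by
  classical
  set CA := ∑ S ∈ (range m).powerset, ca N blk S * f S ^ 2 with hCA
  set CB := ∑ S ∈ (range m).powerset, cb N blk S * f S ^ 2 with hCB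
  set CD := ∑ S ∈ (range m).powerset, cd ρ N S * f S ^ 2 with hCD
  have hCA0 : 0 ≤ CA := Finset.sum_nonneg fun S _ => mul_nonneg (ca_nonneg _ _ _) (sq_nonneg _)
  have hCB0 : 0 ≤ CB := Finset.sum_nonneg fun S _ => mul_nonneg (cb_nonneg _ _ _) (sq_nonneg _)
  have hCD0 : 0 ≤ CD := Finset.sum_nonneg fun S _ => mul_nonneg (cd_nonneg h0 _ _) (sq_nonneg _)
  have hrr : ∑ S ∈ (range m).powerset, rr ρ τ N blk S * f S ^ 2 = CA + τ * CB + CD := by
    rw [hCA, hCB, hCD, Finset.mul_sum, ← Finset.sum_add_distrib, ← Finset.sum_add_distrib]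
    refine Finset.sum_congr rfl fun S _ => ?_
    rw [rr]
    ring
  have hrr7 : ∑ S ∈ (range m).powerset, 7 * rr ρ τ N blk S * f S ^ 2 =
      7 * (CA + τ * CB + CD) := by
    rw [← hrr, Finset.mul_sum]
    exact Finset.sum_congr rfl fun S _ => by ring
  have hlc : ∑ S ∈ (range m).powerset, (38/100 * ca N blk S - 2 * (τ * cb N blk S) -
      8/100 * cd ρ N S) * f S ^ 2 = 38/100 * CA - 2 * τ * CB - 8/100 * CD := by
    rw [hCA, hCB, hCD, Finset.mul_sum, Finset.mul_sum, Finset.mul_sum, ← Finset.sum_sub_distrib,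
      ← Finset.sum_sub_distrib]
    exact Finset.sum_congr rfl fun S _ => by ring
  -- the three parts
  set a : ℝ → ℝ := fun y => ev (sn ρ y) (cn ρ y) (range N) (fA blk f) with ha
  set b : ℝ → ℝ := fun y => ev (sn ρ y) (cn ρ y) (range N) (fB blk f) with hb
  set d : ℝ → ℝ := fun y => Dy ρ y N m f with hd
  have hdec : ∀ y, ∑ S ∈ (range m).powerset, pw ρ y S * f S =
      tl ρ y N * a y + tl ρ y N * b y + tl ρ y m * d y := by
    intro y
    rw [sum_pw_mul h0 h1, tl_ev_split h0 h1 y hNm, ev_fA_add_fB _ _ _ blk]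
    ring
  have hsA : ∑ S ∈ (range N).powerset, fA blk f S ^ 2 = CA := sum_ca hNm blk f
  have hsB : ∑ S ∈ (range N).powerset, fB blk f S ^ 2 = CB := sum_cb hNm blk f
  have ha1 : ∀ y, a y ^ 2 ≤ CA := fun y => by
    rw [← hsA]
    exact ev_sq_le (sn_sq_add_cn_sq ρ y) _ _
  have hBf := hB (fB blk f) (fun S _ hS => by rw [fB, if_pos hS])
  have hAf := hA (fA blk f) (fun S _ hS => by
    rw [fA, if_neg]
    rintro ⟨l, hl, hl'⟩
    exact hS l hl hl')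
  have hUf := hup (fA blk f)
  rw [hsB] at hBf
  rw [hsA] at hAf hUf
  have hd1 : ∀ y ∈ Y, d y ^ 2 ≤ 1/30 * CD := by
    intro y hy
    refine (Dy_sq_le h0 h1 m (hY y hy) f).trans ?_
    apply mul_le_mul_of_nonneg_left _ (by norm_num)
    rw [hCD, ← sum_cd hNm f]
    refine Finset.sum_le_sum fun U _ => ?_
    exact mul_le_mul_of_nonneg_left (ev_sq_le (sn_sq_add_cn_sq ρ y) _ _) (pow_pos h0 _).le
  have hd2 : ∑ y ∈ Y, W y * d y ^ 2 ≤ 11/300 * CD := by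
    calc ∑ y ∈ Y, W y * d y ^ 2
        ≤ ∑ y ∈ Y, W y * (1/30 * ∑ U ∈ (Ico N m).powerset.erase ∅,
            sw ρ N U * ev (sn ρ y) (cn ρ y) (range N) (fun S => f (S ∪ U)) ^ 2) :=
          Finset.sum_le_sum fun y hy =>
            mul_le_mul_of_nonneg_left (Dy_sq_le h0 h1 m (hY y hy) f) (hW y hy).le
      _ = 1/30 * ∑ U ∈ (Ico N m).powerset.erase ∅, sw ρ N U *
            ∑ y ∈ Y, W y * ev (sn ρ y) (cn ρ y) (range N) (fun S => f (S ∪ U)) ^ 2 := by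
          rw [Finset.mul_sum]
          simp only [Finset.mul_sum]
          rw [Finset.sum_comm]
          refine Finset.sum_congr rfl fun U _ => Finset.sum_congr rfl fun y _ => by ring
      _ ≤ 1/30 * ∑ U ∈ (Ico N m).powerset.erase ∅, sw ρ N U *
            (11/10 * ∑ S ∈ (range N).powerset, f (S ∪ U) ^ 2) := by
          apply mul_le_mul_of_nonneg_left _ (by norm_num)
          exact Finset.sum_le_sum fun U _ =>
            mul_le_mul_of_nonneg_left (hup _) (pow_pos h0 _).le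
      _ = 11/300 * CD := by
          rw [hCD, ← sum_cd hNm f, Finset.mul_sum, Finset.mul_sum]
          exact Finset.sum_congr rfl fun U _ => by ring
  have hpt : ∀ y ∈ Y, (∑ S ∈ (range m).powerset, pw ρ y S * f S) ^ 2 ≤
      3 * (a y ^ 2 + b y ^ 2 + d y ^ 2) := by
    intro y _
    rw [hdec y]
    have e1 := tl_sq_le h0 h1 y N
    have e2 := tl_sq_le h0 h1 y m
    have e3 : (tl ρ y N * a y + tl ρ y N * b y + tl ρ y m * d y) ^ 2 ≤
        3 * ((tl ρ y N * a y) ^ 2 + (tl ρ y N * b y) ^ 2 + (tl ρ y m * d y) ^ 2) := by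
      nlinarith [sq_nonneg (tl ρ y N * a y - tl ρ y N * b y),
        sq_nonneg (tl ρ y N * a y - tl ρ y m * d y), sq_nonneg (tl ρ y N * b y - tl ρ y m * d y)]
    have e4 : (tl ρ y N * a y) ^ 2 ≤ a y ^ 2 := by
      rw [mul_pow]
      exact mul_le_of_le_one_left (sq_nonneg _) e1
    have e5 : (tl ρ y N * b y) ^ 2 ≤ b y ^ 2 := by
      rw [mul_pow]
      exact mul_le_of_le_one_left (sq_nonneg _) e1
    have e6 : (tl ρ y m * d y) ^ 2 ≤ d y ^ 2 := by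
      rw [mul_pow]
      exact mul_le_of_le_one_left (sq_nonneg _) e2
    linarith
  refine ⟨?_, ?_, ?_⟩
  · intro y hy
    rw [hrr7]
    have e1 := hpt y hy
    have e2 := ha1 y
    have e3 := hBf.2 y hy
    have e4 := hd1 y hy
    have e5 : 0 ≤ τ * CB := by positivity
    have e6 : b y ^ 2 ≤ τ * CB := e3
    linarith
  · rw [hrr]
    calc ∑ y ∈ Y, W y * (∑ S ∈ (range m).powerset, pw ρ y S * f S) ^ 2
        ≤ ∑ y ∈ Y, W y * (3 * (a y ^ 2 + b y ^ 2 + d y ^ 2)) :=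
          Finset.sum_le_sum fun y hy => mul_le_mul_of_nonneg_left (hpt y hy) (hW y hy).le
      _ = 3 * (∑ y ∈ Y, W y * a y ^ 2 + ∑ y ∈ Y, W y * b y ^ 2 + ∑ y ∈ Y, W y * d y ^ 2) := by
          rw [← Finset.sum_add_distrib, ← Finset.sum_add_distrib, Finset.mul_sum]
          exact Finset.sum_congr rfl fun y _ => by ring
      _ ≤ _ := by
          have e5 : 0 ≤ τ * CB := by positivity
          have e6 : ∑ y ∈ Y, W y * b y ^ 2 ≤ τ * CB := hBf.1
          have e7 : ∑ y ∈ Y, W y * a y ^ 2 ≤ 11/10 * CA := hUf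
          linarith
  · rw [hlc]
    have hpt2 : ∀ y ∈ Y, 485/1000 * a y ^ 2 - 2 * b y ^ 2 - 2 * d y ^ 2 ≤
        (∑ S ∈ (range m).powerset, pw ρ y S * f S) ^ 2 := by
      intro y hy
      rw [hdec y]
      have e1 := tl_sq_le h0 h1 y N
      have e2 := tl_sq_le h0 h1 y m
      have e7 := tl_sq_ge h0 h1 (hY y hy)
      have e3 : 1/2 * (tl ρ y N * a y) ^ 2 - 2 * (tl ρ y N * b y) ^ 2 -
          2 * (tl ρ y m * d y) ^ 2 ≤
          (tl ρ y N * a y + tl ρ y N * b y + tl ρ y m * d y) ^ 2 := by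
        nlinarith [sq_nonneg (tl ρ y N * a y + 2 * (tl ρ y N * b y + tl ρ y m * d y)),
          sq_nonneg (tl ρ y N * b y - tl ρ y m * d y)]
      have e4 : 97/100 * a y ^ 2 ≤ (tl ρ y N * a y) ^ 2 := by
        rw [mul_pow]
        exact mul_le_mul_of_nonneg_right e7 (sq_nonneg _)
      have e5 : (tl ρ y N * b y) ^ 2 ≤ b y ^ 2 := by
        rw [mul_pow]
        exact mul_le_of_le_one_left (sq_nonneg _) e1
      have e6 : (tl ρ y m * d y) ^ 2 ≤ d y ^ 2 := by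
        rw [mul_pow]
        exact mul_le_of_le_one_left (sq_nonneg _) e2
      linarith
    calc 38/100 * CA - 2 * τ * CB - 8/100 * CD
        ≤ 485/1000 * ∑ y ∈ Y, W y * a y ^ 2 - 2 * ∑ y ∈ Y, W y * b y ^ 2 -
            2 * ∑ y ∈ Y, W y * d y ^ 2 := by
          have e5 : 0 ≤ τ * CB := by positivity
          have e6 : ∑ y ∈ Y, W y * b y ^ 2 ≤ τ * CB := hBf.1
          have e7 : 4/5 * CA ≤ ∑ y ∈ Y, W y * a y ^ 2 := hAf
          linarith
      _ = ∑ y ∈ Y, W y * (485/1000 * a y ^ 2 - 2 * b y ^ 2 - 2 * d y ^ 2) := by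
          rw [Finset.mul_sum, Finset.mul_sum, Finset.mul_sum, ← Finset.sum_sub_distrib,
            ← Finset.sum_sub_distrib]
          exact Finset.sum_congr rfl fun y _ => by ring
      _ ≤ _ := Finset.sum_le_sum fun y hy => mul_le_mul_of_nonneg_left (hpt2 y hy) (hW y hy).le

end

theorem exists_level (T : Finset (Finset ℕ)) (N : ℕ) :
    ∃ m ≥ N, T ⊆ (range m).powerset := by
  refine ⟨max N (T.sup (fun S => S.sup id + 1)), le_max_left _ _, fun S hS => ?_⟩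
  rw [Finset.mem_powerset]
  refine (subset_range_sup S).trans (Finset.range_subset_range.2 ?_)
  exact (Finset.le_sup (f := fun S : Finset ℕ => S.sup id + 1) hS).trans (le_max_right _ _)

theorem sum_restrict {T P : Finset (Finset ℕ)} (h : T ⊆ P) (g f : Finset ℕ → ℝ) :
    ∑ S ∈ P, g S * (open Classical in if S ∈ T then f S else 0) = ∑ S ∈ T, g S * f S := by
  classical
  rw [← Finset.sum_subset h (fun S _ hS => by rw [if_neg hS, mul_zero])]
  exact Finset.sum_congr rfl fun S hS => by rw [if_pos hS]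

theorem sum_restrict_sq {T P : Finset (Finset ℕ)} (h : T ⊆ P) (g f : Finset ℕ → ℝ) :
    ∑ S ∈ P, g S * (open Classical in if S ∈ T then f S else 0) ^ 2 =
      ∑ S ∈ T, g S * f S ^ 2 := by
  classical
  rw [← Finset.sum_subset h (fun S _ hS => by rw [if_neg hS]; ring)]
  exact Finset.sum_congr rfl fun S hS => by rw [if_pos hS]

theorem piece {ρ : ℝ} (h0 : 0 < ρ) (h1 : ρ ≤ 1/100) (hg : Gen ρ) (blk : Finset ℕ) {τ : ℝ}
    (hτ : 0 < τ) (hτ1 : τ ≤ 1) :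
    ∃ N₀ : ℕ, ∀ N ≥ N₀, ∀ δ > 0, 24 * √δ ≤ 1 → ∃ A : Finset ℝ,
      (∀ y ∈ A, |y| * ρ ^ N ≤ 1/20) ∧ (∀ y ∈ A, ∃ l ∈ blk, |cn ρ y l| ≤ 1/10) ∧
      ∀ (T : Finset (Finset ℕ)) (f : Finset ℕ → ℝ),
        δ * ∑ y ∈ A, (∑ S ∈ T, pw ρ y S * f S) ^ 2 ≤
          14 * ∑ S ∈ T, rr ρ τ N blk S * f S ^ 2 ∧
        ∑ S ∈ T, (38/100 * ca N blk S - 2 * (τ * cb N blk S) - 8/100 * cd ρ N S -
          84 * √δ * rr ρ τ N blk S) * f S ^ 2 ≤
          δ * ∑ y ∈ A, (∑ S ∈ T, pw ρ y S * f S) ^ 2 := by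
  classical
  obtain ⟨N₀, hN₀⟩ := window h0 h1 hg blk hτ hτ1
  refine ⟨N₀, fun N hN δ hδ hδ1 => ?_⟩
  obtain ⟨Y, W, hW, hY, hY2, hup, hB, hA⟩ := hN₀ N hN δ hδ
  have hlev : ∀ (T : Finset (Finset ℕ)) (f : Finset ℕ → ℝ),
      (∀ y ∈ Y, (∑ S ∈ T, pw ρ y S * f S) ^ 2 ≤ ∑ S ∈ T, 7 * rr ρ τ N blk S * f S ^ 2) ∧
      (∑ y ∈ Y, W y * (∑ S ∈ T, pw ρ y S * f S) ^ 2 ≤
        33/10 * ∑ S ∈ T, rr ρ τ N blk S * f S ^ 2) ∧
      (∑ S ∈ T, (38/100 * ca N blk S - 2 * (τ * cb N blk S) -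
        8/100 * cd ρ N S) * f S ^ 2 ≤
        ∑ y ∈ Y, W y * (∑ S ∈ T, pw ρ y S * f S) ^ 2) := by
    intro T f
    obtain ⟨m, hm, hT⟩ := exists_level T N
    have h := piece_level h0 h1 hτ hm Y W (fun y hy => (hW y hy).1) hY hup hB hA
      (fun S => if S ∈ T then f S else 0)
    simp only [sum_restrict hT, sum_restrict_sq hT] at h
    exact h
  obtain ⟨A, hAY, hthin⟩ := thin (fun y S => pw ρ y S) (fun S => 7 * rr ρ τ N blk S)
    (fun S => by have := rr_pos h0 hτ N blk S; positivity) δ hδ hδ1 Y W hW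
    (fun y hy T f => (hlev T f).1 y hy)
    (fun T f => by
      refine (hlev T f).2.1.trans ?_
      have e1 : ∑ S ∈ T, 7 * rr ρ τ N blk S * f S ^ 2 =
          7 * ∑ S ∈ T, rr ρ τ N blk S * f S ^ 2 := by
        rw [Finset.mul_sum]
        exact Finset.sum_congr rfl fun S _ => by ring
      have e2 : 0 ≤ ∑ S ∈ T, rr ρ τ N blk S * f S ^ 2 :=
        Finset.sum_nonneg fun S _ => mul_nonneg (rr_pos h0 hτ N blk S).le (sq_nonneg _)
      rw [e1]
      linarith)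
  refine ⟨A, fun y hy => hY y (hAY hy), fun y hy => hY2 y (hAY hy), fun T f => ?_⟩
  have e1 : ∑ S ∈ T, 7 * rr ρ τ N blk S * f S ^ 2 =
      7 * ∑ S ∈ T, rr ρ τ N blk S * f S ^ 2 := by
    rw [Finset.mul_sum]
    exact Finset.sum_congr rfl fun S _ => by ring
  have e2 : 0 ≤ ∑ S ∈ T, rr ρ τ N blk S * f S ^ 2 :=
    Finset.sum_nonneg fun S _ => mul_nonneg (rr_pos h0 hτ N blk S).le (sq_nonneg _)
  have e3 := hthin T f
  have e4 := hlev T f
  rw [e1] at e3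
  constructor
  · refine e3.2.trans ?_
    have e5 := e4.2.1
    nlinarith
  · refine le_trans ?_ e3.1
    have e5 := e4.2.2
    have e6 : ∑ S ∈ T, (38/100 * ca N blk S - 2 * (τ * cb N blk S) - 8/100 * cd ρ N S -
          84 * √δ * rr ρ τ N blk S) * f S ^ 2 =
        ∑ S ∈ T, (38/100 * ca N blk S - 2 * (τ * cb N blk S) - 8/100 * cd ρ N S) * f S ^ 2 -
          84 * √δ * ∑ S ∈ T, rr ρ τ N blk S * f S ^ 2 := by
      rw [Finset.mul_sum, ← Finset.sum_sub_distrib]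
      exact Finset.sum_congr rfl fun S _ => by ring
    rw [e6]
    linarith

end Pool.Agent.Helper27.FF
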