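import Mathlib
import Pool.Agent.Helper27.FF.Piece2

set_option autoImplicit false

open Finset Filter Topology

namespace Pool.Agent.Helper27.FF

theorem card_le_two_of {s : Finset ℕ} (h : ∀ a ∈ s, ∀ b ∈ s, a < b → b ≤ a + 1) :
    s.card ≤ 2 := by
  rcases s.eq_empty_or_nonempty with hs | hs
  · simp [hs]
  · have hsub : s ⊆ {s.min' hs, s.min' hs + 1} := by
      intro b hb
      have h1 := s.min'_le b hb
      rcases h1.lt_or_eq with h2 | h2
      · have := h _ (s.min'_mem hs) b hb h2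
        simp only [Finset.mem_insert, Finset.mem_singleton]
        omega
      · simp [← h2]
    exact (Finset.card_le_card hsub).trans Finset.card_le_two

theorem exists_seq (N₀ : ℕ → Finset ℕ → ℕ) : ∃ n : ℕ → ℕ, n 0 = 0 ∧ StrictMono n ∧
    ∀ k, N₀ k (Ico (n k) (n (k + 1))) ≤ n (k + 2) := by
  let s : ℕ → ℕ × ℕ := fun k => Nat.rec (0, 1)
    (fun k p => (p.2, max (N₀ k (Ico p.1 p.2)) (p.2 + 1))) k
  have hs : ∀ k, s (k + 1) = ((s k).2, max (N₀ k (Ico (s k).1 (s k).2)) ((s k).2 + 1)) :=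
    fun k => rfl
  have h1 : ∀ k, (s (k + 1)).1 = (s k).2 := fun k => by rw [hs]
  have h2 : ∀ k, (s k).1 < (s k).2 := by
    intro k
    induction k with
    | zero => exact Nat.zero_lt_one
    | succ k ih =>
      rw [hs]
      simp only
      omega
  refine ⟨fun k => (s k).1, rfl, strictMono_nat_of_lt_succ fun k => ?_, fun k => ?_⟩
  · rw [h1]
    exact h2 k
  · show N₀ k (Ico (s k).1 (s (k + 1)).1) ≤ (s (k + 2)).1
    rw [h1, h1 (k + 1), hs k]
    exact le_max_left _ _

section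
variable {n : ℕ → ℕ} (hn0 : n 0 = 0) (hn : StrictMono n)
include hn0 hn

theorem exists_block (M : ℕ) : ∃ j, n j ≤ M ∧ M < n (j + 1) := by
  have h1 : ∃ k, M < n k := ⟨M + 1, lt_of_lt_of_le (Nat.lt_succ_self M) (hn.id_le (M + 1))⟩
  classical
  have h2 := Nat.find_spec h1
  have h3 : Nat.find h1 ≠ 0 := by
    intro h
    rw [h, hn0] at h2
    omega
  obtain ⟨j, hj⟩ := Nat.exists_eq_succ_of_ne_zero h3
  refine ⟨j, ?_, ?_⟩
  · have h4 := Nat.find_min h1 (m := j) (by omega)
    omega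
  · rw [hj] at h2
    exact h2

omit hn0 hn in
theorem sup_mem_of_ne {S : Finset ℕ} (hS : S ≠ ∅) : S.sup id ∈ S := by
  obtain ⟨i, hi, hi'⟩ := Finset.exists_mem_eq_sup S (Finset.nonempty_iff_ne_empty.2 hS) id
  rw [hi']
  exact hi

theorem sum_ca_le (S : Finset ℕ) (K : ℕ) :
    ∑ k ∈ range K, ca (n (k + 2)) (Ico (n k) (n (k + 1))) S ≤ 2 := by
  classical
  by_cases hS : S = ∅
  · subst hS
    have : ∀ k ∈ range K, ca (n (k + 2)) (Ico (n k) (n (k + 1))) ∅ = 0 := by
      intro k _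
      simp [ca]
    rw [Finset.sum_eq_zero this]
    norm_num
  · obtain ⟨j, hj1, hj2⟩ := exists_block hn0 hn (S.sup id)
    have hsup := sup_mem_of_ne hS
    have h1 : ∀ k ∈ range K, ca (n (k + 2)) (Ico (n k) (n (k + 1))) S ≤
        if k ∈ ({j - 1, j} : Finset ℕ) then 1 else 0 := by
      intro k _
      rw [ca]
      split_ifs with h2 h3 h4
      · exact le_refl _
      · exfalso
        apply h4
        obtain ⟨l, hl, hlS⟩ := h3
        rw [Finset.mem_Ico] at hl
        have h5 := Finset.mem_range.1 (h2 hsup)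
        have h6 : l ≤ S.sup id := Finset.le_sup (f := id) hlS
        have h7 : k < j + 1 := hn.lt_iff_lt.1 (by omega)
        have h8 : j < k + 2 := hn.lt_iff_lt.1 (by omega)
        simp only [Finset.mem_insert, Finset.mem_singleton]
        omega
      · norm_num
      · norm_num
      · norm_num
      · norm_num
    refine (Finset.sum_le_sum h1).trans ?_
    rw [← Finset.sum_filter, Finset.sum_const, nsmul_eq_mul, mul_one]
    have h9 : ((range K).filter (fun k => k ∈ ({j - 1, j} : Finset ℕ))).card ≤ 2 := by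
      refine (Finset.card_le_card (t := {j - 1, j}) ?_).trans Finset.card_le_two
      intro x hx
      exact (Finset.mem_filter.1 hx).2
    exact_mod_cast h9

theorem one_le_sum_ca {S : Finset ℕ} (hS : S ≠ ∅) {K : ℕ} (hK : S.sup id < K) :
    1 ≤ ∑ k ∈ range K, ca (n (k + 2)) (Ico (n k) (n (k + 1))) S := by
  classical
  obtain ⟨j, hj1, hj2⟩ := exists_block hn0 hn (S.sup id)
  have hsup := sup_mem_of_ne hS
  have hjK : j ∈ range K := by
    rw [Finset.mem_range]
    have : j ≤ n j := hn.id_le j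
    omega
  have h1 : ca (n (j + 2)) (Ico (n j) (n (j + 1))) S = 1 := by
    rw [ca, if_pos, if_pos]
    · exact ⟨S.sup id, Finset.mem_Ico.2 ⟨hj1, hj2⟩, hsup⟩
    · intro l hl
      rw [Finset.mem_range]
      have h6 : l ≤ S.sup id := Finset.le_sup (f := id) hl
      have h7 : n (j + 1) < n (j + 2) := hn (Nat.lt_succ_self _)
      omega
  rw [← h1]
  exact Finset.single_le_sum (f := fun k => ca (n (k + 2)) (Ico (n k) (n (k + 1))) S)
    (fun k _ => ca_nonneg _ _ _) hjK

theorem sum_cd_le {ρ : ℝ} (h0 : 0 < ρ) (h1 : ρ ≤ 1/100) (S : Finset ℕ) (K : ℕ) :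
    ∑ k ∈ range K, cd ρ (n (k + 2)) S ≤ 10/9 := by
  classical
  by_cases hS : S = ∅
  · subst hS
    have : ∀ k ∈ range K, cd ρ (n (k + 2)) ∅ = 0 := by
      intro k _
      simp [cd]
    rw [Finset.sum_eq_zero this]
    norm_num
  · obtain ⟨j, hj1, hj2⟩ := exists_block hn0 hn (S.sup id)
    have h2 : ∀ k ∈ range K, cd ρ (n (k + 2)) S ≤
        if k ∈ range (j - 1) then ρ ^ (j - 1 - 1 - k) else 0 := by
      intro k _
      rw [cd]
      split_ifs with h3 h4 h4
      · exact (pow_pos h0 _).le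
      · exact le_refl _
      · rw [sw]
        apply pow_le_pow_of_le_one h0.le (by linarith)
        have h5 : ∀ i, n (k + 2) + i ≤ n (k + 2 + i) := by
          intro i
          induction i with
          | zero => simp
          | succ i ih =>
            have : n (k + 2 + i) < n (k + 2 + i + 1) := hn (Nat.lt_succ_self _)
            show n (k + 2) + (i + 1) ≤ n (k + 2 + i + 1)
            omega
        rw [Finset.mem_range] at h4
        have h6 := h5 (j - (k + 2))
        have h7 : k + 2 + (j - (k + 2)) = j := by omega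
        rw [h7] at h6
        omega
      · exfalso
        apply h3
        rw [Finset.mem_range] at h4
        intro l hl
        rw [Finset.mem_range]
        have h6 : l ≤ S.sup id := Finset.le_sup (f := id) hl
        have h7 : n (j + 1) ≤ n (k + 2) := hn.monotone (by omega)
        omega
    refine (Finset.sum_le_sum h2).trans ?_
    rw [← Finset.sum_filter]
    have h8 : ∑ k ∈ (range K).filter (fun k => k ∈ range (j - 1)), ρ ^ (j - 1 - 1 - k) ≤
        ∑ k ∈ range (j - 1), ρ ^ (j - 1 - 1 - k) := by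
      refine Finset.sum_le_sum_of_subset_of_nonneg (fun x hx => (Finset.mem_filter.1 hx).2)
        fun x _ _ => (pow_pos h0 _).le
    refine h8.trans ?_
    rw [Finset.sum_range_reflect (fun k => ρ ^ k) (j - 1)]
    have h9 : ∑ k ∈ range (j - 1), ρ ^ k ≤ (1 - ρ)⁻¹ := by
      rw [← tsum_geometric_of_lt_one h0.le (by linarith)]
      exact (summable_geometric_of_lt_one h0.le (by linarith)).sum_le_tsum _
        fun j _ => pow_nonneg h0.le j
    have h10 : (1 - ρ)⁻¹ ≤ 10/9 := by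
      rw [inv_le_comm₀ (by linarith) (by norm_num)]
      linarith
    linarith

end

theorem pw_sum_sq_le {ρ : ℝ} (h0 : 0 < ρ) (h1 : ρ ≤ 1/100) (y : ℝ) (T : Finset (Finset ℕ))
    (f : Finset ℕ → ℝ) : (∑ S ∈ T, pw ρ y S * f S) ^ 2 ≤ ∑ S ∈ T, f S ^ 2 := by
  classical
  obtain ⟨m, -, hT⟩ := exists_level T 0
  have h2 := sum_restrict hT (pw ρ y) f
  have h3 := sum_restrict_sq hT (fun _ => 1) f
  rw [sum_pw_mul h0 h1] at h2
  simp only [one_mul] at h3
  rw [← h2, ← h3, mul_pow]
  exact (mul_le_of_le_one_left (sq_nonneg _) (tl_sq_le h0 h1 y m)).trans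
    (ev_sq_le (sn_sq_add_cn_sq ρ y) _ _)

theorem pw_zero {ρ : ℝ} (h0 : 0 < ρ) (h1 : ρ ≤ 1/100) (S : Finset ℕ) :
    pw ρ 0 S = if S = ∅ then 1 else 0 := by
  have hc : ∀ j, cn ρ 0 j = 1 := fun j => by simp [cn]
  have hs : ∀ j, sn ρ 0 j = 0 := fun j => by simp [sn]
  have ht : ∀ m, tl ρ 0 m = 1 := by
    intro m
    have h2 := tendsto_tl h0 h1 0 m
    simp only [hc, Finset.prod_const_one] at h2
    exact tendsto_nhds_unique h2 tendsto_const_nhds
  rw [pw, ht, one_mul, pr]
  simp only [hc, hs, Finset.prod_const_one, mul_one]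
  split_ifs with h
  · simp [h]
  · obtain ⟨i, hi⟩ := Finset.nonempty_iff_ne_empty.2 h
    exact Finset.prod_eq_zero hi rfl

theorem sum_biUnion_le_of_nonneg {ι : Type} (s : Finset ι) (A : ι → Finset ℝ) (φ : ℝ → ℝ)
    (hφ : ∀ y, 0 ≤ φ y) : ∑ y ∈ s.biUnion A, φ y ≤ ∑ k ∈ s, ∑ y ∈ A k, φ y := by
  classical
  induction s using Finset.induction_on with
  | empty => simp
  | insert a s ha ih =>
    rw [Finset.biUnion_insert, Finset.sum_insert ha]
    have h1 : ∑ y ∈ A a ∪ s.biUnion A, φ y ≤ ∑ y ∈ A a, φ y + ∑ y ∈ s.biUnion A, φ y := by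
      rw [← Finset.sum_union_inter]
      have : 0 ≤ ∑ y ∈ A a ∩ s.biUnion A, φ y := Finset.sum_nonneg fun y _ => hφ y
      linarith
    linarith

theorem frame_walsh {ρ : ℝ} (h0 : 0 < ρ) (h1 : ρ ≤ 1/100) (hg : Gen ρ) :
    ∃ Λ : Set ℝ, Λ.Countable ∧ ∃ A C : ℝ, 0 < A ∧ A ≤ C ∧
      (∀ (T : Finset (Finset ℕ)) (f : Finset ℕ → ℝ) (F : Finset ℝ), (↑F : Set ℝ) ⊆ Λ →
        ∑ y ∈ F, (∑ S ∈ T, pw ρ y S * f S) ^ 2 ≤ C * ∑ S ∈ T, f S ^ 2) ∧
      (∀ T : Finset (Finset ℕ), ∃ F : Finset ℝ, (↑F : Set ℝ) ⊆ Λ ∧ ∀ f : Finset ℕ → ℝ,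
        A * ∑ S ∈ T, f S ^ 2 ≤ ∑ y ∈ F, (∑ S ∈ T, pw ρ y S * f S) ^ 2) := by
  classical
  set τ : ℕ → ℝ := fun k => (1/10^9) * (1/2) ^ (k + 1) with hτ
  have hτ0 : ∀ k, 0 < τ k := fun k => by simp only [hτ]; positivity
  have hτ1 : ∀ k, τ k ≤ 1 := by
    intro k
    have : ((1:ℝ)/2) ^ (k + 1) ≤ 1 := pow_le_one₀ (by norm_num) (by norm_num)
    simp only [hτ]
    nlinarith
  have hτsum : ∀ K, ∑ k ∈ range K, τ k ≤ 1/10^9 := by
    intro K
    have h2 : ∀ K : ℕ, ∑ k ∈ range K, ((1:ℝ)/2) ^ (k + 1) = 1 - (1/2) ^ K := by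
      intro K
      induction K with
      | zero => simp
      | succ K ih => rw [Finset.sum_range_succ, ih]; ring
    simp only [hτ]
    rw [← Finset.mul_sum, h2]
    have : (0:ℝ) < (1/2) ^ K := by positivity
    nlinarith
  choose N₀ hN₀ using fun (k : ℕ) (blk : Finset ℕ) => piece h0 h1 hg blk (hτ0 k) (hτ1 k)
  obtain ⟨n, hn0, hn, hnN⟩ := exists_seq N₀
  have hsq : √((1:ℝ)/10^8) = 1/10^4 := by
    rw [show ((1:ℝ)/10^8) = (1/10^4)^2 by norm_num, Real.sqrt_sq (by norm_num)]
  have hpiece := fun k => hN₀ k (Ico (n k) (n (k + 1))) (n (k + 2)) (hnN k) (1/10^8)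
    (by norm_num) (by rw [hsq]; norm_num)
  choose A hA1 hA2 hA3 using hpiece
  rw [hsq] at hA3
  -- overlaps
  have hover : ∀ k k' y, y ∈ A k → y ∈ A k' → k < k' → k' ≤ k + 1 := by
    intro k k' y hy hy' hkk
    by_contra hcon
    push Not at hcon
    obtain ⟨l, hl, hl'⟩ := hA2 k' y hy'
    have e1 := hA1 k y hy
    have e2 : n (k + 2) ≤ l := (hn.monotone (by omega : k + 2 ≤ k')).trans (Finset.mem_Ico.1 hl).1
    have e3 : |y| * ρ ^ l ≤ 1/20 := by
      refine le_trans ?_ e1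
      exact mul_le_mul_of_nonneg_left (pow_le_pow_of_le_one h0.le (by linarith) e2)
        (abs_nonneg _)
    have e4 := sn_sq_le h0 e3 (le_refl l)
    rw [Nat.sub_self, mul_zero, pow_zero, mul_one] at e4
    have e5 := sn_sq_add_cn_sq ρ y l
    have e6 : cn ρ y l ^ 2 ≤ (1/10) ^ 2 := by
      rw [← sq_abs]
      exact pow_le_pow_left₀ (abs_nonneg _) hl' 2
    norm_num at e6
    linarith
  have hzero : ∀ k, (0:ℝ) ∉ A k := by
    intro k hk
    obtain ⟨l, -, hl'⟩ := hA2 k 0 hk
    simp [cn] at hl'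
    norm_num at hl'
  -- sums of coefficients
  set RR : ℕ → Finset ℕ → ℝ := fun k S =>
    rr ρ (τ k) (n (k + 2)) (Ico (n k) (n (k + 1))) S with hRR
  have hRR0 : ∀ k S, 0 ≤ RR k S := fun k S => (rr_pos h0 (hτ0 k) _ _ _).le
  have hcb1 : ∀ k S, τ k * cb (n (k + 2)) (Ico (n k) (n (k + 1))) S ≤ τ k := by
    intro k S
    have : cb (n (k + 2)) (Ico (n k) (n (k + 1))) S ≤ 1 := by
      rw [cb]
      split_ifs <;> norm_num
    have := hτ0 k
    nlinarith
  have hcbsum : ∀ K S, ∑ k ∈ range K, τ k * cb (n (k + 2)) (Ico (n k) (n (k + 1))) S ≤ 1/10^9 :=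
    fun K S => (Finset.sum_le_sum fun k _ => hcb1 k S).trans (hτsum K)
  have hRRsum : ∀ K S, ∑ k ∈ range K, RR k S =
      ∑ k ∈ range K, ca (n (k + 2)) (Ico (n k) (n (k + 1))) S +
      ∑ k ∈ range K, τ k * cb (n (k + 2)) (Ico (n k) (n (k + 1))) S +
      ∑ k ∈ range K, cd ρ (n (k + 2)) S := by
    intro K S
    rw [← Finset.sum_add_distrib, ← Finset.sum_add_distrib]
    exact Finset.sum_congr rfl fun k _ => rfl
  have hRR4 : ∀ K S, ∑ k ∈ range K, RR k S ≤ 4 := by
    intro K S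
    rw [hRRsum]
    have e1 := sum_ca_le hn0 hn S K
    have e2 := hcbsum K S
    have e3 := sum_cd_le hn0 hn h0 h1 S K
    norm_num at e2
    linarith
  set Φ : Finset (Finset ℕ) → (Finset ℕ → ℝ) → ℝ → ℝ := fun T f y =>
    (∑ S ∈ T, pw ρ y S * f S) ^ 2 with hΦ
  have hΦ0 : ∀ T f y, 0 ≤ Φ T f y := fun T f y => sq_nonneg _
  refine ⟨{0} ∪ ⋃ k, ↑(A k), ?_, 1/4, 56 * 10^8 + 1, by norm_num, by norm_num, ?_, ?_⟩
  · exact (Set.countable_singleton 0).union (Set.countable_iUnion fun k => (A k).countable_toSet)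
  · intro T f F hF
    have hK : ∃ K, F ⊆ insert 0 ((range K).biUnion A) := by
      have h2 : ∀ y ∈ F, ∃ k, y = 0 ∨ y ∈ A k := by
        intro y hy
        rcases hF hy with h | h
        · exact ⟨0, Or.inl h⟩
        · obtain ⟨k, hk⟩ := Set.mem_iUnion.1 h
          exact ⟨k, Or.inr hk⟩
      choose! κ hκ using h2
      refine ⟨F.sup κ + 1, fun y hy => ?_⟩
      rcases hκ y hy with h | h
      · rw [h]
        exact Finset.mem_insert_self _ _
      · apply Finset.mem_insert_of_mem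
        rw [Finset.mem_biUnion]
        refine ⟨κ y, Finset.mem_range.2 ?_, h⟩
        have := Finset.le_sup (f := κ) hy
        omega
    obtain ⟨K, hK⟩ := hK
    have e1 : ∑ y ∈ F, Φ T f y ≤ ∑ y ∈ insert 0 ((range K).biUnion A), Φ T f y :=
      Finset.sum_le_sum_of_subset_of_nonneg hK fun y _ _ => hΦ0 _ _ _
    have hz : (0:ℝ) ∉ (range K).biUnion A := by
      intro h
      obtain ⟨k, -, hk⟩ := Finset.mem_biUnion.1 h
      exact hzero k hk
    rw [Finset.sum_insert hz] at e1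
    have e2 : ∑ y ∈ (range K).biUnion A, Φ T f y ≤ ∑ k ∈ range K, ∑ y ∈ A k, Φ T f y :=
      sum_biUnion_le_of_nonneg _ _ _ (fun y => hΦ0 T f y)
    have e3 : ∑ k ∈ range K, ∑ y ∈ A k, Φ T f y ≤ 56 * 10^8 * ∑ S ∈ T, f S ^ 2 := by
      calc ∑ k ∈ range K, ∑ y ∈ A k, Φ T f y
          ≤ ∑ k ∈ range K, 10^8 * (14 * ∑ S ∈ T, RR k S * f S ^ 2) := by
            refine Finset.sum_le_sum fun k _ => ?_
            have e4 := (hA3 k T f).1
            have e5 : (1:ℝ)/10^8 * ∑ y ∈ A k, Φ T f y ≤ 14 * ∑ S ∈ T, RR k S * f S ^ 2 := e4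
            norm_num at e5 ⊢
            linarith
        _ = 14 * 10^8 * ∑ S ∈ T, (∑ k ∈ range K, RR k S) * f S ^ 2 := by
            simp only [Finset.sum_mul]
            rw [Finset.sum_comm, Finset.mul_sum]
            refine Finset.sum_congr rfl fun k _ => ?_
            ring
        _ ≤ 14 * 10^8 * ∑ S ∈ T, 4 * f S ^ 2 := by
            apply mul_le_mul_of_nonneg_left _ (by norm_num)
            exact Finset.sum_le_sum fun S _ =>
              mul_le_mul_of_nonneg_right (hRR4 K S) (sq_nonneg _)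
        _ = _ := by rw [← Finset.mul_sum]; ring
    have e6 : Φ T f 0 ≤ ∑ S ∈ T, f S ^ 2 := pw_sum_sq_le h0 h1 0 T f
    have e7 : ∑ y ∈ F, Φ T f y ≤ (56 * 10^8 + 1) * ∑ S ∈ T, f S ^ 2 := by linarith
    exact e7
  · intro T
    set K : ℕ := T.sup (fun S => S.sup id) + 1 with hK
    have hTK : ∀ S ∈ T, S.sup id < K := by
      intro S hS
      have : S.sup id ≤ T.sup (fun S => S.sup id) :=
        Finset.le_sup (f := fun S : Finset ℕ => S.sup id) hS
      omega
    have hz : (0:ℝ) ∉ (range K).biUnion A := by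
      intro h
      obtain ⟨k, -, hk⟩ := Finset.mem_biUnion.1 h
      exact hzero k hk
    refine ⟨insert 0 ((range K).biUnion A), ?_, fun f => ?_⟩
    · intro y hy
      rw [Finset.mem_coe, Finset.mem_insert, Finset.mem_biUnion] at hy
      rcases hy with h | ⟨k, -, hk⟩
      · exact Or.inl h
      · exact Or.inr (Set.mem_iUnion.2 ⟨k, hk⟩)
    · have e1 : ∑ k ∈ range K, ∑ y ∈ A k, Φ T f y ≤ 2 * ∑ y ∈ (range K).biUnion A, Φ T f y := by
        rw [Finset.sum_comm' (t' := (range K).biUnion A)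
          (s' := fun y => (range K).filter (fun k => y ∈ A k)) (by
            intro k y
            simp only [Finset.mem_filter, Finset.mem_biUnion, Finset.mem_range]
            constructor
            · rintro ⟨h, h'⟩
              exact ⟨⟨h, h'⟩, k, h, h'⟩
            · rintro ⟨h, -⟩
              exact h), Finset.mul_sum]
        refine Finset.sum_le_sum fun y _ => ?_
        rw [Finset.sum_const, nsmul_eq_mul]
        apply mul_le_mul_of_nonneg_right _ (hΦ0 _ _ _)
        have h2 : ((range K).filter (fun k => y ∈ A k)).card ≤ 2 :=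
          card_le_two_of fun a ha b hb hab =>
            hover a b y (Finset.mem_filter.1 ha).2 (Finset.mem_filter.1 hb).2 hab
        exact_mod_cast h2
      have e2 : Φ T f 0 = ∑ S ∈ T, (if S = ∅ then 1 else 0) * f S ^ 2 := by
        simp only [hΦ, pw_zero h0 h1]
        simp only [ite_mul, one_mul, zero_mul]
        rw [Finset.sum_ite_eq' T ∅ f, Finset.sum_ite_eq' T ∅ (fun S => f S ^ 2)]
        split_ifs <;> simp
      have e3 : ∑ S ∈ T, 10^8 * (∑ k ∈ range K, (38/100 * ca (n (k + 2)) (Ico (n k) (n (k + 1))) S -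
          2 * (τ k * cb (n (k + 2)) (Ico (n k) (n (k + 1))) S) - 8/100 * cd ρ (n (k + 2)) S -
          84 * (1/10^4) * RR k S)) * f S ^ 2 ≤ ∑ k ∈ range K, ∑ y ∈ A k, Φ T f y := by
        have e4 : ∑ S ∈ T, 10^8 * (∑ k ∈ range K,
            (38/100 * ca (n (k + 2)) (Ico (n k) (n (k + 1))) S -
            2 * (τ k * cb (n (k + 2)) (Ico (n k) (n (k + 1))) S) - 8/100 * cd ρ (n (k + 2)) S -
            84 * (1/10^4) * RR k S)) * f S ^ 2 =
            ∑ k ∈ range K, 10^8 * ∑ S ∈ T,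
              (38/100 * ca (n (k + 2)) (Ico (n k) (n (k + 1))) S -
            2 * (τ k * cb (n (k + 2)) (Ico (n k) (n (k + 1))) S) - 8/100 * cd ρ (n (k + 2)) S -
            84 * (1/10^4) * RR k S) * f S ^ 2 := by
          simp only [Finset.mul_sum, Finset.sum_mul]
          rw [Finset.sum_comm]
          refine Finset.sum_congr rfl fun k _ => Finset.sum_congr rfl fun S _ => by ring
        rw [e4]
        refine Finset.sum_le_sum fun k _ => ?_
        have e5 := (hA3 k T f).2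
        have e6 : ∑ S ∈ T, (38/100 * ca (n (k + 2)) (Ico (n k) (n (k + 1))) S -
            2 * (τ k * cb (n (k + 2)) (Ico (n k) (n (k + 1))) S) - 8/100 * cd ρ (n (k + 2)) S -
            84 * (1/10^4) * RR k S) * f S ^ 2 ≤ (1:ℝ)/10^8 * ∑ y ∈ A k, Φ T f y := e5
        norm_num at e6 ⊢
        linarith
      have e7 : ∀ S ∈ T, 1/2 * f S ^ 2 ≤ (if S = ∅ then 1 else 0) * f S ^ 2 +
          10^8 * (∑ k ∈ range K, (38/100 * ca (n (k + 2)) (Ico (n k) (n (k + 1))) S -
          2 * (τ k * cb (n (k + 2)) (Ico (n k) (n (k + 1))) S) - 8/100 * cd ρ (n (k + 2)) S -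
          84 * (1/10^4) * RR k S)) * f S ^ 2 := by
        intro S hS
        rw [← add_mul]
        apply mul_le_mul_of_nonneg_right _ (sq_nonneg _)
        have k0 : ∑ k ∈ range K, (38/100 * ca (n (k + 2)) (Ico (n k) (n (k + 1))) S -
            2 * (τ k * cb (n (k + 2)) (Ico (n k) (n (k + 1))) S) - 8/100 * cd ρ (n (k + 2)) S -
            84 * (1/10^4) * RR k S) =
            38/100 * ∑ k ∈ range K, ca (n (k + 2)) (Ico (n k) (n (k + 1))) S -
            2 * ∑ k ∈ range K, τ k * cb (n (k + 2)) (Ico (n k) (n (k + 1))) S -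
            8/100 * ∑ k ∈ range K, cd ρ (n (k + 2)) S -
            84 * (1/10^4) * ∑ k ∈ range K, RR k S := by
          rw [Finset.mul_sum, Finset.mul_sum, Finset.mul_sum, Finset.mul_sum,
            ← Finset.sum_sub_distrib, ← Finset.sum_sub_distrib, ← Finset.sum_sub_distrib]
        rw [k0]
        have k2 := hcbsum K S
        by_cases hS0 : S = ∅
        · rw [if_pos hS0, hRRsum]
          subst hS0
          have k3 : ∑ k ∈ range K, ca (n (k + 2)) (Ico (n k) (n (k + 1))) ∅ = 0 :=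
            Finset.sum_eq_zero fun k _ => by simp [ca]
          have k4 : ∑ k ∈ range K, cd ρ (n (k + 2)) ∅ = 0 :=
            Finset.sum_eq_zero fun k _ => by simp [cd]
          rw [k3, k4]
          norm_num at k2 ⊢
          linarith
        · rw [if_neg hS0]
          have k3 := one_le_sum_ca hn0 hn hS0 (hTK S hS)
          have k4 := sum_cd_le hn0 hn h0 h1 S K
          have k5 := hRR4 K S
          norm_num at k2 k4 ⊢
          linarith
      rw [Finset.sum_insert hz]
      have e8 : 1/2 * ∑ S ∈ T, f S ^ 2 ≤ Φ T f 0 + ∑ k ∈ range K, ∑ y ∈ A k, Φ T f y := by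
        rw [Finset.mul_sum]
        refine (Finset.sum_le_sum e7).trans ?_
        rw [Finset.sum_add_distrib, ← e2]
        linarith
      have e9 : 1/4 * ∑ S ∈ T, f S ^ 2 ≤ Φ T f 0 + ∑ y ∈ (range K).biUnion A, Φ T f y := by
        have := hΦ0 T f 0
        linarith
      exact e9

end Pool.Agent.Helper27.FF
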