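import Mathlib

set_option autoImplicit false

open MeasureTheory

namespace Pool.Agent.Helper27.FF

/-- The fair coin: the uniform probability measure on the two-point space `Bool`. -/
noncomputable def coin : Measure Bool :=
  (1/2 : ENNReal) • (Measure.dirac true + Measure.dirac false)

/-- The sign attached to a coin toss: `+1` for `true`, `-1` for `false`. -/
def sgn (b : Bool) : ℝ := if b then 1 else -1

/-- The Bernoulli convolution `μ_{ρ,d}`: the law of `∑_{j ≥ 1} d ξ_j ρ^j / 2` with `ξ_j`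
independent and uniform on `{-1, 1}` (the coordinates of the infinite product of fair coins;
the index `j : ℕ` below starts at `0`, hence the exponent `j + 1`). -/
noncomputable def bernoulliConv (ρ d : ℝ) : Measure ℝ :=
  (Measure.infinitePi (fun _ : ℕ => coin)).map
    (fun ω : ℕ → Bool => ∑' j : ℕ, d * sgn (ω j) * ρ ^ (j + 1) / 2)

/-- The coefficient `⟨f, e_l⟩ = ∫ f(x) exp(-2 π i l x) dμ(x)`. -/
noncomputable def fourierCoeffAt (μ : Measure ℝ) (f : ℝ → ℂ) (l : ℝ) : ℂ :=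
  ∫ x, f x * Complex.exp (-(2 * Real.pi * l * x : ℝ) * Complex.I) ∂μ

/-- `L²(μ)` has a Fourier frame: there are a countable set `Λ` of reals and constants
`0 < A ≤ C` such that `A ‖f‖² ≤ ∑_{l ∈ Λ} |⟨f, e_l⟩|² ≤ C ‖f‖²` for all `f ∈ L²(μ)`
(the sum being convergent). -/
def HasFourierFrame (μ : Measure ℝ) : Prop :=
  ∃ Λ : Set ℝ, Λ.Countable ∧ ∃ A C : ℝ, 0 < A ∧ A ≤ C ∧ ∀ f : ℝ → ℂ, MemLp f 2 μ →
    Summable (fun l : Λ => ‖fourierCoeffAt μ f l‖ ^ 2) ∧
    A * ∫ x, ‖f x‖ ^ 2 ∂μ ≤ ∑' l : Λ, ‖fourierCoeffAt μ f l‖ ^ 2 ∧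
    ∑' l : Λ, ‖fourierCoeffAt μ f l‖ ^ 2 ≤ C * ∫ x, ‖f x‖ ^ 2 ∂μ

end Pool.Agent.Helper27.FF
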