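import Mathlib
import Pool.Agent.Helper27.FF.Defs
import Pool.Agent.Helper27.FF.Assemble

set_option autoImplicit false

open Finset Filter Topology MeasureTheory

namespace Pool.Agent.Helper27.FF

instance : IsProbabilityMeasure coin := by
  constructor
  rw [coin, Measure.smul_apply, Measure.add_apply]
  simp only [measure_univ, smul_eq_mul]
  rw [one_add_one_eq_two, one_div, ENNReal.inv_mul_cancel (by norm_num) (by norm_num)]

theorem coin_singleton (b : Bool) : coin {b} = 1/2 := by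
  rw [coin, Measure.smul_apply, Measure.add_apply]
  cases b <;> simp

/-- the coin tossing space measure -/
noncomputable def PP : Measure (ℕ → Bool) := Measure.infinitePi (fun _ : ℕ => coin)

instance : IsProbabilityMeasure PP := by
  rw [PP]
  infer_instance

/-- set of heads among the first `m` tosses -/
def dset (m : ℕ) (ω : ℕ → Bool) : Finset ℕ := (range m).filter (fun j => ω j = true)

theorem dset_subset (m : ℕ) (ω : ℕ → Bool) : dset m ω ⊆ range m := Finset.filter_subset _ _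

theorem setOf_dset_eq (m : ℕ) {a : Finset ℕ} (ha : a ⊆ range m) :
    {ω : ℕ → Bool | dset m ω = a} = Set.pi (range m : Finset ℕ) (fun j => {decide (j ∈ a)}) := by
  ext ω
  simp only [Set.mem_ofPred_eq, Set.mem_pi, Finset.coe_range, Set.mem_Iio, Set.mem_singleton_iff]
  constructor
  · rintro rfl j hj
    by_cases h : ω j = true
    · rw [h]
      symm
      rw [decide_eq_true_iff, dset, Finset.mem_filter, Finset.mem_range]
      exact ⟨hj, h⟩
    · rw [Bool.not_eq_true] at h
      rw [h]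
      symm
      rw [decide_eq_false_iff_not, dset, Finset.mem_filter]
      rintro ⟨-, h'⟩
      rw [h] at h'
      exact absurd h' (by decide)
  · intro h
    ext j
    rw [dset, Finset.mem_filter, Finset.mem_range]
    constructor
    · rintro ⟨hj, hj'⟩
      have := h j hj
      rw [hj'] at this
      exact decide_eq_true_iff.1 this.symm
    · intro hj
      have hj' := Finset.mem_range.1 (ha hj)
      refine ⟨hj', ?_⟩
      rw [h j hj', decide_eq_true_iff]
      exact hj

theorem measurableSet_dset_eq (m : ℕ) {a : Finset ℕ} (ha : a ⊆ range m) :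
    MeasurableSet {ω : ℕ → Bool | dset m ω = a} := by
  rw [setOf_dset_eq m ha]
  exact MeasurableSet.pi (Finset.countable_toSet _) fun j _ => measurableSet_singleton _

theorem PP_dset_eq (m : ℕ) {a : Finset ℕ} (ha : a ⊆ range m) :
    PP {ω : ℕ → Bool | dset m ω = a} = (1/2) ^ m := by
  have h := Measure.infinitePi_pi (μ := fun _ : ℕ => coin) (s := range m)
    (t := fun j => {decide (j ∈ a)}) (fun j _ => measurableSet_singleton _)
  rw [setOf_dset_eq m ha, PP, h]
  simp only [coin_singleton, Finset.prod_const, Finset.card_range]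

theorem comp_dset_eq (m : ℕ) (Γ : Finset ℕ → ℂ) : (fun ω => Γ (dset m ω)) = fun ω =>
    ∑ a ∈ (range m).powerset, Set.indicator {ω : ℕ → Bool | dset m ω = a} (fun _ => Γ a) ω := by
  classical
  funext ω
  simp only [Set.indicator_apply, Set.mem_ofPred_eq]
  rw [Finset.sum_ite_eq (range m).powerset (dset m ω) Γ,
    if_pos (Finset.mem_powerset.2 (dset_subset m ω))]

theorem measurable_comp_dset (m : ℕ) (Γ : Finset ℕ → ℂ) :
    Measurable (fun ω => Γ (dset m ω)) := by
  rw [comp_dset_eq]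
  refine Finset.measurable_sum _ fun a ha => ?_
  exact measurable_const.indicator (measurableSet_dset_eq m (Finset.mem_powerset.1 ha))

theorem integral_comp_dset (m : ℕ) (Γ : Finset ℕ → ℂ) :
    ∫ ω, Γ (dset m ω) ∂PP = (1/2) ^ m * ∑ a ∈ (range m).powerset, Γ a := by
  rw [comp_dset_eq, integral_finsetSum]
  · rw [Finset.mul_sum]
    refine Finset.sum_congr rfl fun a ha => ?_
    rw [integral_indicator_const _ (measurableSet_dset_eq m (Finset.mem_powerset.1 ha)),
      measureReal_def, PP_dset_eq m (Finset.mem_powerset.1 ha)]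
    simp
  · intro a ha
    exact (integrable_const _).indicator (measurableSet_dset_eq m (Finset.mem_powerset.1 ha))

theorem memLp_comp_dset (m : ℕ) (Γ : Finset ℕ → ℂ) : MemLp (fun ω => Γ (dset m ω)) 2 PP := by
  refine MemLp.of_bound (measurable_comp_dset m Γ).aestronglyMeasurable
    (∑ a ∈ (range m).powerset, ‖Γ a‖) (Eventually.of_forall fun ω => ?_)
  exact Finset.single_le_sum (f := fun a => ‖Γ a‖) (fun a _ => norm_nonneg _)
    (Finset.mem_powerset.2 (dset_subset m ω))

theorem dset_inter {m M : ℕ} (h : m ≤ M) (ω : ℕ → Bool) : dset M ω ∩ range m = dset m ω := by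
  ext j
  simp only [dset, Finset.mem_inter, Finset.mem_filter, Finset.mem_range]
  constructor
  · rintro ⟨⟨-, h1⟩, h2⟩
    exact ⟨h2, h1⟩
  · rintro ⟨h1, h2⟩
    exact ⟨⟨by omega, h2⟩, h1⟩

/-- the normalized random sum -/
noncomputable def XX (ρ : ℝ) (ω : ℕ → Bool) : ℝ := ∑' j : ℕ, sgn (ω j) * ρ ^ j

theorem abs_sgn (b : Bool) : |sgn b| = 1 := by
  cases b <;> simp [sgn]

theorem summable_XX {ρ : ℝ} (h0 : 0 < ρ) (h1 : ρ ≤ 1/100) (ω : ℕ → Bool) :
    Summable (fun j : ℕ => sgn (ω j) * ρ ^ j) :=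
  summable_bdd_mul_pow (c := fun j => sgn (ω j)) (C := 1) h0.le (by linarith)
    fun j => (abs_sgn _).le

theorem continuous_XX {ρ : ℝ} (h0 : 0 < ρ) (h1 : ρ ≤ 1/100) : Continuous (XX ρ) := by
  unfold XX
  refine continuous_tsum (u := fun j => ρ ^ j) (fun j => ?_)
    (summable_geometric_of_lt_one h0.le (by linarith)) (fun j ω => ?_)
  · have h2 : Continuous (fun ω : ℕ → Bool => sgn (ω j)) :=
      (continuous_of_discreteTopology (f := sgn)).comp (continuous_apply j)
    exact h2.mul continuous_const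
  · rw [norm_mul, Real.norm_eq_abs, abs_sgn, one_mul, Real.norm_eq_abs,
      abs_of_nonneg (pow_nonneg h0.le j)]

/-- the character on the coin tossing space -/
noncomputable def cc (ρ y : ℝ) (ω : ℕ → Bool) : ℂ :=
  Complex.exp (-(Real.pi * y * XX ρ ω : ℝ) * Complex.I)

theorem chr_dset (ρ y : ℝ) (M : ℕ) (ω : ℕ → Bool) :
    chr (fun j => Real.pi * y * ρ ^ j) (range M) (dset M ω) =
      Complex.exp (-(Real.pi * y * ∑ j ∈ range M, sgn (ω j) * ρ ^ j : ℝ) * Complex.I) := by
  have h1 : range M \ dset M ω = (range M).filter (fun j => ¬ ω j = true) := by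
    rw [dset, Finset.filter_not]
  rw [chr, pr, h1, dset, ← Complex.exp_sum, ← Complex.exp_sum, ← Complex.exp_add]
  congr 1
  rw [← Finset.sum_filter_add_sum_filter_not (range M) (fun j => ω j = true)
    (fun j => sgn (ω j) * ρ ^ j)]
  have h2 : ∑ j ∈ (range M).filter (fun j => ω j = true), sgn (ω j) * ρ ^ j =
      ∑ j ∈ (range M).filter (fun j => ω j = true), ρ ^ j := by
    refine Finset.sum_congr rfl fun j hj => ?_
    rw [(Finset.mem_filter.1 hj).2, sgn, if_pos rfl, one_mul]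
  have h3 : ∑ j ∈ (range M).filter (fun j => ¬ ω j = true), sgn (ω j) * ρ ^ j =
      -∑ j ∈ (range M).filter (fun j => ¬ ω j = true), ρ ^ j := by
    rw [← Finset.sum_neg_distrib]
    refine Finset.sum_congr rfl fun j hj => ?_
    have h4 := (Finset.mem_filter.1 hj).2
    rw [Bool.not_eq_true] at h4
    rw [h4]
    simp [sgn]
  rw [h2, h3]
  push_cast
  rw [Finset.sum_neg_distrib, ← Finset.sum_mul, ← Finset.sum_mul, ← Finset.mul_sum,
    ← Finset.mul_sum]
  ring

theorem tendsto_chr_dset {ρ : ℝ} (h0 : 0 < ρ) (h1 : ρ ≤ 1/100) (y : ℝ) (ω : ℕ → Bool) :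
    Tendsto (fun M => chr (fun j => Real.pi * y * ρ ^ j) (range M) (dset M ω)) atTop
      (𝓝 (cc ρ y ω)) := by
  have h2 := (summable_XX h0 h1 ω).hasSum.tendsto_sum_nat
  simp only [chr_dset]
  have h3 : Continuous (fun x : ℝ => Complex.exp (-(Real.pi * y * x : ℝ) * Complex.I)) := by
    fun_prop
  exact (h3.tendsto _).comp h2

theorem sum_chr_inter (θ : ℕ → ℝ) (m : ℕ) (Γ : Finset ℕ → ℂ) : ∀ M ≥ m,
    (1/2 : ℂ) ^ M * ∑ a ∈ (range M).powerset, Γ (a ∩ range m) * chr θ (range M) a =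
      ((∏ j ∈ Ico m M, Real.cos (θ j) : ℝ) : ℂ) *
        ((1/2 : ℂ) ^ m * ∑ a ∈ (range m).powerset, Γ a * chr θ (range m) a) := by
  intro M hM
  induction M, hM using Nat.le_induction with
  | base =>
    simp only [Finset.Ico_self, Finset.prod_empty, Complex.ofReal_one, one_mul]
    congr 1
    refine Finset.sum_congr rfl fun a ha => ?_
    rw [Finset.inter_eq_left.2 (Finset.mem_powerset.1 ha)]
  | succ M hM ih =>
    have hN : M ∉ range M := Finset.notMem_range_self
    rw [Finset.prod_Ico_succ_top hM, Finset.range_add_one, Finset.sum_powerset_insert hN,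
      ← Finset.sum_add_distrib]
    have h2 : ∀ a ∈ (range M).powerset, Γ (a ∩ range m) * chr θ (insert M (range M)) a +
        Γ (insert M a ∩ range m) * chr θ (insert M (range M)) (insert M a) =
        (2 * Real.cos (θ M) : ℂ) * (Γ (a ∩ range m) * chr θ (range M) a) := by
      intro a ha
      have ha' := Finset.mem_powerset.1 ha
      have e1 : insert M a ∩ range m = a ∩ range m := by
        rw [Finset.insert_inter_of_notMem]
        rw [Finset.mem_range]
        omega
      rw [e1, chr, chr, pr_insert_left _ _ hN ha', pr_insert_insert _ _ hN ha', ← chr]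
      have e2 : (Complex.exp (θ M * Complex.I) + Complex.exp (-(θ M * Complex.I))) =
          2 * Real.cos (θ M) := by
        rw [Complex.ofReal_cos, Complex.cos, neg_mul]
        ring
      rw [← e2]
      ring
    rw [Finset.sum_congr rfl h2, ← Finset.mul_sum, Complex.ofReal_mul]
    have h3 : (1/2 : ℂ) ^ (M + 1) * (2 * Real.cos (θ M) *
        ∑ a ∈ (range M).powerset, Γ (a ∩ range m) * chr θ (range M) a) =
        Real.cos (θ M) * ((1/2 : ℂ) ^ M *
          ∑ a ∈ (range M).powerset, Γ (a ∩ range m) * chr θ (range M) a) := by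
      rw [pow_succ]
      ring
    rw [h3, ih]
    ring

theorem norm_chr (θ : ℕ → ℝ) (J a : Finset ℕ) : ‖chr θ J a‖ = 1 := by
  rw [chr, pr, norm_mul, norm_prod, norm_prod]
  have h1 : ∀ x : ℝ, ‖Complex.exp (-(x * Complex.I))‖ = 1 := by
    intro x
    rw [← neg_mul, ← Complex.ofReal_neg]
    exact Complex.norm_exp_ofReal_mul_I _
  have h2 : ∀ x : ℝ, ‖Complex.exp (x * Complex.I)‖ = 1 := Complex.norm_exp_ofReal_mul_I
  simp only [h1, h2, Finset.prod_const_one, mul_one]

theorem norm_cc (ρ y : ℝ) (ω : ℕ → Bool) : ‖cc ρ y ω‖ = 1 := by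
  rw [cc, ← Complex.ofReal_neg]
  exact Complex.norm_exp_ofReal_mul_I _

theorem continuous_cc {ρ : ℝ} (h0 : 0 < ρ) (h1 : ρ ≤ 1/100) (y : ℝ) : Continuous (cc ρ y) := by
  unfold cc
  have := continuous_XX h0 h1
  fun_prop

/-- integral of a finite level function against a character -/
theorem integral_mul_cc {ρ : ℝ} (h0 : 0 < ρ) (h1 : ρ ≤ 1/100) (y : ℝ) (m : ℕ)
    (Γ : Finset ℕ → ℂ) :
    ∫ ω, Γ (dset m ω) * cc ρ y ω ∂PP = (tl ρ y m : ℂ) *
      ((1/2 : ℂ) ^ m * ∑ a ∈ (range m).powerset,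
        Γ a * chr (fun j => Real.pi * y * ρ ^ j) (range m) a) := by
  set θ : ℕ → ℝ := fun j => Real.pi * y * ρ ^ j with hθ
  have hlim : Tendsto (fun M => ∫ ω, Γ (dset m ω) * chr θ (range M) (dset M ω) ∂PP) atTop
      (𝓝 (∫ ω, Γ (dset m ω) * cc ρ y ω ∂PP)) := by
    refine tendsto_integral_of_dominated_convergence (fun ω => ‖Γ (dset m ω)‖) (fun M => ?_)
      ?_ (fun M => ?_) ?_
    · exact ((measurable_comp_dset m Γ).mul
        (measurable_comp_dset M (fun a => chr θ (range M) a))).aestronglyMeasurable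
    · exact ((memLp_comp_dset m Γ).integrable (by norm_num)).norm
    · exact Eventually.of_forall fun ω => by rw [norm_mul, norm_chr, mul_one]
    · exact Eventually.of_forall fun ω => (tendsto_chr_dset h0 h1 y ω).const_mul _
  have hval : ∀ M ≥ m, ∫ ω, Γ (dset m ω) * chr θ (range M) (dset M ω) ∂PP =
      ((∏ j ∈ Ico m M, Real.cos (θ j) : ℝ) : ℂ) *
        ((1/2 : ℂ) ^ m * ∑ a ∈ (range m).powerset, Γ a * chr θ (range m) a) := by
    intro M hM
    rw [← sum_chr_inter θ m Γ M hM, ← integral_comp_dset M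
      (fun a => Γ (a ∩ range m) * chr θ (range M) a)]
    refine integral_congr_ae (Eventually.of_forall fun ω => ?_)
    simp only
    rw [dset_inter hM]
  have hlim2 : Tendsto (fun M => ((∏ j ∈ Ico m M, Real.cos (θ j) : ℝ) : ℂ) *
        ((1/2 : ℂ) ^ m * ∑ a ∈ (range m).powerset, Γ a * chr θ (range m) a)) atTop
      (𝓝 ((tl ρ y m : ℂ) *
        ((1/2 : ℂ) ^ m * ∑ a ∈ (range m).powerset, Γ a * chr θ (range m) a))) := by
    refine Tendsto.mul_const _ ?_
    refine (Complex.continuous_ofReal.tendsto _).comp ?_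
    have h2 := tendsto_tl h0 h1 y m
    rw [← tendsto_add_atTop_iff_nat m]
    refine h2.congr fun M => ?_
    rw [Finset.prod_Ico_eq_prod_range]
    have : M + m - m = M := by omega
    rw [this]
    refine Finset.prod_congr rfl fun j _ => ?_
    rw [add_comm m j]
    rfl
  refine tendsto_nhds_unique hlim (hlim2.congr' ?_)
  filter_upwards [eventually_ge_atTop m] with M hM
  exact (hval M hM).symm

/-- finite level functions in Walsh coordinates -/
theorem finite_level {ρ : ℝ} (h0 : 0 < ρ) (h1 : ρ ≤ 1/100) (m : ℕ) (Γ : Finset ℕ → ℂ) :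
    ∃ f₁ f₂ : Finset ℕ → ℝ,
      ∫ ω, ‖Γ (dset m ω)‖ ^ 2 ∂PP = ∑ S ∈ (range m).powerset, f₁ S ^ 2 +
        ∑ S ∈ (range m).powerset, f₂ S ^ 2 ∧
      ∀ y : ℝ, ‖∫ ω, Γ (dset m ω) * cc ρ y ω ∂PP‖ ^ 2 =
        (∑ S ∈ (range m).powerset, pw ρ y S * f₁ S) ^ 2 +
        (∑ S ∈ (range m).powerset, pw ρ y S * f₂ S) ^ 2 := by
  obtain ⟨f, hf, hf'⟩ := digit_to_walsh m Γ
  set c : ℝ := √((1/2) ^ m) with hc
  have hc2 : c ^ 2 = (1/2) ^ m := Real.sq_sqrt (by positivity)
  have hsq : ∀ z : ℂ, ‖z‖ ^ 2 = z.re ^ 2 + z.im ^ 2 := by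
    intro z
    rw [← Complex.normSq_eq_norm_sq, Complex.normSq_apply]
    ring
  refine ⟨fun S => c * (f S).re, fun S => c * (f S).im, ?_, fun y => ?_⟩
  · have e1 : ∫ ω, ((‖Γ (dset m ω)‖ ^ 2 : ℝ) : ℂ) ∂PP =
        (1/2) ^ m * ∑ a ∈ (range m).powerset, ((‖Γ a‖ ^ 2 : ℝ) : ℂ) :=
      integral_comp_dset m (fun a => ((‖Γ a‖ ^ 2 : ℝ) : ℂ))
    rw [integral_complex_ofReal] at e1
    have e2 : ∫ ω, ‖Γ (dset m ω)‖ ^ 2 ∂PP = (1/2) ^ m * ∑ a ∈ (range m).powerset, ‖Γ a‖ ^ 2 := by
      have e3 : ((∫ ω, ‖Γ (dset m ω)‖ ^ 2 ∂PP : ℝ) : ℂ) =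
          (((1/2) ^ m * ∑ a ∈ (range m).powerset, ‖Γ a‖ ^ 2 : ℝ) : ℂ) := by
        rw [e1]
        push_cast
        rfl
      exact_mod_cast e3
    rw [e2, hf, Finset.mul_sum, ← Finset.sum_add_distrib]
    refine Finset.sum_congr rfl fun S _ => ?_
    rw [hsq, mul_pow, mul_pow, hc2]
    ring
  · rw [integral_mul_cc h0 h1 y m Γ, hf' (fun j => Real.pi * y * ρ ^ j)]
    have e1 : (tl ρ y m : ℂ) * cev (fun j => Real.sin (Real.pi * y * ρ ^ j))
        (fun j => Real.cos (Real.pi * y * ρ ^ j)) (range m) f =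
        ∑ S ∈ (range m).powerset, (pw ρ y S : ℂ) * f S := by
      rw [cev, Finset.mul_sum]
      refine Finset.sum_congr rfl fun S hS => ?_
      rw [pw_eq h0 h1 y (Finset.mem_powerset.1 hS)]
      push_cast
      rw [mul_assoc]
      rfl
    have e2 : (tl ρ y m : ℂ) * ((1/2 : ℂ) ^ m * ((√2 : ℂ) ^ m *
        cev (fun j => Real.sin (Real.pi * y * ρ ^ j))
        (fun j => Real.cos (Real.pi * y * ρ ^ j)) (range m) f)) =
        ((1/2 : ℂ) ^ m * (√2 : ℂ) ^ m) * ∑ S ∈ (range m).powerset, (pw ρ y S : ℂ) * f S := by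
      rw [← e1]
      ring
    rw [e2, norm_mul, mul_pow]
    have e3 : ‖(1/2 : ℂ) ^ m * (√2 : ℂ) ^ m‖ ^ 2 = (1/2) ^ m := by
      rw [← mul_pow, norm_pow, ← pow_mul, mul_comm m 2, pow_mul]
      congr 1
      rw [norm_mul, mul_pow, Complex.norm_real, Real.norm_eq_abs, sq_abs, Real.sq_sqrt (by norm_num)]
      norm_num
    rw [e3, hsq]
    have e4 : (∑ S ∈ (range m).powerset, (pw ρ y S : ℂ) * f S).re =
        ∑ S ∈ (range m).powerset, pw ρ y S * (f S).re := by
      rw [Complex.re_sum]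
      exact Finset.sum_congr rfl fun S _ => Complex.re_ofReal_mul _ _
    have e5 : (∑ S ∈ (range m).powerset, (pw ρ y S : ℂ) * f S).im =
        ∑ S ∈ (range m).powerset, pw ρ y S * (f S).im := by
      rw [Complex.im_sum]
      exact Finset.sum_congr rfl fun S _ => Complex.im_ofReal_mul _ _
    rw [e4, e5]
    have e6 : ∀ g : Finset ℕ → ℝ, ∑ S ∈ (range m).powerset, pw ρ y S * (c * g S) =
        c * ∑ S ∈ (range m).powerset, pw ρ y S * g S := by
      intro g
      rw [Finset.mul_sum]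
      exact Finset.sum_congr rfl fun S _ => by ring
    rw [e6 (fun S => (f S).re), e6 (fun S => (f S).im), mul_pow, mul_pow, hc2]
    ring

end Pool.Agent.Helper27.FF
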