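import Mathlib
import Pool.Agent.Helper27.FF.Transfer

set_option autoImplicit false

open Finset Filter Topology MeasureTheory

open scoped InnerProductSpace

namespace Pool.Agent.Helper27.FF

theorem frame_of_dense {H : Type} [NormedAddCommGroup H] [InnerProductSpace ℂ H] (e : ℝ → H)
    (V : Set H) (hV : Dense V) (Λ : Set ℝ) (A C : ℝ)
    (hU : ∀ v ∈ V, ∀ F : Finset ℝ, (↑F : Set ℝ) ⊆ Λ → ∑ y ∈ F, ‖⟪e y, v⟫_ℂ‖ ^ 2 ≤ C * ‖v‖ ^ 2)
    (hL : ∀ v ∈ V, ∃ F : Finset ℝ, (↑F : Set ℝ) ⊆ Λ ∧ A * ‖v‖ ^ 2 ≤ ∑ y ∈ F, ‖⟪e y, v⟫_ℂ‖ ^ 2)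
    (h : H) : Summable (fun l : Λ => ‖⟪e l, h⟫_ℂ‖ ^ 2) ∧
      A / 2 * ‖h‖ ^ 2 ≤ ∑' l : Λ, ‖⟪e l, h⟫_ℂ‖ ^ 2 ∧
      ∑' l : Λ, ‖⟪e l, h⟫_ℂ‖ ^ 2 ≤ C * ‖h‖ ^ 2 := by
  classical
  have hUall : ∀ F : Finset ℝ, (↑F : Set ℝ) ⊆ Λ → ∀ v : H,
      ∑ y ∈ F, ‖⟪e y, v⟫_ℂ‖ ^ 2 ≤ C * ‖v‖ ^ 2 := by
    intro F hF v
    have hcl : IsClosed {v : H | ∑ y ∈ F, ‖⟪e y, v⟫_ℂ‖ ^ 2 ≤ C * ‖v‖ ^ 2} := by
      refine isClosed_le ?_ ?_
      · exact continuous_finsetSum _ fun y _ => by fun_prop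
      · fun_prop
    have := hcl.closure_subset_iff.2 (fun v hv => hU v hv F hF)
    exact this (hV v)
  have hsubtype : ∀ (F : Finset Λ) (v : H), ∑ l ∈ F, ‖⟪e (l : ℝ), v⟫_ℂ‖ ^ 2 =
      ∑ y ∈ F.map (Function.Embedding.subtype _), ‖⟪e y, v⟫_ℂ‖ ^ 2 := by
    intro F v
    rw [Finset.sum_map]
    rfl
  have hmapsub : ∀ F : Finset Λ,
      (↑(F.map (Function.Embedding.subtype (· ∈ Λ))) : Set ℝ) ⊆ Λ := by
    intro F y hy
    rw [Finset.mem_coe, Finset.mem_map] at hy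
    obtain ⟨l, -, rfl⟩ := hy
    exact l.2
  have hbound : ∀ (v : H) (F : Finset Λ), ∑ l ∈ F, ‖⟪e (l : ℝ), v⟫_ℂ‖ ^ 2 ≤ C * ‖v‖ ^ 2 := by
    intro v F
    rw [hsubtype]
    exact hUall _ (hmapsub F) v
  have hsum : ∀ v : H, Summable (fun l : Λ => ‖⟪e l, v⟫_ℂ‖ ^ 2) := fun v =>
    summable_of_sum_le (fun l => sq_nonneg _) (hbound v)
  have hle : ∀ (F : Finset ℝ), (↑F : Set ℝ) ⊆ Λ → ∀ v : H,
      ∑ y ∈ F, ‖⟪e y, v⟫_ℂ‖ ^ 2 ≤ ∑' l : Λ, ‖⟪e l, v⟫_ℂ‖ ^ 2 := by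
    intro F hF v
    have h1 := (hsum v).sum_le_tsum (F.subtype (· ∈ Λ)) (fun l _ => sq_nonneg _)
    refine le_trans (le_of_eq ?_) h1
    rw [Finset.sum_subtype_of_mem (fun y => ‖⟪e y, v⟫_ℂ‖ ^ 2) (fun y hy => hF hy)]
  refine ⟨hsum h, ?_, ?_⟩
  · have hcl : IsClosed {v : H | A * ‖v‖ ^ 2 ≤
        2 * (∑' l : Λ, ‖⟪e l, h⟫_ℂ‖ ^ 2) + 2 * (C * ‖v - h‖ ^ 2)} := by
      refine isClosed_le ?_ ?_
      · fun_prop
      · fun_prop
    have hsub : V ⊆ {v : H | A * ‖v‖ ^ 2 ≤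
        2 * (∑' l : Λ, ‖⟪e l, h⟫_ℂ‖ ^ 2) + 2 * (C * ‖v - h‖ ^ 2)} := by
      intro v hv
      obtain ⟨F, hF, hF'⟩ := hL v hv
      have h1 : ∀ y ∈ F, ‖⟪e y, v⟫_ℂ‖ ^ 2 ≤ 2 * ‖⟪e y, h⟫_ℂ‖ ^ 2 + 2 * ‖⟪e y, v - h⟫_ℂ‖ ^ 2 := by
        intro y _
        have e1 : ⟪e y, v⟫_ℂ = ⟪e y, h⟫_ℂ + ⟪e y, v - h⟫_ℂ := by
          rw [← inner_add_right]
          congr 1
          abel
        have e2 := norm_add_le ⟪e y, h⟫_ℂ ⟪e y, v - h⟫_ℂ
        rw [← e1] at e2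
        have e3 := norm_nonneg ⟪e y, v⟫_ℂ
        nlinarith [sq_nonneg (‖⟪e y, h⟫_ℂ‖ - ‖⟪e y, v - h⟫_ℂ‖)]
      have h2 := Finset.sum_le_sum h1
      rw [Finset.sum_add_distrib, ← Finset.mul_sum, ← Finset.mul_sum] at h2
      have h3 := hle F hF h
      have h4 := hUall F hF (v - h)
      show A * ‖v‖ ^ 2 ≤ 2 * (∑' l : Λ, ‖⟪e l, h⟫_ℂ‖ ^ 2) + 2 * (C * ‖v - h‖ ^ 2)
      linarith
    have h5 := hcl.closure_subset_iff.2 hsub (hV h)
    have h6 : A * ‖h‖ ^ 2 ≤ 2 * (∑' l : Λ, ‖⟪e l, h⟫_ℂ‖ ^ 2) + 2 * (C * ‖h - h‖ ^ 2) := h5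
    rw [sub_self, norm_zero] at h6
    linarith
  · exact (hsum h).tsum_le_of_sum_le (hbound h)

theorem inner_toLp {Ω : Type} [MeasurableSpace Ω] {P : Measure Ω} {u v : Ω → ℂ}
    (hu : MemLp u 2 P) (hv : MemLp v 2 P) :
    ⟪hu.toLp u, hv.toLp v⟫_ℂ = ∫ ω, v ω * (starRingEnd ℂ) (u ω) ∂P := by
  rw [L2.inner_def]
  refine integral_congr_ae ?_
  filter_upwards [hu.coeFn_toLp, hv.coeFn_toLp] with ω h1 h2
  rw [h1, h2, RCLike.inner_apply]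

theorem norm_toLp_sq {Ω : Type} [MeasurableSpace Ω] {P : Measure Ω} {u : Ω → ℂ}
    (hu : MemLp u 2 P) : ‖hu.toLp u‖ ^ 2 = ∫ ω, ‖u ω‖ ^ 2 ∂P := by
  have h1 : ⟪hu.toLp u, hu.toLp u⟫_ℂ = ((‖hu.toLp u‖ ^ 2 : ℝ) : ℂ) := by
    rw [inner_self_eq_norm_sq_to_K]
    push_cast
    rfl
  have h2 := inner_toLp hu hu
  rw [h1] at h2
  have h3 : ∫ ω, u ω * (starRingEnd ℂ) (u ω) ∂P = ((∫ ω, ‖u ω‖ ^ 2 ∂P : ℝ) : ℂ) := by
    rw [← integral_complex_ofReal]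
    refine integral_congr_ae (Eventually.of_forall fun ω => ?_)
    simp only
    rw [Complex.mul_conj, Complex.normSq_eq_norm_sq]
  rw [h3] at h2
  exact_mod_cast h2

/-- the finite level elements of `L²` -/
def VV : Set (Lp ℂ 2 PP) :=
  {v | ∃ (m : ℕ) (Γ : Finset ℕ → ℂ), v = (memLp_comp_dset m Γ).toLp _}

theorem dense_VV : Dense VV := by
  rw [Metric.dense_iff]
  intro h r hr
  obtain ⟨g, hg, hg'⟩ := (Lp.memLp h).exists_boundedContinuous_eLpNorm_sub_le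
    (by norm_num) (ε := ENNReal.ofReal (r / 2)) (by
      rw [Ne, ENNReal.ofReal_eq_zero]
      linarith)
  -- approximate `g`
  set Γ : Finset ℕ → ℂ := fun a => g (fun j => decide (j ∈ a)) with hΓ
  have hpt : ∀ ω, Tendsto (fun m => Γ (dset m ω)) atTop (𝓝 (g ω)) := by
    intro ω
    refine (g.continuous.tendsto ω).comp ?_
    rw [tendsto_pi_nhds]
    intro j
    refine tendsto_const_nhds.congr' ?_
    filter_upwards [eventually_gt_atTop j] with m hm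
    by_cases h : ω j = true
    · rw [h]
      symm
      rw [decide_eq_true_iff, dset, Finset.mem_filter, Finset.mem_range]
      exact ⟨hm, h⟩
    · rw [Bool.not_eq_true] at h
      rw [h]
      symm
      rw [decide_eq_false_iff_not, dset, Finset.mem_filter]
      rintro ⟨-, h'⟩
      rw [h] at h'
      exact absurd h' (by decide)
  have hlim : Tendsto (fun m => ∫ ω, ‖g ω - Γ (dset m ω)‖ ^ 2 ∂PP) atTop (𝓝 0) := by
    have h1 : (0:ℝ) = ∫ _ω : ℕ → Bool, (0:ℝ) ∂PP := by simp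
    rw [h1]
    refine tendsto_integral_of_dominated_convergence (fun _ => (2 * ‖g‖) ^ 2) (fun m => ?_)
      (integrable_const _) (fun m => ?_) ?_
    · exact ((g.continuous.measurable.sub (measurable_comp_dset m Γ)).norm.pow_const 2).aestronglyMeasurable
    · refine Eventually.of_forall fun ω => ?_
      rw [Real.norm_eq_abs, abs_of_nonneg (sq_nonneg _)]
      apply pow_le_pow_left₀ (norm_nonneg _)
      refine (norm_sub_le _ _).trans ?_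
      have e1 := g.norm_coe_le_norm ω
      have e2 : ‖Γ (dset m ω)‖ ≤ ‖g‖ := g.norm_coe_le_norm _
      linarith
    · refine Eventually.of_forall fun ω => ?_
      have h2 : Tendsto (fun m => ‖g ω - Γ (dset m ω)‖ ^ 2) atTop (𝓝 (‖g ω - g ω‖ ^ 2)) :=
        (((tendsto_const_nhds (x := g ω)).sub (hpt ω)).norm).pow 2
      simpa using h2
  obtain ⟨m, hm⟩ := (hlim.eventually_lt_const (u := (r/2)^2) (by positivity)).exists
  refine ⟨(memLp_comp_dset m Γ).toLp _, ?_, m, Γ, rfl⟩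
  rw [Metric.mem_ball, dist_comm]
  have e1 : dist h (hg'.toLp g) ≤ r / 2 := by
    have h1 : h = (Lp.memLp h).toLp h := (Lp.toLp_coeFn h (Lp.memLp h)).symm
    rw [dist_eq_norm]
    have h2 : h - hg'.toLp g = ((Lp.memLp h).sub hg').toLp _ := by
      rw [MemLp.toLp_sub (Lp.memLp h) hg', ← h1]
    rw [h2, Lp.norm_toLp]
    exact ENNReal.toReal_le_of_le_ofReal (by linarith) hg
  have e2 : dist (hg'.toLp g) ((memLp_comp_dset m Γ).toLp _) < r / 2 := by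
    rw [dist_eq_norm, ← MemLp.toLp_sub hg' (memLp_comp_dset m Γ)]
    have h3 := norm_toLp_sq (hg'.sub (memLp_comp_dset m Γ))
    have h4 : ∫ ω, ‖((⇑g - fun ω => Γ (dset m ω)) : (ℕ → Bool) → ℂ) ω‖ ^ 2 ∂PP =
        ∫ ω, ‖g ω - Γ (dset m ω)‖ ^ 2 ∂PP := rfl
    rw [h4] at h3
    rw [← h3] at hm
    exact lt_of_pow_lt_pow_left₀ 2 (by linarith) hm
  calc dist h _ ≤ dist h (hg'.toLp g) + dist (hg'.toLp g) _ := dist_triangle _ _ _
    _ < r := by linarith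

theorem memLp_cc {ρ : ℝ} (h0 : 0 < ρ) (h1 : ρ ≤ 1/100) (y : ℝ) :
    MemLp (fun ω => (starRingEnd ℂ) (cc ρ y ω)) 2 PP := by
  refine MemLp.of_bound ?_ 1 (Eventually.of_forall fun ω => ?_)
  · exact (Complex.continuous_conj.comp (continuous_cc h0 h1 y)).measurable.aestronglyMeasurable
  · rw [RCLike.norm_conj, norm_cc]

/-- the vectors -/
noncomputable def evec {ρ : ℝ} (h0 : 0 < ρ) (h1 : ρ ≤ 1/100) (y : ℝ) : Lp ℂ 2 PP :=
  (memLp_cc h0 h1 y).toLp _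

theorem inner_evec {ρ : ℝ} (h0 : 0 < ρ) (h1 : ρ ≤ 1/100) (y : ℝ) {u : (ℕ → Bool) → ℂ}
    (hu : MemLp u 2 PP) : ⟪evec h0 h1 y, hu.toLp u⟫_ℂ = ∫ ω, u ω * cc ρ y ω ∂PP := by
  rw [evec, inner_toLp]
  refine integral_congr_ae (Eventually.of_forall fun ω => ?_)
  simp only [Complex.conj_conj]

/-- Fourier frames exist for generic small `ρ` -/
theorem main {ρ : ℝ} (h0 : 0 < ρ) (h1 : ρ ≤ 1/100) (hg : Gen ρ) {d : ℝ} (hd : 0 < d) :
    HasFourierFrame (bernoulliConv ρ d) := by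
  classical
  obtain ⟨Λ, hΛ, A, C, hA, hAC, hup, hlow⟩ := frame_walsh h0 h1 hg
  set s : ℝ := d * ρ with hs
  have hs0 : 0 < s := by positivity
  -- frame inequality on the finite level
  have hU : ∀ v ∈ VV, ∀ F : Finset ℝ, (↑F : Set ℝ) ⊆ {l | l * s ∈ Λ} →
      ∑ l ∈ F, ‖⟪evec h0 h1 (l * s), v⟫_ℂ‖ ^ 2 ≤ C * ‖v‖ ^ 2 := by
    rintro v ⟨m, Γ, rfl⟩ F hF
    obtain ⟨f₁, f₂, hn, hv⟩ := finite_level h0 h1 m Γ
    rw [norm_toLp_sq, hn]
    have e1 : ∑ l ∈ F, ‖⟪evec h0 h1 (l * s), (memLp_comp_dset m Γ).toLp _⟫_ℂ‖ ^ 2 =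
        ∑ y ∈ F.image (· * s), ((∑ S ∈ (range m).powerset, pw ρ y S * f₁ S) ^ 2 +
          (∑ S ∈ (range m).powerset, pw ρ y S * f₂ S) ^ 2) := by
      rw [Finset.sum_image (fun a _ b _ hab => mul_right_cancel₀ hs0.ne' hab)]
      refine Finset.sum_congr rfl fun l _ => ?_
      rw [inner_evec, hv]
    rw [e1, Finset.sum_add_distrib, mul_add]
    have e2 : (↑(F.image (· * s)) : Set ℝ) ⊆ Λ := by
      intro y hy
      rw [Finset.mem_coe, Finset.mem_image] at hy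
      obtain ⟨l, hl, rfl⟩ := hy
      exact hF hl
    exact add_le_add (hup _ f₁ _ e2) (hup _ f₂ _ e2)
  have hL : ∀ v ∈ VV, ∃ F : Finset ℝ, (↑F : Set ℝ) ⊆ {l | l * s ∈ Λ} ∧
      A * ‖v‖ ^ 2 ≤ ∑ l ∈ F, ‖⟪evec h0 h1 (l * s), v⟫_ℂ‖ ^ 2 := by
    rintro v ⟨m, Γ, rfl⟩
    obtain ⟨f₁, f₂, hn, hv⟩ := finite_level h0 h1 m Γ
    obtain ⟨F, hF, hF'⟩ := hlow (range m).powerset
    refine ⟨F.image (· / s), ?_, ?_⟩
    · intro l hl
      rw [Finset.mem_coe, Finset.mem_image] at hl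
      obtain ⟨y, hy, rfl⟩ := hl
      show y / s * s ∈ Λ
      rw [div_mul_cancel₀ _ hs0.ne']
      exact hF hy
    · rw [norm_toLp_sq, hn, Finset.sum_image (fun a _ b _ hab => by
        have hab' : a / s = b / s := hab
        rwa [div_left_inj' hs0.ne'] at hab')]
      have e1 : ∀ y ∈ F, ‖⟪evec h0 h1 (y / s * s), (memLp_comp_dset m Γ).toLp _⟫_ℂ‖ ^ 2 =
          (∑ S ∈ (range m).powerset, pw ρ y S * f₁ S) ^ 2 +
          (∑ S ∈ (range m).powerset, pw ρ y S * f₂ S) ^ 2 := by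
        intro y _
        rw [div_mul_cancel₀ _ hs0.ne', inner_evec, hv]
      rw [Finset.sum_congr rfl e1, Finset.sum_add_distrib, mul_add]
      exact add_le_add (hF' f₁) (hF' f₂)
  have hfin := frame_of_dense (fun l => evec h0 h1 (l * s)) VV dense_VV {l | l * s ∈ Λ} A C hU hL
  -- transfer
  have hX : ∀ ω : ℕ → Bool, ∑' j : ℕ, d * sgn (ω j) * ρ ^ (j + 1) / 2 = s / 2 * XX ρ ω := by
    intro ω
    rw [XX, ← tsum_mul_left]
    refine tsum_congr fun j => ?_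
    rw [hs, pow_succ]
    ring
  have hμ : bernoulliConv ρ d = PP.map (fun ω => s / 2 * XX ρ ω) := by
    rw [bernoulliConv, PP]
    congr 1
    funext ω
    exact hX ω
  have hXm : Measurable (fun ω => s / 2 * XX ρ ω) :=
    (continuous_const.mul (continuous_XX h0 h1)).measurable
  refine ⟨{l | l * s ∈ Λ}, ?_, A / 2, C, by positivity, by linarith, fun f hf => ?_⟩
  · exact hΛ.preimage_of_injOn (f := fun l => l * s)
      (fun a _ b _ hab => mul_right_cancel₀ hs0.ne' hab)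
  · rw [hμ] at hf ⊢
    have hfX : MemLp (fun ω => f (s / 2 * XX ρ ω)) 2 PP :=
      (memLp_map_measure_iff hf.1 hXm.aemeasurable).1 hf
    have hcoef : ∀ l : ℝ, fourierCoeffAt (PP.map (fun ω => s / 2 * XX ρ ω)) f l =
        ⟪evec h0 h1 (l * s), hfX.toLp _⟫_ℂ := by
      intro l
      rw [inner_evec, fourierCoeffAt, integral_map hXm.aemeasurable]
      · refine integral_congr_ae (Eventually.of_forall fun ω => ?_)
        simp only [cc]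
        congr 3
        push_cast
        ring
      · refine hf.1.mul ?_
        have : Continuous (fun x : ℝ => Complex.exp (-(2 * Real.pi * l * x : ℝ) * Complex.I)) := by
          fun_prop
        exact this.measurable.aestronglyMeasurable
    have hnorm : ∫ x, ‖f x‖ ^ 2 ∂(PP.map (fun ω => s / 2 * XX ρ ω)) =
        ‖hfX.toLp _‖ ^ 2 := by
      rw [norm_toLp_sq, integral_map hXm.aemeasurable]
      exact (hf.1.norm.pow 2)
    simp only [hcoef, hnorm]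
    exact hfin (hfX.toLp _)

end Pool.Agent.Helper27.FF
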